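import Mathlib

set_option autoImplicit false

open Complex

namespace Pool.Agent.Lib.MP_6bc78b_nt

/-- The unimodular factor `e^{iϑ(t)} = π^{-it/2} Γ(1/4+it/2)/|Γ(1/4+it/2)|`, where `ϑ` is the
Riemann-Siegel theta function. -/
noncomputable def thetaPhase (t : ℝ) : ℂ :=
  Complex.exp (-((t / 2 * Real.log Real.pi : ℝ) * I)) *
    (Complex.Gamma (1 / 4 + t / 2 * I) / ‖Complex.Gamma (1 / 4 + t / 2 * I)‖)

/-- Hardy's function `Z(t) = e^{iϑ(t)} ζ(1/2+it)` (it is real-valued, so we take the real part). -/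
noncomputable def hardyZ (t : ℝ) : ℝ :=
  (thetaPhase t * riemannZeta (1 / 2 + t * I)).re

/-- Order of vanishing of `Z` at `t`: the least `m` with `Z^{(m)}(t) ≠ 0`. It is `0` when
`Z(t) ≠ 0` and it is the multiplicity of the zero when `Z(t) = 0`. -/
noncomputable def zeroMult (t : ℝ) : ℕ := sInf {m : ℕ | iteratedDeriv m hardyZ t ≠ 0}

end Pool.Agent.Lib.MP_6bc78b_nt
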