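import Mathlib

set_option autoImplicit false

open Finset

namespace Pool.Agent.Lib.MP_6bc78b_nt

/-- `e^{iφ}`. -/
noncomputable def ei (x : ℝ) : ℂ := Complex.exp (x * Complex.I)

lemma norm_ei (x : ℝ) : ‖ei x‖ = 1 := Complex.norm_exp_ofReal_mul_I x

lemma ei_add (x y : ℝ) : ei (x + y) = ei x * ei y := by
  unfold ei; rw [← Complex.exp_add]; congr 1; push_cast; ring

lemma ei_half (x : ℝ) : ei (x / 2) = Real.cos (x / 2) + Real.sin (x / 2) * Complex.I := by
  unfold ei; rw [Complex.exp_mul_I]; push_cast; ring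

lemma cos_sq_add_sin_sq_C (x : ℝ) :
    ((Real.cos x : ℝ) : ℂ) ^ 2 + ((Real.sin x : ℝ) : ℂ) ^ 2 = 1 := by
  norm_cast
  rw [add_comm]; exact Real.sin_sq_add_cos_sq _

lemma ei_sub_one (x : ℝ) : ei x - 1 = 2 * Complex.I * Real.sin (x / 2) * ei (x / 2) := by
  have h1 : ei x = ei (x / 2) * ei (x / 2) := by rw [← ei_add]; congr 1; ring
  rw [h1, ei_half]
  linear_combination cos_sq_add_sin_sq_C (x / 2) - ((Real.sin (x / 2) : ℝ) : ℂ) ^ 2 * Complex.I_sq

/-- `1/(e^{ix}-1)` -/
noncomputable def kg (x : ℝ) : ℂ := -(1 / 2) - (Complex.I / 2) * (Real.cot (x / 2) : ℝ)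

lemma mul_kg {x : ℝ} (hx : Real.sin (x / 2) ≠ 0) : (ei x - 1) * kg x = 1 := by
  rw [ei_sub_one, kg, ei_half, Real.cot_eq_cos_div_sin]
  have hx' : ((Real.sin (x / 2) : ℝ) : ℂ) ≠ 0 := by exact_mod_cast hx
  rw [Complex.ofReal_div]
  set S := ((Real.sin (x / 2) : ℝ) : ℂ)
  set C := ((Real.cos (x / 2) : ℝ) : ℂ)
  have e : 2 * Complex.I * S * (C + S * Complex.I) * (-(1 / 2) - Complex.I / 2 * (C / S)) =
      -(Complex.I * S * (C + S * Complex.I)) - Complex.I ^ 2 * C * (C + S * Complex.I) := by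
    field_simp
  rw [e]
  linear_combination cos_sq_add_sin_sq_C (x / 2) -
    (S ^ 2 + C ^ 2 + Complex.I * S * C) * Complex.I_sq

/-- summation by parts -/
lemma sum_ei_by_parts (φ : ℕ → ℝ) (a m : ℕ)
    (hs : ∀ n, a ≤ n → n ≤ a + m → Real.sin ((φ (n + 1) - φ n) / 2) ≠ 0) :
    ∑ n ∈ Ico a (a + m + 1), ei (φ n) =
      ei (φ (a + m + 1)) * kg (φ (a + m + 1) - φ (a + m)) - ei (φ a) * kg (φ (a + 1) - φ a) +
      ∑ n ∈ Ico a (a + m), ei (φ (n + 1)) *
        (kg (φ (n + 1) - φ n) - kg (φ (n + 2) - φ (n + 1))) := by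
  have key : ∀ n, a ≤ n → n ≤ a + m →
      ei (φ n) = (ei (φ (n + 1)) - ei (φ n)) * kg (φ (n + 1) - φ n) := by
    intro n h1 h2
    have h3 := mul_kg (hs n h1 h2)
    have h4 : ei (φ (n + 1)) = ei (φ n) * ei (φ (n + 1) - φ n) := by
      rw [← ei_add]; congr 1; ring
    rw [h4]
    linear_combination (-(ei (φ n))) * h3
  induction m with
  | zero =>
    simp only [add_zero, Nat.Ico_succ_singleton, sum_singleton, Ico_self, sum_empty]
    linear_combination key a le_rfl (by omega)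
  | succ m ih =>
    have ih' := ih (fun n h1 h2 => hs n h1 (by omega)) (fun n h1 h2 => key n h1 (by omega))
    rw [show a + (m + 1) + 1 = (a + m + 1) + 1 by ring, Finset.sum_Ico_succ_top (by omega), ih',
      show a + (m + 1) = (a + m) + 1 by ring, Finset.sum_Ico_succ_top (by omega)]
    linear_combination key (a + m + 1) (by omega) (by omega)

lemma cot_sub_cot_nonneg {x y : ℝ} (hx : 0 < x) (hxy : x ≤ y) (hy : y < Real.pi) :
    0 ≤ Real.cot x - Real.cot y := by
  have h1 : 0 < Real.sin x := Real.sin_pos_of_pos_of_lt_pi hx (by linarith)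
  have h2 : 0 < Real.sin y := Real.sin_pos_of_pos_of_lt_pi (by linarith) hy
  have h3 : 0 ≤ Real.sin (y - x) := Real.sin_nonneg_of_nonneg_of_le_pi (by linarith) (by linarith)
  have h4 : Real.cot x - Real.cot y = Real.sin (y - x) / (Real.sin x * Real.sin y) := by
    rw [Real.cot_eq_cos_div_sin, Real.cot_eq_cos_div_sin, Real.sin_sub]
    field_simp
  rw [h4]
  positivity

lemma abs_cot_le {x lam : ℝ} (h0 : 0 < lam) (h1 : lam ≤ x) (h2 : x ≤ Real.pi - lam) :
    0 < Real.sin x ∧ Real.sin lam ≤ Real.sin x ∧ |Real.cot x| ≤ 1 / Real.sin lam := by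
  have hlam : lam ≤ Real.pi / 2 := by linarith
  have hs : Real.sin lam ≤ Real.sin x := by
    rcases le_total x (Real.pi / 2) with h | h
    · exact Real.sin_le_sin_of_le_of_le_pi_div_two (by linarith) h h1
    · rw [← Real.sin_pi_sub x]
      exact Real.sin_le_sin_of_le_of_le_pi_div_two (by linarith) (by linarith) (by linarith)
  have hl : 0 < Real.sin lam := Real.sin_pos_of_pos_of_lt_pi h0 (by linarith [Real.pi_pos])
  refine ⟨hl.trans_le hs, hs, ?_⟩
  rw [Real.cot_eq_cos_div_sin, abs_div, abs_of_pos (hl.trans_le hs)]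
  calc |Real.cos x| / Real.sin x ≤ 1 / Real.sin x := by
        apply div_le_div_of_nonneg_right (Real.abs_cos_le_one x) (hl.trans_le hs).le
    _ ≤ 1 / Real.sin lam := by gcongr

/-- Kusmin-Landau inequality. -/
theorem kusmin_landau (φ : ℕ → ℝ) (a b : ℕ) (lam : ℝ) (hlam : 0 < lam) (hlamπ : lam ≤ Real.pi)
    (k : ℤ)
    (hlo : ∀ n ∈ Ico a b, 2 * Real.pi * k + lam ≤ φ (n + 1) - φ n)
    (hhi : ∀ n ∈ Ico a b, φ (n + 1) - φ n ≤ 2 * Real.pi * (k + 1) - lam)
    (hmono : ∀ n, a ≤ n → n + 1 < b → φ (n + 1) - φ n ≤ φ (n + 2) - φ (n + 1)) :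
    ‖∑ n ∈ Ico a b, ei (φ n)‖ ≤ 2 * Real.pi / lam := by
  rcases le_or_gt b a with hab | hab
  · rw [Finset.Ico_eq_empty (by omega)]
    simp; positivity
  obtain ⟨m, rfl⟩ : ∃ m, b = a + m + 1 := ⟨b - a - 1, by omega⟩
  set d : ℕ → ℝ := fun n => (φ (n + 1) - φ n) / 2 - Real.pi * k with hd
  have hlo' : ∀ n, a ≤ n → n ≤ a + m → lam / 2 ≤ d n := by
    intro n h1 h2
    have := hlo n (by simp; omega)
    simp only [hd]; linarith
  have hhi' : ∀ n, a ≤ n → n ≤ a + m → d n ≤ Real.pi - lam / 2 := by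
    intro n h1 h2
    have := hhi n (by simp; omega)
    simp only [hd]; linarith
  have hcot : ∀ n, Real.cot ((φ (n + 1) - φ n) / 2) = Real.cot (d n) := by
    intro n
    simp only [hd]
    rw [Real.cot_eq_cos_div_sin, Real.cot_eq_cos_div_sin, mul_comm Real.pi (k : ℝ),
      Real.cos_sub_int_mul_pi, Real.sin_sub_int_mul_pi, mul_div_mul_left]
    exact zpow_ne_zero _ (by norm_num)
  have hsin : ∀ n, |Real.sin ((φ (n + 1) - φ n) / 2)| = |Real.sin (d n)| := by
    intro n
    have h1 : (φ (n + 1) - φ n) / 2 = d n + k * Real.pi := by simp only [hd]; ring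
    rw [h1, Real.sin_add_int_mul_pi, abs_mul, abs_zpow]
    simp
  have hac : ∀ n, a ≤ n → n ≤ a + m → 0 < Real.sin (d n) ∧
      Real.sin (lam / 2) ≤ Real.sin (d n) ∧ |Real.cot (d n)| ≤ 1 / Real.sin (lam / 2) :=
    fun n h1 h2 => abs_cot_le (by linarith) (hlo' n h1 h2) (hhi' n h1 h2)
  have hsl : 0 < Real.sin (lam / 2) :=
    Real.sin_pos_of_pos_of_lt_pi (by linarith) (by linarith [Real.pi_pos])
  have hs : ∀ n, a ≤ n → n ≤ a + m → Real.sin ((φ (n + 1) - φ n) / 2) ≠ 0 := by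
    intro n h1 h2 h0
    have h3 := hsin n
    rw [h0, abs_zero, eq_comm, abs_eq_zero] at h3
    exact (hac n h1 h2).1.ne' h3
  rw [sum_ei_by_parts φ a m hs]
  -- norm of kg
  have hkg : ∀ n, a ≤ n → n ≤ a + m →
      ‖kg (φ (n + 1) - φ n)‖ ≤ 1 / (2 * Real.sin (lam / 2)) := by
    intro n h1 h2
    have h3 := congrArg norm (mul_kg (hs n h1 h2))
    rw [norm_mul, ei_sub_one, norm_mul, norm_mul, norm_mul, norm_ei, norm_one] at h3
    simp only [Complex.norm_ofNat, Complex.norm_I, mul_one, Complex.norm_real,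
      Real.norm_eq_abs] at h3
    rw [hsin n, abs_of_pos (hac n h1 h2).1] at h3
    rw [le_div_iff₀ (by positivity), ← h3]
    have := (hac n h1 h2).2.1
    nlinarith [norm_nonneg (kg (φ (n + 1) - φ n))]
  have hdiff : ∀ n, a ≤ n → n < a + m →
      ‖ei (φ (n + 1)) * (kg (φ (n + 1) - φ n) - kg (φ (n + 2) - φ (n + 1)))‖ ≤
        (Real.cot (d n) - Real.cot (d (n + 1))) / 2 := by
    intro n h1 h2
    rw [norm_mul, norm_ei, one_mul]
    have h3 : kg (φ (n + 1) - φ n) - kg (φ (n + 2) - φ (n + 1)) =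
        -(Complex.I / 2) * ((Real.cot (d n) - Real.cot (d (n + 1)) : ℝ) : ℂ) := by
      simp only [kg]
      rw [hcot n]
      have := hcot (n + 1)
      rw [show n + 1 + 1 = n + 2 by ring] at this
      rw [this]
      push_cast; ring
    have h4 : 0 ≤ Real.cot (d n) - Real.cot (d (n + 1)) := by
      apply cot_sub_cot_nonneg
      · linarith [hlo' n h1 (by omega)]
      · have := hmono n h1 (by omega)
        simp only [hd]
        rw [show n + 1 + 1 = n + 2 by ring]; linarith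
      · linarith [hhi' (n + 1) (by omega) (by omega)]
    rw [h3, norm_mul, norm_neg, norm_div, Complex.norm_I, Complex.norm_real, Real.norm_eq_abs,
      abs_of_nonneg h4]
    simp only [Complex.norm_ofNat]
    linarith
  have hsum : ‖∑ n ∈ Ico a (a + m), ei (φ (n + 1)) *
        (kg (φ (n + 1) - φ n) - kg (φ (n + 2) - φ (n + 1)))‖ ≤
        (Real.cot (d a) - Real.cot (d (a + m))) / 2 := by
    refine (norm_sum_le _ _).trans ?_
    have h1 : ∑ n ∈ Ico a (a + m), ‖ei (φ (n + 1)) *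
        (kg (φ (n + 1) - φ n) - kg (φ (n + 2) - φ (n + 1)))‖ ≤
        ∑ n ∈ Ico a (a + m), (Real.cot (d n) - Real.cot (d (n + 1))) / 2 := by
      apply Finset.sum_le_sum
      intro n hn
      rw [Finset.mem_Ico] at hn
      exact hdiff n hn.1 hn.2
    refine h1.trans (le_of_eq ?_)
    rw [← Finset.sum_div]
    congr 1
    have := Finset.sum_Ico_sub (fun n => - Real.cot (d n)) (m := a) (n := a + m) (by omega)
    simp only [sub_neg_eq_add] at this
    rw [show ∑ n ∈ Ico a (a + m), (Real.cot (d n) - Real.cot (d (n + 1))) =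
      ∑ n ∈ Ico a (a + m), (-Real.cot (d (n + 1)) + Real.cot (d n)) from
      Finset.sum_congr rfl fun n _ => by ring, this]
    ring
  have e1 := hkg (a + m) (by omega) le_rfl
  have e2 := hkg a le_rfl (by omega)
  have e3 := (hac a le_rfl (by omega)).2.2
  have e4 := (hac (a + m) (by omega) le_rfl).2.2
  have hfin : ‖ei (φ (a + m + 1)) * kg (φ (a + m + 1) - φ (a + m)) -
      ei (φ a) * kg (φ (a + 1) - φ a) +
      ∑ n ∈ Ico a (a + m), ei (φ (n + 1)) *
        (kg (φ (n + 1) - φ n) - kg (φ (n + 2) - φ (n + 1)))‖ ≤ 2 / Real.sin (lam / 2) := by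
    refine (norm_add_le _ _).trans ?_
    have f1 : ‖ei (φ (a + m + 1)) * kg (φ (a + m + 1) - φ (a + m)) -
        ei (φ a) * kg (φ (a + 1) - φ a)‖ ≤ 1 / Real.sin (lam / 2) := by
      refine (norm_sub_le _ _).trans ?_
      rw [norm_mul, norm_mul, norm_ei, norm_ei, one_mul, one_mul]
      have : 1 / (2 * Real.sin (lam / 2)) = 1 / Real.sin (lam / 2) / 2 := by
        field_simp
      rw [this] at e1 e2
      linarith
    have f2 : (Real.cot (d a) - Real.cot (d (a + m))) / 2 ≤ 1 / Real.sin (lam / 2) := by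
      have g1 := le_abs_self (Real.cot (d a))
      have g2 := neg_abs_le (Real.cot (d (a + m)))
      linarith
    have : 2 / Real.sin (lam / 2) = 1 / Real.sin (lam / 2) + 1 / Real.sin (lam / 2) := by ring
    linarith
  refine hfin.trans ?_
  have hjordan : 2 / Real.pi * (lam / 2) ≤ Real.sin (lam / 2) :=
    Real.mul_le_sin (by linarith) (by linarith)
  have : lam / Real.pi ≤ Real.sin (lam / 2) := by
    calc lam / Real.pi = 2 / Real.pi * (lam / 2) := by ring
      _ ≤ _ := hjordan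
  calc 2 / Real.sin (lam / 2) ≤ 2 / (lam / Real.pi) := by
        apply div_le_div_of_nonneg_left (by norm_num) (div_pos hlam Real.pi_pos) this
    _ = 2 * Real.pi / lam := by field_simp

end Pool.Agent.Lib.MP_6bc78b_nt
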