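import Mathlib
import Pool.Agent.Lib.MP_6bc78b_nt.Kusmin

set_option autoImplicit false

open Finset

namespace Pool.Agent.Lib.MP_6bc78b_nt

lemma incr_le {δ : ℕ → ℝ} {a b : ℕ} {μ : ℝ}
    (h : ∀ n, a ≤ n → n + 1 < b → μ ≤ δ (n + 1) - δ n) (i : ℕ) (hi : a ≤ i) :
    ∀ j, i ≤ j → j < b → μ * (j - i : ℝ) ≤ δ j - δ i := by
  intro j hij
  induction j, hij using Nat.le_induction with
  | base => intro _; simp
  | succ j hij ih =>
    intro hb
    have h1 := ih (by omega)
    have h2 := h j (by omega) hb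
    push_cast
    linarith

lemma le_incr {δ : ℕ → ℝ} {a b : ℕ} {μ : ℝ}
    (h : ∀ n, a ≤ n → n + 1 < b → δ (n + 1) - δ n ≤ μ) (i : ℕ) (hi : a ≤ i) :
    ∀ j, i ≤ j → j < b → δ j - δ i ≤ μ * (j - i : ℝ) := by
  intro j hij
  induction j, hij using Nat.le_induction with
  | base => intro _; simp
  | succ j hij ih =>
    intro hb
    have h1 := ih (by omega)
    have h2 := h j (by omega) hb
    push_cast
    linarith

lemma filter_eq_Ico {δ : ℕ → ℝ} {a b : ℕ}
    (h : ∀ n, a ≤ n → n + 1 < b → 0 ≤ δ (n + 1) - δ n) (u v : ℝ) :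
    ∃ c d, (Ico a b).filter (fun n => u ≤ δ n ∧ δ n ≤ v) = Ico c d := by
  classical
  set F := (Ico a b).filter (fun n => u ≤ δ n ∧ δ n ≤ v) with hF
  rcases F.eq_empty_or_nonempty with h0 | h0
  · exact ⟨0, 0, by rw [h0]; simp⟩
  · refine ⟨F.min' h0, F.max' h0 + 1, ?_⟩
    have hmin := mem_filter.1 (F.min'_mem h0)
    have hmax := mem_filter.1 (F.max'_mem h0)
    rw [mem_Ico] at hmin hmax
    ext n
    constructor
    · intro hn
      rw [mem_Ico]
      exact ⟨F.min'_le n hn, Nat.lt_succ_of_le (F.le_max' n hn)⟩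
    · intro hn
      rw [mem_Ico] at hn
      have h1 := incr_le (μ := 0) h (F.min' h0) hmin.1.1 n hn.1 (by omega)
      have h2 := incr_le (μ := 0) h n (by omega) (F.max' h0) (by omega) hmax.1.2
      rw [hF, mem_filter, mem_Ico]
      refine ⟨⟨by omega, by omega⟩, ?_, ?_⟩
      · linarith [hmin.2.1]
      · linarith [hmax.2.2]

lemma card_filter_le {δ : ℕ → ℝ} {a b : ℕ} {μ : ℝ} (hμ : 0 < μ)
    (h : ∀ n, a ≤ n → n + 1 < b → μ ≤ δ (n + 1) - δ n) {u v : ℝ} (huv : u ≤ v) :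
    (((Ico a b).filter (fun n => u ≤ δ n ∧ δ n ≤ v)).card : ℝ) ≤ (v - u) / μ + 1 := by
  obtain ⟨c, d, hcd⟩ := filter_eq_Ico (δ := δ) (a := a) (b := b)
    (fun n h1 h2 => hμ.le.trans (h n h1 h2)) u v
  rw [hcd, Nat.card_Ico]
  have hpos : 0 ≤ (v - u) / μ := div_nonneg (by linarith) hμ.le
  rcases le_or_gt d c with hdc | hdc
  · rw [Nat.sub_eq_zero_of_le hdc]; push_cast; linarith
  · have hc : c ∈ (Ico a b).filter (fun n => u ≤ δ n ∧ δ n ≤ v) := by
      rw [hcd, mem_Ico]; exact ⟨le_rfl, hdc⟩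
    have hd : d - 1 ∈ (Ico a b).filter (fun n => u ≤ δ n ∧ δ n ≤ v) := by
      rw [hcd, mem_Ico]; omega
    rw [mem_filter, mem_Ico] at hc hd
    have h1 := incr_le h c hc.1.1 (d - 1) (by omega) hd.1.2
    have h2 : ((d - c : ℕ) : ℝ) = ((d - 1 : ℕ) : ℝ) - c + 1 := by
      rw [Nat.cast_sub hdc.le, Nat.cast_sub (by omega)]; push_cast; ring
    rw [h2]
    have h3 : ((d - 1 : ℕ) : ℝ) - c ≤ (v - u) / μ := by
      rw [le_div_iff₀ hμ]
      linarith [hc.2.1, hd.2.2]
    linarith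

/-- Van der Corput's second derivative test (discrete form). -/
theorem vdc2 (φ : ℕ → ℝ) (a b : ℕ) (hab : a < b) (μ h : ℝ) (hμ : 0 < μ) (hμ1 : μ ≤ 1) (hh : 1 ≤ h)
    (hlo : ∀ n, a ≤ n → n + 1 < b → μ ≤ (φ (n + 2) - φ (n + 1)) - (φ (n + 1) - φ n))
    (hhi : ∀ n, a ≤ n → n + 1 < b → (φ (n + 2) - φ (n + 1)) - (φ (n + 1) - φ n) ≤ h * μ) :
    ‖∑ n ∈ Ico a b, ei (φ n)‖ ≤ (h * μ * (b - a) / 6 + 2) * (12 / Real.sqrt μ) := by
  classical
  set δ : ℕ → ℝ := fun n => φ (n + 1) - φ n with hδ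
  have hδlo : ∀ n, a ≤ n → n + 1 < b → μ ≤ δ (n + 1) - δ n := fun n h1 h2 => hlo n h1 h2
  have hδhi : ∀ n, a ≤ n → n + 1 < b → δ (n + 1) - δ n ≤ h * μ := fun n h1 h2 => hhi n h1 h2
  have hpi : 0 < Real.pi := Real.pi_pos
  set r := Real.sqrt μ with hr
  have hr0 : 0 < r := Real.sqrt_pos.2 hμ
  have hrsq : r * r = μ := Real.mul_self_sqrt hμ.le
  have hr1 : r ≤ 1 := by
    rw [hr]; exact Real.sqrt_le_one.2 hμ1
  have hrpi : r ≤ Real.pi := by linarith [Real.pi_gt_three]
  set K : ℕ → ℤ := fun n => ⌊δ n / (2 * Real.pi)⌋ with hK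
  have hKmem : ∀ n ∈ Ico a b, K n ∈ Icc (K a) (K (b - 1)) := by
    intro n hn
    rw [mem_Ico] at hn
    rw [mem_Icc]
    have h1 := incr_le hδlo a le_rfl n hn.1 hn.2
    have h2 := incr_le hδlo n hn.1 (b - 1) (by omega) (by omega)
    have h1' : (0:ℝ) ≤ (n : ℝ) - a := by
      have : (a : ℝ) ≤ n := by exact_mod_cast hn.1
      linarith
    have h2' : (0:ℝ) ≤ ((b - 1 : ℕ) : ℝ) - n := by
      have : (n : ℝ) ≤ ((b - 1 : ℕ) : ℝ) := by
        have : n ≤ b - 1 := by omega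
        exact_mod_cast this
      linarith
    constructor
    · apply Int.floor_le_floor
      apply div_le_div_of_nonneg_right _ (by positivity)
      nlinarith
    · apply Int.floor_le_floor
      apply div_le_div_of_nonneg_right _ (by positivity)
      nlinarith
  -- fibers
  have hfiber : ∀ k ∈ Icc (K a) (K (b - 1)),
      ‖∑ n ∈ (Ico a b).filter (fun n => K n = k), ei (φ n)‖ ≤ 12 / r := by
    intro k _
    set J := (Ico a b).filter (fun n => 2 * Real.pi * k + r ≤ δ n ∧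
      δ n ≤ 2 * Real.pi * (k + 1) - r) with hJ
    set J1 := (Ico a b).filter (fun n => 2 * Real.pi * k ≤ δ n ∧
      δ n ≤ 2 * Real.pi * k + r) with hJ1
    set J2 := (Ico a b).filter (fun n => 2 * Real.pi * (k + 1) - r ≤ δ n ∧
      δ n ≤ 2 * Real.pi * (k + 1)) with hJ2
    set I := (Ico a b).filter (fun n => K n = k) with hI
    have hKk : ∀ n, K n = k ↔ 2 * Real.pi * k ≤ δ n ∧ δ n < 2 * Real.pi * (k + 1) := by
      intro n
      simp only [hK]
      rw [Int.floor_eq_iff, le_div_iff₀ (by positivity), div_lt_iff₀ (by positivity)]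
      constructor
      · rintro ⟨h1, h2⟩; constructor <;> linarith
      · rintro ⟨h1, h2⟩; constructor <;> linarith
    have hJI : J ⊆ I := by
      intro n hn
      rw [hJ, mem_filter] at hn
      rw [hI, mem_filter, hKk]
      exact ⟨hn.1, by linarith [hn.2.1], by linarith [hn.2.2]⟩
    have hrest : I \ J ⊆ J1 ∪ J2 := by
      intro n hn
      rw [mem_sdiff, hI, mem_filter, hKk, hJ, mem_filter] at hn
      obtain ⟨⟨h1, h2, h3⟩, h4⟩ := hn
      rw [mem_union, hJ1, hJ2, mem_filter, mem_filter]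
      by_contra hcon
      push Not at hcon
      apply h4
      refine ⟨h1, ?_, ?_⟩
      · have := hcon.1 h1 h2; linarith
      · by_contra h5
        push Not at h5
        have := hcon.2 h1 (by linarith)
        linarith
    have hcard : ((I \ J).card : ℝ) ≤ 2 * (r / μ + 1) := by
      have c1 := card_filter_le hμ hδlo (u := 2 * Real.pi * k) (v := 2 * Real.pi * k + r)
        (by linarith)
      have c2 := card_filter_le hμ hδlo (u := 2 * Real.pi * (k + 1) - r)
        (v := 2 * Real.pi * (k + 1)) (by linarith)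
      have c3 : (I \ J).card ≤ J1.card + J2.card :=
        (card_le_card hrest).trans (card_union_le _ _)
      have c4 : ((I \ J).card : ℝ) ≤ J1.card + J2.card := by exact_mod_cast c3
      have e1 : 2 * Real.pi * k + r - 2 * Real.pi * k = r := by ring
      have e2 : 2 * Real.pi * (k + 1) - (2 * Real.pi * (k + 1) - r) = r := by ring
      rw [e1] at c1
      rw [e2] at c2
      linarith
    have hJsum : ‖∑ n ∈ J, ei (φ n)‖ ≤ 2 * Real.pi / r := by
      obtain ⟨c, d, hcd⟩ := filter_eq_Ico (δ := δ) (a := a) (b := b)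
        (fun n h1 h2 => hμ.le.trans (hδlo n h1 h2)) (2 * Real.pi * k + r)
        (2 * Real.pi * (k + 1) - r)
      have hJeq : J = Ico c d := hcd
      have hmemJ : ∀ n ∈ Ico c d, (a ≤ n ∧ n < b) ∧ 2 * Real.pi * k + r ≤ δ n ∧
          δ n ≤ 2 * Real.pi * (k + 1) - r := by
        intro n hn
        rw [← hJeq, hJ, mem_filter, mem_Ico] at hn
        exact hn
      rw [hJeq]
      apply kusmin_landau φ c d r hr0 hrpi k
      · intro n hn; exact (hmemJ n hn).2.1
      · intro n hn; exact (hmemJ n hn).2.2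
      · intro n h1 h2
        have h3 := hmemJ n (by rw [mem_Ico]; omega)
        have h4 := hmemJ (n + 1) (by rw [mem_Ico]; omega)
        have := hδlo n h3.1.1 h4.1.2
        simp only [hδ] at this
        linarith
    have hsplit : ∑ n ∈ I, ei (φ n) = ∑ n ∈ J, ei (φ n) + ∑ n ∈ I \ J, ei (φ n) := by
      rw [add_comm, Finset.sum_sdiff hJI]
    rw [hsplit]
    refine (norm_add_le _ _).trans ?_
    have h5 : ‖∑ n ∈ I \ J, ei (φ n)‖ ≤ ((I \ J).card : ℝ) := by
      refine (norm_sum_le _ _).trans ?_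
      simp [norm_ei]
    have h6 : r / μ = 1 / r := by rw [← hrsq]; field_simp
    rw [h6] at hcard
    have h7 : 1 ≤ 1 / r := by rw [le_div_iff₀ hr0]; linarith
    have h8 : 2 * Real.pi / r ≤ 8 * (1 / r) := by
      rw [mul_one_div]; gcongr; linarith [Real.pi_le_four]
    have h9 : 12 / r = 12 * (1 / r) := by ring
    rw [h9]
    linarith
  have hsum : ∑ n ∈ Ico a b, ei (φ n) =
      ∑ k ∈ Icc (K a) (K (b - 1)), ∑ n ∈ (Ico a b).filter (fun n => K n = k), ei (φ n) :=
    (Finset.sum_fiberwise_of_maps_to hKmem _).symm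
  rw [hsum]
  refine (norm_sum_le _ _).trans ((Finset.sum_le_sum hfiber).trans ?_)
  rw [Finset.sum_const, nsmul_eq_mul]
  apply mul_le_mul_of_nonneg_right _ (by positivity)
  rw [Int.card_Icc]
  have hle : δ (b - 1) - δ a ≤ h * μ * (((b - 1 : ℕ) : ℝ) - a) :=
    le_incr hδhi a le_rfl (b - 1) (by omega) (by omega)
  have hb1 : ((b - 1 : ℕ) : ℝ) = b - 1 := by
    rw [Nat.cast_sub (by omega)]; push_cast; ring
  have f1 : (K (b - 1) : ℝ) ≤ δ (b - 1) / (2 * Real.pi) := Int.floor_le _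
  have f2 : δ a / (2 * Real.pi) < K a + 1 := Int.lt_floor_add_one _
  have hmon : K a ≤ K (b - 1) := (mem_Icc.1 (hKmem a (by rw [mem_Ico]; omega))).2
  have hcast : (((K (b - 1) + 1 - K a).toNat : ℕ) : ℝ) = (K (b - 1) : ℝ) + 1 - K a := by
    have : (((K (b - 1) + 1 - K a).toNat : ℕ) : ℤ) = K (b - 1) + 1 - K a :=
      Int.toNat_of_nonneg (by omega)
    exact_mod_cast this
  rw [hcast]
  have f3 : (K (b - 1) : ℝ) - K a ≤ (δ (b - 1) - δ a) / (2 * Real.pi) + 1 := by
    rw [sub_div]; linarith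
  have f4 : (δ (b - 1) - δ a) / (2 * Real.pi) ≤ h * μ * (b - a) / 6 := by
    rw [div_le_div_iff₀ (by positivity) (by norm_num)]
    rw [hb1] at hle
    have hba : (0:ℝ) ≤ b - a := by
      have : (a:ℝ) ≤ b := by exact_mod_cast hab.le
      linarith
    have hhμ : 0 ≤ h * μ := by positivity
    have g1 : δ (b - 1) - δ a ≤ h * μ * (b - a) := by nlinarith
    have g2 : 0 ≤ h * μ * ((b:ℝ) - a) := by positivity
    have : 6 ≤ 2 * Real.pi := by linarith [Real.pi_gt_three]
    nlinarith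
  linarith

end Pool.Agent.Lib.MP_6bc78b_nt
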