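import Mathlib
import Pool.Agent.Lib.MP_6bc78b_nt.VanDerCorput

set_option autoImplicit false

open Finset ComplexConjugate

namespace Pool.Agent.Lib.MP_6bc78b_nt

lemma conj_ei (x : ℝ) : conj (ei x) = ei (-x) := by
  unfold ei; rw [← Complex.exp_conj]; congr 1; simp

/-- Weyl-van der Corput inequality. -/
theorem weyl_vdc (φ : ℕ → ℝ) (a b H : ℕ) (hH : 1 ≤ H) (hHa : H ≤ a) (hab : a ≤ b)
    (B : ℕ → ℝ)
    (hB : ∀ h, 1 ≤ h → h < H → ‖∑ n ∈ Ico a (b - h), ei (φ (n + h) - φ n)‖ ≤ B h) :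
    ‖∑ n ∈ Ico a b, ei (φ n)‖ ^ 2 * H ≤
      ((b - a : ℝ) + H) * ((b - a : ℝ) + 2 * ∑ h ∈ Ico 1 H, B h) := by
  classical
  set z : ℕ → ℂ := fun n => if n ∈ Ico a b then ei (φ n) else 0 with hz
  set S := ∑ n ∈ Ico a b, ei (φ n) with hS
  set N : ℝ := (b - a : ℝ) with hN
  have hN0 : 0 ≤ N := by
    have : (a:ℝ) ≤ b := by exact_mod_cast hab
    rw [hN]; linarith
  have hHpos : (0:ℝ) < H := by exact_mod_cast hH
  -- sums of z over larger intervals
  have hzsum : ∀ r, r < H → ∑ m ∈ Ico (a - H) b, z (m + r) = S := by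
    intro r hr
    rw [Finset.sum_Ico_add' z (a - H) b r, hS]
    have hsub : Ico a b ⊆ Ico (a - H + r) (b + r) := by
      intro n hn; rw [mem_Ico] at hn ⊢; omega
    rw [← Finset.sum_subset hsub (f := z)]
    · apply Finset.sum_congr rfl
      intro n hn; simp only [hz]; rw [if_pos hn]
    · intro n _ hn; simp only [hz]; rw [if_neg hn]
  set W : ℕ → ℂ := fun m => ∑ r ∈ range H, z (m + r) with hW
  have hHS : (H : ℂ) * S = ∑ m ∈ Ico (a - H) b, W m := by
    simp only [hW]
    rw [Finset.sum_comm, Finset.sum_congr rfl (fun r hr => hzsum r (mem_range.1 hr)),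
      Finset.sum_const, card_range, nsmul_eq_mul]
  have hcardm : ((Ico (a - H) b).card : ℝ) = N + H := by
    rw [Nat.card_Ico, Nat.cast_sub (by omega), Nat.cast_sub hHa, hN]; ring
  have hCS : (H * ‖S‖) ^ 2 ≤ (N + H) * ∑ m ∈ Ico (a - H) b, ‖W m‖ ^ 2 := by
    have h1 : (H : ℝ) * ‖S‖ ≤ ∑ m ∈ Ico (a - H) b, ‖W m‖ := by
      have : (H : ℝ) * ‖S‖ = ‖(H : ℂ) * S‖ := by rw [norm_mul]; simp
      rw [this, hHS]
      exact norm_sum_le _ _
    calc (H * ‖S‖) ^ 2 ≤ (∑ m ∈ Ico (a - H) b, ‖W m‖) ^ 2 :=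
          pow_le_pow_left₀ (by positivity) h1 2
      _ ≤ ((Ico (a - H) b).card : ℝ) * ∑ m ∈ Ico (a - H) b, ‖W m‖ ^ 2 :=
          sq_sum_le_card_mul_sum_sq
      _ = _ := by rw [hcardm]
  -- correlations
  set Cr : ℕ → ℕ → ℂ := fun r r' => ∑ m ∈ Ico (a - H) b, z (m + r) * conj (z (m + r')) with hCr
  have hCr_symm : ∀ r r', ‖Cr r r'‖ = ‖Cr r' r‖ := by
    intro r r'
    have : Cr r r' = conj (Cr r' r) := by
      simp only [hCr, map_sum, map_mul, Complex.conj_conj]
      exact Finset.sum_congr rfl fun m _ => mul_comm _ _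
    rw [this, Complex.norm_conj]
  have hCr_lt : ∀ h r', 1 ≤ h → r' + h < H → ‖Cr (r' + h) r'‖ ≤ B h := by
    intro h r' h1 h2
    have : Cr (r' + h) r' = ∑ n ∈ Ico a (b - h), ei (φ (n + h) - φ n) := by
      simp only [hCr]
      have e1 : ∀ m, z (m + (r' + h)) * conj (z (m + r')) =
          (fun n => z (n + h) * conj (z n)) (m + r') := by
        intro m; simp only; rw [show m + (r' + h) = m + r' + h by ring]
      rw [Finset.sum_congr rfl (fun m _ => e1 m),
        Finset.sum_Ico_add' (fun n => z (n + h) * conj (z n)) (a - H) b r']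
      have hsub : Ico a (b - h) ⊆ Ico (a - H + r') (b + r') := by
        intro n hn; rw [mem_Ico] at hn ⊢; omega
      rw [← Finset.sum_subset hsub]
      · apply Finset.sum_congr rfl
        intro n hn
        rw [mem_Ico] at hn
        have m1 : n ∈ Ico a b := by rw [mem_Ico]; omega
        have m2 : n + h ∈ Ico a b := by rw [mem_Ico]; omega
        simp only [hz]
        rw [if_pos m1, if_pos m2, conj_ei, ← ei_add, sub_eq_add_neg]
      · intro n _ hn
        rw [mem_Ico] at hn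
        simp only [hz]
        by_cases m1 : n ∈ Ico a b
        · have m2 : n + h ∉ Ico a b := by
            rw [mem_Ico] at m1 ⊢; omega
          rw [if_neg m2, zero_mul]
        · rw [if_neg m1]; simp
    rw [this]
    exact hB h h1 (by omega)
  have hCr_diag : ∀ r, r < H → ‖Cr r r‖ ≤ N := by
    intro r hr
    have : Cr r r = ((b - a : ℕ) : ℂ) := by
      simp only [hCr]
      rw [Finset.sum_Ico_add' (fun n => z n * conj (z n)) (a - H) b r]
      have hsub : Ico a b ⊆ Ico (a - H + r) (b + r) := by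
        intro n hn; rw [mem_Ico] at hn ⊢; omega
      rw [← Finset.sum_subset hsub]
      · rw [Finset.sum_congr rfl (g := fun _ => (1:ℂ))]
        · rw [Finset.sum_const, Nat.card_Ico]; simp
        · intro n hn
          simp only [hz]
          rw [if_pos hn, conj_ei, ← ei_add, add_neg_cancel]
          simp [ei]
      · intro n _ hn
        simp only [hz]; rw [if_neg hn]; simp
    rw [this, Complex.norm_natCast, Nat.cast_sub hab]
  have hWsq : ∑ m ∈ Ico (a - H) b, ‖W m‖ ^ 2 ≤
      ∑ r ∈ range H, ∑ r' ∈ range H, ‖Cr r r'‖ := by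
    have h1 : ((∑ m ∈ Ico (a - H) b, ‖W m‖ ^ 2 : ℝ) : ℂ) =
        ∑ r ∈ range H, ∑ r' ∈ range H, Cr r r' := by
      push_cast
      have : ∀ m, ((‖W m‖ : ℂ)) ^ 2 = ∑ r ∈ range H, ∑ r' ∈ range H,
          z (m + r) * conj (z (m + r')) := by
        intro m
        rw [← Complex.mul_conj']
        simp only [hW]
        rw [map_sum, Finset.sum_mul_sum]
      rw [Finset.sum_congr rfl (fun m _ => this m), Finset.sum_comm]
      apply Finset.sum_congr rfl
      intro r _
      rw [Finset.sum_comm]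
    have h2 : (∑ m ∈ Ico (a - H) b, ‖W m‖ ^ 2 : ℝ) =
        ‖((∑ m ∈ Ico (a - H) b, ‖W m‖ ^ 2 : ℝ) : ℂ)‖ := by
      rw [Complex.norm_real, Real.norm_of_nonneg]
      exact Finset.sum_nonneg fun _ _ => sq_nonneg _
    rw [h2, h1]
    refine (norm_sum_le _ _).trans (Finset.sum_le_sum fun r _ => norm_sum_le _ _)
  set T := ∑ h ∈ Ico 1 H, B h with hT
  have hBnn : ∀ h, 1 ≤ h → h < H → 0 ≤ B h := fun h h1 h2 => (norm_nonneg _).trans (hB h h1 h2)
  have hrow : ∀ r ∈ range H, ∑ r' ∈ range H, ‖Cr r r'‖ ≤ N + 2 * T := by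
    intro r hr
    rw [mem_range] at hr
    -- split r' < r, r' = r, r' > r
    have hsplit : ∑ r' ∈ range H, ‖Cr r r'‖ =
        ∑ r' ∈ range r, ‖Cr r r'‖ + (‖Cr r r‖ + ∑ r' ∈ Ico (r + 1) H, ‖Cr r r'‖) := by
      rw [← Finset.sum_eq_sum_Ico_succ_bot hr (fun r' => ‖Cr r r'‖)]
      exact (Finset.sum_range_add_sum_Ico (fun r' => ‖Cr r r'‖) hr.le).symm
    have p1 : ∑ r' ∈ range r, ‖Cr r r'‖ ≤ T := by
      have : ∑ r' ∈ range r, ‖Cr r r'‖ ≤ ∑ r' ∈ range r, B (r - r') := by
        apply Finset.sum_le_sum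
        intro r' hr'
        rw [mem_range] at hr'
        have := hCr_lt (r - r') r' (by omega) (by omega)
        rwa [show r' + (r - r') = r by omega] at this
      refine this.trans ?_
      rw [← Finset.sum_range_reflect]
      have e : ∑ j ∈ range r, B (r - (r - 1 - j)) = ∑ h ∈ Ico 1 (r + 1), B h := by
        rw [Finset.sum_Ico_eq_sum_range]
        apply Finset.sum_congr (by simp)
        intro j hj
        rw [mem_range] at hj
        congr 1; omega
      rw [e, hT]
      apply Finset.sum_le_sum_of_subset_of_nonneg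
      · intro h hh; rw [mem_Ico] at hh ⊢; omega
      · intro h hh _
        rw [mem_Ico] at hh
        exact hBnn h hh.1 hh.2
    have p2 : ∑ r' ∈ Ico (r + 1) H, ‖Cr r r'‖ ≤ T := by
      have : ∑ r' ∈ Ico (r + 1) H, ‖Cr r r'‖ ≤ ∑ r' ∈ Ico (r + 1) H, B (r' - r) := by
        apply Finset.sum_le_sum
        intro r' hr'
        rw [mem_Ico] at hr'
        rw [hCr_symm]
        have := hCr_lt (r' - r) r (by omega) (by omega)
        rwa [show r + (r' - r) = r' by omega] at this
      refine this.trans ?_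
      rw [Finset.sum_Ico_eq_sum_range]
      have e : ∑ k ∈ range (H - (r + 1)), B (r + 1 + k - r) =
          ∑ h ∈ Ico 1 (H - r), B h := by
        rw [Finset.sum_Ico_eq_sum_range]
        apply Finset.sum_congr
        · congr 1
        · intro j hj
          congr 1; omega
      rw [e, hT]
      apply Finset.sum_le_sum_of_subset_of_nonneg
      · intro h hh; rw [mem_Ico] at hh ⊢; omega
      · intro h hh _
        rw [mem_Ico] at hh
        exact hBnn h hh.1 hh.2
    rw [hsplit]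
    have p3 := hCr_diag r hr
    linarith
  have htot : ∑ r ∈ range H, ∑ r' ∈ range H, ‖Cr r r'‖ ≤ H * (N + 2 * T) := by
    refine (Finset.sum_le_sum hrow).trans (le_of_eq ?_)
    rw [Finset.sum_const, card_range, nsmul_eq_mul]
  have hmain : (H * ‖S‖) ^ 2 ≤ (N + H) * (H * (N + 2 * T)) :=
    hCS.trans (mul_le_mul_of_nonneg_left (hWsq.trans htot) (by positivity))
  have : (‖S‖ ^ 2 * H) * H ≤ ((N + H) * (N + 2 * T)) * H := by nlinarith
  exact le_of_mul_le_mul_right this hHpos

end Pool.Agent.Lib.MP_6bc78b_nt
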