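import Mathlib

set_option autoImplicit false

open Complex Set Filter Topology
open Complex.HadamardThreeLines

namespace Pool.Agent.Lib.MP_6bc78b_nt

/-! ### Norms of sine and cosine -/

lemma norm_sin_sq (z : ℂ) :
    ‖Complex.sin z‖ ^ 2 = (Real.cosh (2 * z.im) - Real.cos (2 * z.re)) / 2 := by
  rw [← Complex.normSq_eq_norm_sq, Complex.sin_eq]
  have h1 : Complex.sin (z.re : ℂ) * Complex.cosh (z.im : ℂ) +
      Complex.cos (z.re : ℂ) * Complex.sinh (z.im : ℂ) * I =
      ((Real.sin z.re * Real.cosh z.im : ℝ) : ℂ) + ((Real.cos z.re * Real.sinh z.im : ℝ) : ℂ) * I := by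
    push_cast; ring
  rw [h1, Complex.normSq_add_mul_I, Real.cosh_two_mul, Real.cos_two_mul]
  have h2 := Real.cosh_sq z.im
  have h3 := Real.sin_sq_add_cos_sq z.re
  have h4 : Real.sin z.re ^ 2 = 1 - Real.cos z.re ^ 2 := by linarith
  rw [mul_pow, mul_pow, h2, h4]
  ring

lemma norm_cos_sq (z : ℂ) :
    ‖Complex.cos z‖ ^ 2 = (Real.cosh (2 * z.im) + Real.cos (2 * z.re)) / 2 := by
  rw [← Complex.normSq_eq_norm_sq, Complex.cos_eq]
  have h1 : Complex.cos (z.re : ℂ) * Complex.cosh (z.im : ℂ) -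
      Complex.sin (z.re : ℂ) * Complex.sinh (z.im : ℂ) * I =
      ((Real.cos z.re * Real.cosh z.im : ℝ) : ℂ) +
        ((-(Real.sin z.re * Real.sinh z.im) : ℝ) : ℂ) * I := by
    push_cast; ring
  rw [h1, Complex.normSq_add_mul_I, Real.cosh_two_mul, Real.cos_two_mul]
  have h2 := Real.cosh_sq z.im
  have h3 := Real.sin_sq_add_cos_sq z.re
  have h4 : Real.sin z.re ^ 2 = 1 - Real.cos z.re ^ 2 := by linarith
  rw [neg_sq, mul_pow, mul_pow, h2, h4]
  ring

/-- `(1-q) ≤ exp(-2q) (1+q)` for `0 ≤ q ≤ 1`. -/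
lemma one_sub_le_exp_mul {q : ℝ} (h0 : 0 ≤ q) (h1 : q ≤ 1) :
    1 - q ≤ Real.exp (-(2 * q)) * (1 + q) := by
  rcases eq_or_lt_of_le h1 with rfl | h1
  · simp only [sub_self]; positivity
  have habs : |q| < 1 := by rw [abs_of_nonneg h0]; exact h1
  have hs := Real.hasSum_log_sub_log_of_abs_lt_one habs
  have h2 : 2 * q ≤ Real.log (1 + q) - Real.log (1 - q) := by
    have := le_hasSum hs 0 (fun j _ => by positivity)
    simpa using this
  have h3 : 0 < 1 - q := by linarith
  have h4 : 0 < 1 + q := by linarith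
  have h5 : Real.log (1 - q) ≤ -(2 * q) + Real.log (1 + q) := by linarith
  calc 1 - q = Real.exp (Real.log (1 - q)) := (Real.exp_log h3).symm
    _ ≤ Real.exp (-(2 * q) + Real.log (1 + q)) := Real.exp_le_exp.2 h5
    _ = Real.exp (-(2 * q)) * (1 + q) := by rw [Real.exp_add, Real.exp_log h4]

/-- Pointwise bound for the Blaschke factor `tan` of the strip. -/
lemma norm_sin_le_exp_mul_norm_cos (x y : ℝ) (hc : 0 ≤ Real.cos (2 * x)) :
    ‖Complex.sin (x + y * I)‖ ≤
      Real.exp (-(Real.cos (2 * x) / Real.cosh (2 * y))) * ‖Complex.cos (x + y * I)‖ := by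
  set c := Real.cos (2 * x) with hcdef
  set D := Real.cosh (2 * y) with hD
  have hDpos : 0 < D := Real.cosh_pos _
  have hc1 : c ≤ 1 := Real.cos_le_one _
  have hD1 : 1 ≤ D := Real.one_le_cosh _
  have hq0 : 0 ≤ c / D := by positivity
  have hq1 : c / D ≤ 1 := by rw [div_le_one hDpos]; linarith
  have h1 := one_sub_le_exp_mul hq0 hq1
  have hre : ((x : ℂ) + y * I).re = x := by simp
  have him : ((x : ℂ) + y * I).im = y := by simp
  have hs := norm_sin_sq ((x : ℂ) + y * I)
  have hcs := norm_cos_sq ((x : ℂ) + y * I)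
  rw [hre, him] at hs hcs
  rw [← hcdef, ← hD] at hs hcs
  refine le_of_sq_le_sq ?_ (by positivity)
  rw [mul_pow, hs, hcs, ← Real.exp_nat_mul]
  have e1 : (D - c) / 2 = D / 2 * (1 - c / D) := by field_simp
  have e2 : (D + c) / 2 = D / 2 * (1 + c / D) := by field_simp
  rw [e1, e2]
  have e3 : ((2 : ℕ) : ℝ) * -(c / D) = -(2 * (c / D)) := by push_cast; ring
  rw [e3]
  nlinarith

/-- The entire function `sin(κ z)/z`. -/
noncomputable def sinq (κ : ℝ) (z : ℂ) : ℂ := dslope (fun w : ℂ => Complex.sin (κ * w)) 0 z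

lemma differentiable_sinq (κ : ℝ) : Differentiable ℂ (sinq κ) := by
  have h : Differentiable ℂ (fun w : ℂ => Complex.sin (κ * w)) := by fun_prop
  rw [← differentiableOn_univ]
  exact (Complex.differentiableOn_dslope univ_mem).2 h.differentiableOn

lemma mul_sinq (κ : ℝ) (z : ℂ) : z * sinq κ z = Complex.sin (κ * z) := by
  have := sub_smul_dslope (fun w : ℂ => Complex.sin (κ * w)) 0 z
  simpa [sinq] using this

lemma sinq_ne_zero {κ : ℝ} (hκ : 0 < κ) {z : ℂ} (hz : κ * |z.re| < Real.pi) : sinq κ z ≠ 0 := by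
  rcases eq_or_ne z 0 with rfl | hz0
  · have h : HasDerivAt (fun w : ℂ => Complex.sin (κ * w)) (Complex.cos (κ * 0) * (κ * 1)) 0 :=
      (Complex.hasDerivAt_sin _).comp _ ((hasDerivAt_id _).const_mul _)
    rw [sinq, dslope_same, h.deriv]
    simp [hκ.ne']
  · intro h0
    have h := mul_sinq κ z
    rw [h0, mul_zero] at h
    obtain ⟨k, hk⟩ := Complex.sin_eq_zero_iff.1 h.symm
    have him := congrArg Complex.im hk
    have hre := congrArg Complex.re hk
    have e1 : ((κ : ℂ) * z).im = κ * z.im := by simp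
    have e2 : ((κ : ℂ) * z).re = κ * z.re := by simp
    have e3 : ((k : ℂ) * Real.pi).re = k * Real.pi := by simp
    have e4 : ((k : ℂ) * Real.pi).im = 0 := by simp
    rw [e1, e4] at him
    rw [e2, e3] at hre
    have him0 : z.im = 0 := by
      rcases mul_eq_zero.1 him with h | h
      · exact absurd h hκ.ne'
      · exact h
    have habs : |(k : ℝ)| * Real.pi < Real.pi := by
      have : |(k : ℝ) * Real.pi| < Real.pi := by
        rw [← hre, abs_mul, abs_of_pos hκ]; exact hz
      rwa [abs_mul, abs_of_pos Real.pi_pos] at this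
    have hk0 : k = 0 := by
      have h1 : |(k : ℝ)| < 1 := by
        by_contra hcon
        push Not at hcon
        nlinarith [Real.pi_pos]
      have h2 : |k| < 1 := by exact_mod_cast h1
      exact Int.abs_lt_one_iff.1 h2
    rw [hk0] at hre
    have hre0 : z.re = 0 := by
      simp at hre
      rcases hre with h | h
      · exact absurd h hκ.ne'
      · exact h
    exact hz0 (Complex.ext hre0 him0)

/-! ### Dividing out zeros -/

lemma exists_eq_sub_pow_mul {F : ℂ → ℂ} (hF : Differentiable ℂ F) (w : ℂ) (n : ℕ)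
    (hn : (n : ℕ∞) ≤ analyticOrderAt F w) :
    ∃ h : ℂ → ℂ, Differentiable ℂ h ∧ ∀ z, F z = (z - w) ^ n * h z := by
  induction n with
  | zero => exact ⟨F, hF, by simp⟩
  | succ n ih =>
    obtain ⟨h, hh, hFh⟩ := ih (le_trans (by exact_mod_cast Nat.le_succ n) hn)
    have hw : h w = 0 := by
      by_contra hne
      have hFeq : F = fun z => (z - w) ^ n * h z := funext hFh
      have h1 : analyticOrderAt F w = n := by
        rw [(hF.analyticAt w).analyticOrderAt_eq_natCast]
        exact ⟨h, hh.analyticAt w, hne, Eventually.of_forall fun z => by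
          rw [hFh z, smul_eq_mul]⟩
      rw [h1] at hn
      have : n + 1 ≤ n := by exact_mod_cast hn
      omega
    refine ⟨dslope h w, ?_, ?_⟩
    · rw [← differentiableOn_univ]
      exact (Complex.differentiableOn_dslope univ_mem).2 hh.differentiableOn
    · intro z
      have := sub_smul_dslope h w z
      rw [hw, sub_zero, smul_eq_mul] at this
      rw [hFh z, ← this]
      ring

lemma exists_eq_prod_mul {F : ℂ → ℂ} (hF : Differentiable ℂ F) (S : Finset ℂ) (m : ℂ → ℕ)
    (hm : ∀ w ∈ S, (m w : ℕ∞) ≤ analyticOrderAt F w) :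
    ∃ h : ℂ → ℂ, Differentiable ℂ h ∧ ∀ z, F z = (∏ w ∈ S, (z - w) ^ m w) * h z := by
  classical
  induction S using Finset.induction_on with
  | empty => exact ⟨F, hF, by simp⟩
  | insert w S hwS ih =>
    obtain ⟨h, hh, hFh⟩ := ih (fun w' hw' => hm w' (Finset.mem_insert_of_mem hw'))
    have hord : analyticOrderAt F w = analyticOrderAt h w := by
      have hFeq : F = (fun z => ∏ w ∈ S, (z - w) ^ m w) * h := by
        ext z; rw [Pi.mul_apply]; exact hFh z
      have hP : Differentiable ℂ (fun z : ℂ => ∏ w ∈ S, (z - w) ^ m w) := by fun_prop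
      rw [hFeq, analyticOrderAt_mul (hP.analyticAt w) (hh.analyticAt w)]
      have : analyticOrderAt (fun z : ℂ => ∏ w ∈ S, (z - w) ^ m w) w = 0 := by
        rw [(hP.analyticAt w).analyticOrderAt_eq_zero]
        apply Finset.prod_ne_zero_iff.2
        intro w' hw'
        apply pow_ne_zero
        rw [sub_ne_zero]
        rintro rfl
        exact hwS hw'
      rw [this, zero_add]
    have h1 := hm w (Finset.mem_insert_self _ _)
    rw [hord] at h1
    obtain ⟨h', hh', hFh'⟩ := exists_eq_sub_pow_mul hh w (m w) h1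
    refine ⟨h', hh', fun z => ?_⟩
    rw [hFh z, hFh' z, Finset.prod_insert hwS]
    ring

end Pool.Agent.Lib.MP_6bc78b_nt
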