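import Mathlib
import Pool.Agent.Lib.MP_6bc78b_nt.WeylDiff

set_option autoImplicit false

open Finset

namespace Pool.Agent.Lib.MP_6bc78b_nt

/-- `Λ(n) = 2 log(n+1) - log n - log(n+2)`. -/
noncomputable def Lam (n : ℕ) : ℝ := 2 * Real.log (n + 1) - Real.log n - Real.log (n + 2)

lemma Lam_eq {n : ℕ} (hn : 1 ≤ n) : Lam n = -Real.log (1 - 1 / ((n : ℝ) + 1) ^ 2) := by
  have hn0 : (0:ℝ) < n := by exact_mod_cast hn
  have h1 : 1 - 1 / ((n : ℝ) + 1) ^ 2 = (n * (n + 2)) / ((n:ℝ) + 1) ^ 2 := by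
    field_simp; ring
  rw [Lam, h1, Real.log_div (by positivity) (by positivity), Real.log_mul (by positivity)
    (by positivity), Real.log_pow]
  push_cast; ring

lemma Lam_bounds {n : ℕ} (hn : 1 ≤ n) :
    1 / ((n : ℝ) + 1) ^ 2 ≤ Lam n ∧ Lam n ≤ 1 / ((n : ℝ) * (n + 2)) := by
  have hn0 : (0:ℝ) < n := by exact_mod_cast hn
  have h1 : Lam n = Real.log (1 + 1 / ((n : ℝ) * (n + 2))) := by
    have h2 : 1 + 1 / ((n : ℝ) * (n + 2)) = ((n:ℝ) + 1) ^ 2 / (n * (n + 2)) := by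
      field_simp; ring
    rw [Lam, h2, Real.log_div (by positivity) (by positivity), Real.log_mul (by positivity)
      (by positivity), Real.log_pow]
    push_cast; ring
  constructor
  · rw [Lam_eq hn]
    have := Real.log_le_sub_one_of_pos (x := 1 - 1 / ((n : ℝ) + 1) ^ 2) (by
      have : 1 / ((n : ℝ) + 1) ^ 2 < 1 := by
        rw [div_lt_one (by positivity)]; nlinarith
      linarith)
    linarith
  · rw [h1]
    have := Real.log_le_sub_one_of_pos (x := 1 + 1 / ((n : ℝ) * (n + 2))) (by positivity)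
    linarith

lemma Lam_sub_bounds {n h M : ℕ} (hM : 2 ≤ M) (hnM : M ≤ n) (hn2 : n + h + 1 ≤ 2 * M) :
    (h : ℝ) / (4 * (M:ℝ) ^ 3) ≤ Lam n - Lam (n + h) ∧
      Lam n - Lam (n + h) ≤ 4 * h / (M:ℝ) ^ 3 := by
  have hM0 : (2:ℝ) ≤ M := by exact_mod_cast hM
  have hnM' : (M:ℝ) ≤ n := by exact_mod_cast hnM
  have hn2' : (n:ℝ) + h + 1 ≤ 2 * M := by exact_mod_cast hn2
  have hh0 : (0:ℝ) ≤ h := Nat.cast_nonneg h
  set A : ℝ := (n:ℝ) + 1 with hA
  set B : ℝ := (n:ℝ) + h + 1 with hB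
  have hA3 : 3 ≤ A := by rw [hA]; linarith
  have hAB : A ≤ B := by rw [hA, hB]; linarith
  have hBA : B = A + h := by rw [hA, hB]; ring
  have hApos : 0 < A := by linarith
  have hBpos : 0 < B := by linarith
  set u := 1 / A ^ 2 with hu
  set v := 1 / B ^ 2 with hv
  have hu0 : 0 < u := by positivity
  have hv0 : 0 < v := by positivity
  have hu1 : u ≤ 1 / 9 := by
    rw [hu]; apply div_le_div_of_nonneg_left (by norm_num) (by norm_num); nlinarith
  have hvu : v ≤ u := by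
    rw [hu, hv]; apply div_le_div_of_nonneg_left (by norm_num) (by positivity); gcongr
  have e1 : Lam n = -Real.log (1 - u) := by rw [Lam_eq (by omega)]
  have e2 : Lam (n + h) = -Real.log (1 - v) := by
    rw [Lam_eq (by omega)]; push_cast; rfl
  have huv : u - v = h * (A + B) / (A ^ 2 * B ^ 2) := by
    rw [hu, hv]; field_simp; rw [hBA]; ring
  have hlow : u - v ≤ Lam n - Lam (n + h) := by
    -- log((1-v)/(1-u)) ≥ 1 - (1-u)/(1-v) ≥ u - v
    rw [e1, e2]
    have h3 : Real.log ((1 - u) / (1 - v)) ≤ (1 - u) / (1 - v) - 1 :=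
      Real.log_le_sub_one_of_pos (div_pos (by linarith) (by linarith))
    rw [Real.log_div (by linarith) (by linarith)] at h3
    have h4 : (1 - u) / (1 - v) - 1 ≤ -(u - v) := by
      rw [div_sub_one (by linarith), div_le_iff₀ (by linarith)]
      nlinarith
    linarith
  have hupp : Lam n - Lam (n + h) ≤ 2 * (u - v) := by
    rw [e1, e2]
    have h3 : Real.log ((1 - v) / (1 - u)) ≤ (1 - v) / (1 - u) - 1 :=
      Real.log_le_sub_one_of_pos (div_pos (by linarith) (by linarith))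
    rw [Real.log_div (by linarith) (by linarith)] at h3
    have h4 : (1 - v) / (1 - u) - 1 ≤ 2 * (u - v) := by
      rw [div_sub_one (by linarith), div_le_iff₀ (by linarith)]
      nlinarith
    linarith
  have hMpos : (0:ℝ) < M := by linarith
  have hA2M : A ≤ 2 * M := by linarith
  have hB2M : B ≤ 2 * M := by rw [hB]; exact hn2'
  have hAM : (M:ℝ) ≤ A := by rw [hA]; linarith
  have hBM : (M:ℝ) ≤ B := by linarith
  constructor
  · refine le_trans ?_ hlow
    rw [huv, div_le_div_iff₀ (by positivity) (by positivity)]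
    have k1 : A ^ 2 * B ^ 2 ≤ (A + B) * (4 * (M:ℝ) ^ 3) := by
      have k2 : A * B ^ 2 ≤ 8 * (M:ℝ) ^ 3 := by
        calc A * B ^ 2 ≤ (2 * M) * (2 * M) ^ 2 := by gcongr
          _ = 8 * (M:ℝ) ^ 3 := by ring
      have k3 : 2 * A ≤ A + B := by linarith
      calc A ^ 2 * B ^ 2 = A * (A * B ^ 2) := by ring
        _ ≤ A * (8 * (M:ℝ) ^ 3) := by gcongr
        _ = (2 * A) * (4 * (M:ℝ) ^ 3) := by ring
        _ ≤ (A + B) * (4 * (M:ℝ) ^ 3) := by gcongr
    calc (h:ℝ) * (A ^ 2 * B ^ 2) ≤ h * ((A + B) * (4 * (M:ℝ) ^ 3)) := by gcongr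
      _ = h * (A + B) * (4 * (M:ℝ) ^ 3) := by ring
  · refine hupp.trans ?_
    rw [huv, mul_div_assoc', div_le_div_iff₀ (by positivity) (by positivity)]
    have k1 : (A + B) * (M:ℝ) ^ 3 ≤ 2 * (A ^ 2 * B ^ 2) := by
      have k2 : (M:ℝ) ^ 3 ≤ A ^ 2 * B := by
        calc (M:ℝ) ^ 3 = (M:ℝ) ^ 2 * M := by ring
          _ ≤ A ^ 2 * B := by gcongr
      have k3 : A + B ≤ 2 * B := by linarith
      calc (A + B) * (M:ℝ) ^ 3 ≤ (2 * B) * (A ^ 2 * B) := by gcongr
        _ = 2 * (A ^ 2 * B ^ 2) := by ring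
    calc 2 * (h * (A + B)) * (M:ℝ) ^ 3 = 2 * h * ((A + B) * (M:ℝ) ^ 3) := by ring
      _ ≤ 2 * h * (2 * (A ^ 2 * B ^ 2)) := by gcongr
      _ = 4 * h * (A ^ 2 * B ^ 2) := by ring

/-- The phase `-t log n`. -/
noncomputable def ph (t : ℝ) (n : ℕ) : ℝ := -(t * Real.log n)

lemma ph_second (t : ℝ) (n : ℕ) :
    (ph t (n + 2) - ph t (n + 1)) - (ph t (n + 1) - ph t n) = t * Lam n := by
  simp only [ph, Lam]; push_cast; ring

lemma norm_sum_ei_neg (f : ℕ → ℝ) (s : Finset ℕ) :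
    ‖∑ n ∈ s, ei (f n)‖ = ‖∑ n ∈ s, ei (-(f n))‖ := by
  rw [← Complex.norm_conj, map_sum]
  congr 1
  exact Finset.sum_congr rfl fun n _ => conj_ei _

lemma norm_sum_ei_le (f : ℕ → ℝ) (a b : ℕ) (hab : a ≤ b) :
    ‖∑ n ∈ Ico a b, ei (f n)‖ ≤ (b:ℝ) - a := by
  refine (norm_sum_le _ _).trans ?_
  simp [norm_ei, Nat.cast_sub hab]

/-- Range (a): `M ≥ t`. -/
lemma block_a {t : ℝ} (ht : 0 < t) {M b : ℕ} (hM : t ≤ M) (hb : b ≤ 2 * M) :
    ‖∑ n ∈ Ico M b, ei (ph t n)‖ ≤ 4 * Real.pi * M / t := by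
  have hM0 : (0:ℝ) < M := by linarith
  have hMnat : 1 ≤ M := by exact_mod_cast hM0
  have hδ : ∀ n ∈ Ico M b, -1 ≤ ph t (n + 1) - ph t n ∧
      ph t (n + 1) - ph t n ≤ -(t / (2 * M)) := by
    intro n hn
    rw [mem_Ico] at hn
    have hnM : (M:ℝ) ≤ n := by exact_mod_cast hn.1
    have hn0 : (0:ℝ) < n := by linarith
    have hn2 : (n:ℝ) + 1 ≤ 2 * M := by
      have : n + 1 ≤ 2 * M := by omega
      exact_mod_cast this
    have e : ph t (n + 1) - ph t n = -(t * Real.log (((n:ℝ) + 1) / n)) := by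
      rw [Real.log_div (by positivity) (by positivity)]
      simp only [ph]; push_cast; ring
    have h1 : Real.log (((n:ℝ) + 1) / n) ≤ 1 / n := by
      refine (Real.log_le_sub_one_of_pos (by positivity)).trans (le_of_eq ?_)
      field_simp; ring
    have h2 : 1 / ((n:ℝ) + 1) ≤ Real.log (((n:ℝ) + 1) / n) := by
      have := Real.log_le_sub_one_of_pos (x := (n:ℝ) / (n + 1)) (by positivity)
      rw [Real.log_div (by positivity) (by positivity)] at this
      rw [Real.log_div (by positivity) (by positivity)]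
      have h3 : (n:ℝ) / (n + 1) - 1 = -(1 / (n + 1)) := by field_simp; ring
      linarith
    rw [e]
    constructor
    · have : t * Real.log (((n:ℝ) + 1) / n) ≤ t * (1 / n) := by gcongr
      have h4 : t * (1 / (n:ℝ)) ≤ 1 := by
        rw [mul_one_div, div_le_one hn0]; linarith
      linarith
    · have h5 : t / (2 * M) ≤ t * Real.log (((n:ℝ) + 1) / n) := by
        calc t / (2 * M) = t * (1 / (2 * M)) := by ring
          _ ≤ t * (1 / ((n:ℝ) + 1)) := by gcongr
          _ ≤ _ := by gcongr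
      linarith
  have hlam : t / (2 * M) ≤ 1 / 2 := by
    rw [div_le_iff₀ (by positivity)]; linarith
  have := kusmin_landau (ph t) M b (t / (2 * M)) (by positivity)
    (by linarith [Real.pi_gt_three]) (-1)
    (fun n hn => by
      have := (hδ n hn).1
      push_cast
      linarith [Real.pi_gt_three])
    (fun n hn => by
      have := (hδ n hn).2
      push_cast
      linarith)
    (fun n h1 h2 => by
      have h3 := ph_second t n
      have h4 := (Lam_bounds (n := n) (by omega)).1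
      have h5 : 0 ≤ t * Lam n := mul_nonneg ht.le (le_trans (by positivity) h4)
      linarith)
  refine this.trans (le_of_eq ?_)
  field_simp
  ring

/-- Range (b), second derivative test. -/
lemma block_b {t : ℝ} (ht : 0 < t) {M b : ℕ} (hM1 : 1 ≤ M) (hM : t ≤ (M:ℝ) ^ 2) (hb : b ≤ 2 * M) :
    ‖∑ n ∈ Ico M b, ei (ph t n)‖ ≤ 4 * Real.sqrt t + 48 * M / Real.sqrt t := by
  have hM0 : (0:ℝ) < M := by exact_mod_cast hM1
  have hst : 0 < Real.sqrt t := Real.sqrt_pos.2 ht
  rcases le_or_gt b M with hbM | hbM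
  · rw [Finset.Ico_eq_empty (by omega)]
    simp; positivity
  set μ := t / (4 * (M:ℝ) ^ 2) with hμ
  have hμ0 : 0 < μ := by positivity
  have hμ1 : μ ≤ 1 := by
    rw [hμ, div_le_one (by positivity)]; nlinarith
  have key := vdc2 (ph t) M b hbM μ 4 hμ0 hμ1 (by norm_num)
    (fun n h1 h2 => by
      rw [ph_second]
      have hn : (n:ℝ) + 1 ≤ 2 * M := by
        have : n + 1 ≤ 2 * M := by omega
        exact_mod_cast this
      have h3 := (Lam_bounds (n := n) (by omega)).1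
      have h4 : 1 / (4 * (M:ℝ) ^ 2) ≤ 1 / ((n : ℝ) + 1) ^ 2 := by
        apply div_le_div_of_nonneg_left (by norm_num) (by positivity)
        calc ((n : ℝ) + 1) ^ 2 ≤ (2 * M) ^ 2 := by gcongr
          _ = 4 * (M:ℝ) ^ 2 := by ring
      calc μ = t * (1 / (4 * (M:ℝ) ^ 2)) := by rw [hμ]; ring
        _ ≤ t * Lam n := by gcongr; exact h4.trans h3)
    (fun n h1 h2 => by
      rw [ph_second]
      have hn : (M:ℝ) ≤ n := by exact_mod_cast h1
      have h3 := (Lam_bounds (n := n) (by omega)).2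
      have h4 : 1 / ((n:ℝ) * (n + 2)) ≤ 1 / (M:ℝ) ^ 2 := by
        apply div_le_div_of_nonneg_left (by norm_num) (by positivity)
        nlinarith
      calc t * Lam n ≤ t * (1 / (M:ℝ) ^ 2) := by gcongr; exact h3.trans h4
        _ = 4 * μ := by rw [hμ]; field_simp)
  refine key.trans ?_
  have hsμ : Real.sqrt μ = Real.sqrt t / (2 * M) := by
    rw [hμ, Real.sqrt_div ht.le, show (4 * (M:ℝ) ^ 2) = (2 * M) ^ 2 by ring,
      Real.sqrt_sq (by positivity)]
  rw [hsμ]
  have hN : (b:ℝ) - M ≤ M := by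
    have : (b:ℝ) ≤ 2 * M := by exact_mod_cast hb
    linarith
  have hts : t = Real.sqrt t * Real.sqrt t := (Real.mul_self_sqrt ht.le).symm
  have h5 : 4 * μ * ((b:ℝ) - M) / 6 ≤ 4 * μ * M / 6 := by gcongr
  calc (4 * μ * ((b:ℝ) - M) / 6 + 2) * (12 / (Real.sqrt t / (2 * M)))
      ≤ (4 * μ * M / 6 + 2) * (12 / (Real.sqrt t / (2 * M))) := by gcongr
    _ = 4 * (t / Real.sqrt t) + 48 * M / Real.sqrt t := by
        rw [hμ]; field_simp; ring
    _ = 4 * Real.sqrt t + 48 * M / Real.sqrt t := by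
        congr 2
        rw [div_eq_iff hst.ne']; exact hts

lemma sum_inv_sqrt_le' (H : ℕ) : ∑ h ∈ Ico 1 (H + 1), 1 / Real.sqrt h ≤ 2 * Real.sqrt H := by
  induction H with
  | zero => simp
  | succ H ih =>
    rw [Finset.sum_Ico_succ_top (by omega)]
    have hH0 : (0:ℝ) ≤ H := Nat.cast_nonneg H
    set a := Real.sqrt H with ha
    set b := Real.sqrt ((H + 1 : ℕ) : ℝ) with hb
    have ha0 : 0 ≤ a := Real.sqrt_nonneg _
    have hb0 : 0 < b := Real.sqrt_pos.2 (by positivity)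
    have ha2 : a * a = H := Real.mul_self_sqrt hH0
    have hb2 : b * b = H + 1 := by
      rw [hb, Real.mul_self_sqrt (by positivity)]; push_cast; ring
    have hab : a ≤ b := Real.sqrt_le_sqrt (by push_cast; linarith)
    have h1 : 1 / b ≤ 2 * (b - a) := by
      rw [div_le_iff₀ hb0]
      nlinarith
    linarith

lemma sum_inv_sqrt_le (H : ℕ) (hH : 1 ≤ H) :
    ∑ h ∈ Ico 1 H, 1 / Real.sqrt h ≤ 2 * Real.sqrt H := by
  obtain ⟨k, rfl⟩ : ∃ k, H = k + 1 := ⟨H - 1, by omega⟩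
  refine (sum_inv_sqrt_le' k).trans ?_
  gcongr
  omega

/-- Range (c): Weyl differencing and the second derivative test. -/
lemma block_c {τ : ℝ} (hτ : 2 ≤ τ) {M b : ℕ} (hM1 : τ ≤ M) (hM2 : (M:ℝ) ≤ τ ^ 2)
    (hMb : M ≤ b) (hb : b ≤ 2 * M) :
    ‖∑ n ∈ Ico M b, ei (ph (τ ^ 3) n)‖ ≤ 28 * (Real.sqrt M * Real.sqrt τ) := by
  set t := τ ^ 3 with ht
  have hτ0 : 0 < τ := by linarith
  have ht0 : 0 < t := by positivity
  have hM0 : (0:ℝ) < M := by linarith
  have hM2' : 2 ≤ M := by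
    have : (2:ℝ) ≤ M := by linarith
    exact_mod_cast this
  set H := ⌈(M:ℝ) / τ⌉₊ with hH
  have hMτ : 1 ≤ (M:ℝ) / τ := by rw [le_div_iff₀ hτ0]; linarith
  have hH1 : (M:ℝ) / τ ≤ H := Nat.le_ceil _
  have hH2 : (H:ℝ) < M / τ + 1 := Nat.ceil_lt_add_one (by positivity)
  have hH3 : (H:ℝ) ≤ 2 * (M / τ) := by linarith
  have hH0 : 1 ≤ H := by
    have : (1:ℝ) ≤ H := by linarith
    exact_mod_cast this
  have hHpos : (0:ℝ) < H := by exact_mod_cast hH0
  have hHM : H ≤ M := by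
    have h1 : (M:ℝ) / τ ≤ M / 2 := by gcongr
    have h2 : (2:ℝ) ≤ M := by linarith
    have : (H:ℝ) < M + 1 := by linarith
    have : (H:ℝ) < ((M + 1 : ℕ) : ℝ) := by push_cast; exact this
    have : H < M + 1 := by exact_mod_cast this
    omega
  have hsM : 0 < Real.sqrt M := Real.sqrt_pos.2 hM0
  have hsM2 : Real.sqrt M * Real.sqrt M = M := Real.mul_self_sqrt hM0.le
  have hst : 0 < Real.sqrt t := Real.sqrt_pos.2 ht0
  have hst2 : Real.sqrt t * Real.sqrt t = t := Real.mul_self_sqrt ht0.le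
  -- bound of the correlations
  set B : ℕ → ℝ := fun h => 16 * (Real.sqrt t * Real.sqrt H / Real.sqrt M) +
    48 * (M * Real.sqrt M / Real.sqrt t) * (1 / Real.sqrt h) with hB
  have hBbound : ∀ h, 1 ≤ h → h < H →
      ‖∑ n ∈ Ico M (b - h), ei (ph t (n + h) - ph t n)‖ ≤ B h := by
    intro h h1 h2
    have hh0 : (0:ℝ) < h := by exact_mod_cast h1
    have hsh : 0 < Real.sqrt h := Real.sqrt_pos.2 hh0
    have hsH : 0 < Real.sqrt H := Real.sqrt_pos.2 hHpos
    have hBpos : 0 ≤ B h := by simp only [hB]; positivity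
    rcases le_or_gt (b - h) M with hbM | hbM
    · rw [Finset.Ico_eq_empty (by omega)]
      simpa using hBpos
    rw [norm_sum_ei_neg]
    set μ := t * h / (4 * (M:ℝ) ^ 3) with hμ
    have hμ0 : 0 < μ := by positivity
    have hhH : (h:ℝ) ≤ H := by exact_mod_cast h2.le
    have hμ1 : μ ≤ 1 := by
      rw [hμ, div_le_one (by positivity), ht]
      have h3 : τ * h ≤ 2 * M := by
        calc τ * h ≤ τ * (2 * (M / τ)) := by gcongr; linarith
          _ = 2 * M := by field_simp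
      have h4 : τ ^ 2 ≤ (M:ℝ) ^ 2 := by gcongr
      calc τ ^ 3 * h = τ ^ 2 * (τ * h) := by ring
        _ ≤ (M:ℝ) ^ 2 * (2 * M) := by gcongr
        _ ≤ 4 * (M:ℝ) ^ 3 := by nlinarith [pow_pos hM0 3]
    have hsecond : ∀ n, (-(ph t (n + 2 + h) - ph t (n + 2)) - -(ph t (n + 1 + h) - ph t (n + 1))) -
        (-(ph t (n + 1 + h) - ph t (n + 1)) - -(ph t (n + h) - ph t n)) =
        t * (Lam n - Lam (n + h)) := by
      intro n
      have e1 := ph_second t n
      have e2 := ph_second t (n + h)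
      rw [show n + h + 2 = n + 2 + h by ring, show n + h + 1 = n + 1 + h by ring] at e2
      linarith
    have key := vdc2 (fun n => -(ph t (n + h) - ph t n)) M (b - h) hbM μ 16 hμ0 hμ1 (by norm_num)
      (fun n k1 k2 => by
        rw [hsecond]
        have := (Lam_sub_bounds (n := n) (h := h) (M := M) hM2' k1 (by omega)).1
        calc μ = t * ((h:ℝ) / (4 * (M:ℝ) ^ 3)) := by rw [hμ]; ring
          _ ≤ _ := by gcongr)
      (fun n k1 k2 => by
        rw [hsecond]
        have := (Lam_sub_bounds (n := n) (h := h) (M := M) hM2' k1 (by omega)).2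
        calc t * (Lam n - Lam (n + h)) ≤ t * (4 * h / (M:ℝ) ^ 3) := by gcongr
          _ = 16 * μ := by rw [hμ]; field_simp; ring)
    refine key.trans ?_
    have hN : ((b - h : ℕ) : ℝ) - M ≤ M := by
      have : ((b - h : ℕ) : ℝ) ≤ ((2 * M : ℕ) : ℝ) := by exact_mod_cast (by omega : b - h ≤ 2 * M)
      push_cast at this
      linarith
    have hsμ : Real.sqrt μ = Real.sqrt t * Real.sqrt h / (2 * (M * Real.sqrt M)) := by
      rw [hμ, Real.sqrt_div (by positivity), Real.sqrt_mul ht0.le,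
        show (4 * (M:ℝ) ^ 3) = (2 * M) ^ 2 * M by ring, Real.sqrt_mul (by positivity),
        Real.sqrt_sq (by positivity)]
      ring_nf
    have hsμ0 : 0 < Real.sqrt μ := Real.sqrt_pos.2 hμ0
    have h5 : 16 * μ * (((b - h : ℕ) : ℝ) - M) / 6 ≤ 16 * μ * M / 6 := by gcongr
    have hsμ2 : μ / Real.sqrt μ = Real.sqrt μ := by
      rw [div_eq_iff hsμ0.ne']; exact (Real.mul_self_sqrt hμ0.le).symm
    calc (16 * μ * (((b - h : ℕ) : ℝ) - M) / 6 + 2) * (12 / Real.sqrt μ)
        ≤ (16 * μ * M / 6 + 2) * (12 / Real.sqrt μ) := by gcongr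
      _ = 32 * M * (μ / Real.sqrt μ) + 24 / Real.sqrt μ := by ring
      _ = 32 * M * Real.sqrt μ + 24 / Real.sqrt μ := by rw [hsμ2]
      _ = 16 * (Real.sqrt t * Real.sqrt h / Real.sqrt M) +
          48 * (M * Real.sqrt M / Real.sqrt t) * (1 / Real.sqrt h) := by
          rw [hsμ]; field_simp; ring
      _ ≤ B h := by
          simp only [hB]
          gcongr
  have hW := weyl_vdc (ph t) M b H hH0 hHM hMb B hBbound
  -- sum of B
  have hT : ∑ h ∈ Ico 1 H, B h ≤ 182 * M := by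
    simp only [hB]
    rw [Finset.sum_add_distrib, Finset.sum_const, ← Finset.mul_sum, nsmul_eq_mul, Nat.card_Ico]
    have h1 : ((H - 1 : ℕ) : ℝ) ≤ H := by exact_mod_cast Nat.sub_le _ _
    have h2 := sum_inv_sqrt_le H hH0
    have hsH : 0 < Real.sqrt H := Real.sqrt_pos.2 hHpos
    -- key quantities: X = sqrt t * sqrt H / sqrt M ≤ sqrt 2 * τ
    have hX : Real.sqrt t * Real.sqrt H / Real.sqrt M ≤ 1.42 * τ := by
      rw [div_le_iff₀ hsM]
      refine Real.le_sqrt_of_sq_le ?_ |>.trans (le_of_eq (Real.sqrt_sq (by positivity)))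
      have e : (Real.sqrt t * Real.sqrt H) ^ 2 = t * H := by
        rw [mul_pow, Real.sq_sqrt ht0.le, Real.sq_sqrt hHpos.le]
      have e2 : (1.42 * τ * Real.sqrt M) ^ 2 = 1.42 ^ 2 * τ ^ 2 * M := by
        rw [mul_pow, mul_pow, Real.sq_sqrt hM0.le]
      rw [e, e2, ht]
      calc τ ^ 3 * H ≤ τ ^ 3 * (2 * (M / τ)) := by gcongr
        _ = 2 * τ ^ 2 * M := by field_simp
        _ ≤ 1.42 ^ 2 * τ ^ 2 * M := by
          have : 0 < τ ^ 2 * M := by positivity
          nlinarith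
    have hY : (M * Real.sqrt M / Real.sqrt t) * Real.sqrt H ≤ 1.42 * M := by
      have e3 : (M * Real.sqrt M / Real.sqrt t) * Real.sqrt H =
          M * (Real.sqrt M * Real.sqrt H / Real.sqrt t) := by ring
      rw [e3]
      have : Real.sqrt M * Real.sqrt H / Real.sqrt t ≤ 1.42 := by
        rw [div_le_iff₀ hst]
        refine Real.le_sqrt_of_sq_le ?_ |>.trans (le_of_eq (Real.sqrt_sq (by positivity)))
        have e : (Real.sqrt M * Real.sqrt H) ^ 2 = M * H := by
          rw [mul_pow, Real.sq_sqrt hM0.le, Real.sq_sqrt hHpos.le]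
        have e2 : (1.42 * Real.sqrt t) ^ 2 = 1.42 ^ 2 * t := by
          rw [mul_pow, Real.sq_sqrt ht0.le]
        rw [e, e2, ht]
        calc (M:ℝ) * H ≤ M * (2 * (M / τ)) := by gcongr
          _ = 2 * (M * M) / τ := by ring
          _ ≤ 2 * (τ ^ 2 * τ ^ 2) / τ := by gcongr
          _ = 2 * τ ^ 3 := by field_simp
          _ ≤ 1.42 ^ 2 * τ ^ 3 := by
            have : 0 < τ ^ 3 := by positivity
            nlinarith
      nlinarith
    have hHτ : (H:ℝ) * τ ≤ 2 * M := by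
      calc (H:ℝ) * τ ≤ 2 * (M / τ) * τ := by gcongr
        _ = 2 * M := by field_simp
    have p1 : ((H - 1 : ℕ) : ℝ) * (16 * (Real.sqrt t * Real.sqrt H / Real.sqrt M)) ≤ 45.44 * M := by
      calc ((H - 1 : ℕ) : ℝ) * (16 * (Real.sqrt t * Real.sqrt H / Real.sqrt M))
          ≤ H * (16 * (1.42 * τ)) := by gcongr
        _ = 22.72 * (H * τ) := by ring
        _ ≤ 22.72 * (2 * M) := by gcongr
        _ = 45.44 * M := by ring
    have p2 : 48 * (M * Real.sqrt M / Real.sqrt t) * ∑ h ∈ Ico 1 H, 1 / Real.sqrt h ≤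
        136.32 * M := by
      calc 48 * (M * Real.sqrt M / Real.sqrt t) * ∑ h ∈ Ico 1 H, 1 / Real.sqrt h
          ≤ 48 * (M * Real.sqrt M / Real.sqrt t) * (2 * Real.sqrt H) := by gcongr
        _ = 96 * ((M * Real.sqrt M / Real.sqrt t) * Real.sqrt H) := by ring
        _ ≤ 96 * (1.42 * M) := by gcongr
        _ = 136.32 * M := by ring
    linarith
  have hN : (b:ℝ) - M ≤ M := by
    have : (b:ℝ) ≤ 2 * M := by exact_mod_cast hb
    linarith
  have hN0 : 0 ≤ (b:ℝ) - M := by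
    have : (M:ℝ) ≤ b := by exact_mod_cast hMb
    linarith
  have hHM' : (H:ℝ) ≤ M := by exact_mod_cast hHM
  set Sn := ‖∑ n ∈ Ico M b, ei (ph t n)‖ with hSn
  have hT0 : 0 ≤ ∑ h ∈ Ico 1 H, B h := by
    apply Finset.sum_nonneg
    intro h hh
    rw [mem_Ico] at hh
    exact (norm_nonneg _).trans (hBbound h hh.1 hh.2)
  have hfin : Sn ^ 2 * H ≤ (2 * M) * (365 * M) := by
    refine hW.trans ?_
    apply mul_le_mul
    · linarith
    · linarith
    · positivity
    · positivity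
  have hfin2 : Sn ^ 2 ≤ 730 * (M * τ) := by
    have h1 : Sn ^ 2 * (M / τ) ≤ 730 * (M * M) := by
      calc Sn ^ 2 * (M / τ) ≤ Sn ^ 2 * H := by gcongr
        _ ≤ _ := hfin
        _ = 730 * (M * M) := by ring
    have h2 : Sn ^ 2 * M ≤ 730 * (M * τ) * M := by
      calc Sn ^ 2 * M = (Sn ^ 2 * (M / τ)) * τ := by field_simp
        _ ≤ 730 * (M * M) * τ := by gcongr
        _ = 730 * (M * τ) * M := by ring
    exact le_of_mul_le_mul_right h2 hM0
  refine le_of_sq_le_sq ?_ (by positivity)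
  rw [mul_pow, mul_pow, Real.sq_sqrt hM0.le, Real.sq_sqrt hτ0.le]
  have : 0 < (M:ℝ) * τ := by positivity
  nlinarith

end Pool.Agent.Lib.MP_6bc78b_nt
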