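import Mathlib

set_option autoImplicit false

open Complex Set Filter Topology MeasureTheory

namespace Pool.Agent.Lib.MP_6bc78b_nt

/-- `completedRiemannZeta₀` is bounded in vertical strips. -/
lemma exists_norm_completedRiemannZeta₀_le (a b : ℝ) :
    ∃ C : ℝ, 0 ≤ C ∧ ∀ s : ℂ, a ≤ s.re → s.re ≤ b → ‖completedRiemannZeta₀ s‖ ≤ C := by
  set P := HurwitzZeta.hurwitzEvenFEPair 0 with hP
  have hstrong : IsStrongFEPair P.toStrongFEPair := P.isStrongFEPair_toStrongFEPair
  have hconv : ∀ s : ℂ, MellinConvergent P.f_modif s := fun s => (hstrong.hasMellin s).1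
  have hint : ∀ σ : ℝ, IntegrableOn (fun t : ℝ => t ^ (σ - 1) * ‖P.f_modif t‖) (Ioi 0) := by
    intro σ
    have h : IntegrableOn (fun t : ℝ => ‖(t : ℂ) ^ ((σ : ℂ) - 1) • P.f_modif t‖) (Ioi 0) :=
      (hconv (σ : ℂ)).norm
    refine h.congr_fun (fun t ht => ?_) measurableSet_Ioi
    simp only [norm_smul]
    rw [Complex.norm_cpow_eq_rpow_re_of_pos ht]
    simp
  refine ⟨(∫ t in Ioi (0:ℝ), (t ^ (a / 2 - 1) * ‖P.f_modif t‖ + t ^ (b / 2 - 1) * ‖P.f_modif t‖)) / 2,
    ?_, ?_⟩
  · apply div_nonneg _ (by norm_num)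
    apply setIntegral_nonneg measurableSet_Ioi
    intro t ht
    have : (0:ℝ) < t := ht
    positivity
  · intro s ha hb
    have h1 : completedRiemannZeta₀ s = (P.Λ₀ (s / 2)) / 2 := rfl
    rw [h1, norm_div]
    have h2 : ‖(2:ℂ)‖ = 2 := by simp
    rw [h2]
    apply div_le_div_of_nonneg_right _ (by norm_num)
    have h3 : P.Λ₀ (s / 2) = mellin P.f_modif (s / 2) := rfl
    rw [h3, mellin]
    refine (norm_integral_le_integral_norm _).trans ?_
    refine integral_mono_of_nonneg (Eventually.of_forall fun t => norm_nonneg _)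
      ((hint (a/2)).add (hint (b/2))) ?_
    filter_upwards [self_mem_ae_restrict measurableSet_Ioi] with t ht
    have ht' : (0:ℝ) < t := ht
    simp only [norm_smul]
    rw [Complex.norm_cpow_eq_rpow_re_of_pos ht']
    have hre : (s / 2 - 1).re = s.re / 2 - 1 := by simp
    rw [hre]
    rw [← add_mul]
    apply mul_le_mul_of_nonneg_right _ (norm_nonneg _)
    rcases le_total t 1 with h | h
    · have : t ^ (s.re / 2 - 1) ≤ t ^ (a / 2 - 1) :=
        Real.rpow_le_rpow_of_exponent_ge ht' h (by linarith)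
      have h' : 0 ≤ t ^ (b / 2 - 1) := by positivity
      linarith
    · have : t ^ (s.re / 2 - 1) ≤ t ^ (b / 2 - 1) :=
        Real.rpow_le_rpow_of_exponent_le h (by linarith)
      have h' : 0 ≤ t ^ (a / 2 - 1) := by positivity
      linarith

lemma norm_sin_le (z : ℂ) : ‖Complex.sin z‖ ≤ Real.exp |z.im| := by
  have h : Complex.sin z = ((Complex.exp (-z * I) - Complex.exp (z * I)) * I) / 2 := rfl
  rw [h, norm_div, norm_mul]
  simp only [norm_I, mul_one, Complex.norm_ofNat]
  rw [div_le_iff₀ (by norm_num)]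
  refine (norm_sub_le _ _).trans ?_
  rw [Complex.norm_exp, Complex.norm_exp]
  have h1 : (-z * I).re = z.im := by simp
  have h2 : (z * I).re = - z.im := by simp
  rw [h1, h2]
  have := Real.exp_le_exp.2 (le_abs_self z.im)
  have := Real.exp_le_exp.2 (neg_le_abs z.im)
  linarith

lemma norm_cos_le (z : ℂ) : ‖Complex.cos z‖ ≤ Real.exp |z.im| := by
  have h : Complex.cos z = (Complex.exp (z * I) + Complex.exp (-z * I)) / 2 := rfl
  rw [h, norm_div]
  simp only [Complex.norm_ofNat]
  rw [div_le_iff₀ (by norm_num)]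
  refine (norm_add_le _ _).trans ?_
  rw [Complex.norm_exp, Complex.norm_exp]
  have h1 : (-z * I).re = z.im := by simp
  have h2 : (z * I).re = - z.im := by simp
  rw [h1, h2]
  have := Real.exp_le_exp.2 (le_abs_self z.im)
  have := Real.exp_le_exp.2 (neg_le_abs z.im)
  linarith

/-- `|Γ(s)| ≤ Γ(Re s)` for `Re s > 0`. -/
lemma norm_Gamma_le {s : ℂ} (hs : 0 < s.re) : ‖Complex.Gamma s‖ ≤ Real.Gamma s.re := by
  rw [Complex.Gamma_eq_integral hs, Real.Gamma_eq_integral hs, Complex.GammaIntegral]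
  refine (norm_integral_le_integral_norm _).trans (le_of_eq ?_)
  apply setIntegral_congr_fun measurableSet_Ioi
  intro x hx
  have hx' : (0:ℝ) < x := hx
  simp only [norm_mul]
  rw [Complex.norm_cpow_eq_rpow_re_of_pos hx']
  rw [Complex.norm_real, Real.norm_of_nonneg (Real.exp_pos _).le]
  simp

/-- `1/Γ(s) = Γ(1-s) sin(πs)/π`. -/
lemma inv_Gamma_eq (s : ℂ) (hs : ∀ n : ℕ, s ≠ n + 1) :
    (Complex.Gamma s)⁻¹ = Complex.Gamma (1 - s) * Complex.sin (Real.pi * s) / Real.pi := by
  have hpi : (Real.pi : ℂ) ≠ 0 := Complex.ofReal_ne_zero.mpr Real.pi_ne_zero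
  have h := Complex.Gamma_mul_Gamma_one_sub s
  have h1 : Complex.Gamma (1 - s) ≠ 0 := by
    apply Complex.Gamma_ne_zero
    intro m hm
    exact hs m (by linear_combination -hm)
  by_cases h0 : Complex.Gamma s = 0
  · rw [h0] at h ⊢
    rw [zero_mul] at h
    have hsin : Complex.sin (Real.pi * s) = 0 := by
      rw [eq_comm, div_eq_zero_iff] at h
      rcases h with h | h
      · exact absurd h hpi
      · exact h
    rw [hsin]; simp
  · have hsin : Complex.sin (Real.pi * s) ≠ 0 := by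
      intro hsin
      rw [hsin, div_zero] at h
      rcases mul_eq_zero.1 h with h | h
      · exact h0 h
      · exact h1 h
    rw [eq_div_iff hsin] at h
    rw [inv_eq_iff_eq_inv, inv_div, eq_div_iff (mul_ne_zero h1 hsin)]
    linear_combination h

/-- Crude growth bound for `(s-1)ζ(s)` in a vertical strip. -/
lemma exists_norm_riemannZeta₁_le :
    ∃ C : ℝ, 0 < C ∧ ∀ s : ℂ, -1 ≤ s.re → s.re ≤ 3 / 2 →
      ‖riemannZeta₁ s‖ ≤ C * Real.exp (3 * |s.im|) := by
  obtain ⟨A, hA0, hA⟩ := exists_norm_completedRiemannZeta₀_le (-1) (3/2)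
  -- compact part
  have hcpt : IsCompact (Icc (-1:ℝ) (3/2) ×ℂ Icc (-1:ℝ) 1) := isCompact_Icc.reProdIm isCompact_Icc
  obtain ⟨B, hB⟩ := hcpt.exists_bound_of_continuousOn
    (differentiable_riemannZeta₁.continuous.continuousOn)
  -- Gamma bound on [1/4, 3/2]
  have hcptΓ : IsCompact (Icc (1/4:ℝ) (3/2)) := isCompact_Icc
  obtain ⟨G, hG⟩ := hcptΓ.exists_bound_of_continuousOn (f := Real.Gamma) (by
    intro x hx
    exact (Real.differentiableAt_Gamma (fun m => by
      have : (0:ℝ) < x := by linarith [hx.1]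
      have h2 : (0:ℝ) ≤ m := Nat.cast_nonneg m
      linarith)).continuousAt.continuousWithinAt)
  have hG0 : 0 ≤ G := (norm_nonneg _).trans (hG 1 ⟨by norm_num, by norm_num⟩)
  have hB0 : 0 ≤ B := (norm_nonneg _).trans (hB 0 (by
    rw [Complex.mem_reProdIm]; constructor <;> constructor <;> norm_num))
  refine ⟨B + 5 * (A + 2) * (Real.pi * G) + 1, by positivity, ?_⟩
  intro s h1 h2
  have hexp1 : 1 ≤ Real.exp (3 * |s.im|) := Real.one_le_exp (by positivity)
  rcases le_or_gt |s.im| 1 with him | him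
  · have hmem : s ∈ (Icc (-1:ℝ) (3/2) ×ℂ Icc (-1:ℝ) 1) := by
      rw [Complex.mem_reProdIm]
      exact ⟨⟨h1, h2⟩, abs_le.1 him⟩
    have := hB s hmem
    have h3 : 0 ≤ 5 * (A + 2) * (Real.pi * G) := by positivity
    nlinarith
  · have him0 : s.im ≠ 0 := by
      intro h; rw [h] at him; simp at him; linarith
    have hs0 : s ≠ 0 := by
      intro h; apply him0; rw [h]; simp
    have hs1 : s ≠ 1 := by
      intro h; apply him0; rw [h]; simp
    have e1 : riemannZeta₁ s = (s - 1) * riemannZeta s := by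
      rw [riemannZeta_eq_inv_sub_mul hs1, ← mul_assoc, mul_inv_cancel₀ (sub_ne_zero.2 hs1), one_mul]
    have e2 : riemannZeta s = (completedRiemannZeta₀ s - 1 / s - 1 / (1 - s)) *
        (Real.pi ^ (s / 2) * (Complex.Gamma (s / 2))⁻¹) := by
      rw [riemannZeta_eq_completedRiemannZeta₀ hs0, div_eq_mul_inv, mul_inv, neg_div,
        Complex.cpow_neg, inv_inv]
    have e3 : (Complex.Gamma (s / 2))⁻¹ =
        Complex.Gamma (1 - s / 2) * Complex.sin (Real.pi * (s / 2)) / Real.pi := by
      apply inv_Gamma_eq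
      intro n hn
      have := congrArg Complex.im hn
      simp at this
      exact him0 this
    have b1 : ‖completedRiemannZeta₀ s - 1 / s - 1 / (1 - s)‖ ≤ A + 2 := by
      have ha : ‖completedRiemannZeta₀ s‖ ≤ A := hA s h1 h2
      have hb : ‖1 / s‖ ≤ 1 := by
        rw [norm_div, norm_one, div_le_one (norm_pos_iff.2 hs0)]
        exact him.le.trans (Complex.abs_im_le_norm s)
      have hc : ‖1 / (1 - s)‖ ≤ 1 := by
        rw [norm_div, norm_one, div_le_one (norm_pos_iff.2 (sub_ne_zero.2 (Ne.symm hs1)))]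
        have := Complex.abs_im_le_norm (1 - s)
        simp at this
        exact him.le.trans this
      calc ‖completedRiemannZeta₀ s - 1 / s - 1 / (1 - s)‖
          ≤ ‖completedRiemannZeta₀ s‖ + ‖1 / s‖ + ‖1 / (1 - s)‖ :=
            (norm_sub_le _ _).trans (add_le_add_left (norm_sub_le _ _) _)
        _ ≤ A + 2 := by linarith
    have b2 : ‖(Real.pi : ℂ) ^ (s / 2)‖ ≤ Real.pi := by
      rw [Complex.norm_cpow_eq_rpow_re_of_pos Real.pi_pos]
      have : (s / 2).re = s.re / 2 := by simp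
      rw [this]
      have hpi1 : (1:ℝ) ≤ Real.pi := by linarith [Real.pi_gt_three]
      calc Real.pi ^ (s.re / 2) ≤ Real.pi ^ (1:ℝ) :=
            Real.rpow_le_rpow_of_exponent_le hpi1 (by linarith)
        _ = Real.pi := Real.rpow_one _
    have b3 : ‖(Complex.Gamma (s / 2))⁻¹‖ ≤ G * Real.exp (2 * |s.im|) := by
      rw [e3, norm_div, norm_mul]
      have hre : (1 - s / 2).re = 1 - s.re / 2 := by simp
      have c1 : ‖Complex.Gamma (1 - s / 2)‖ ≤ G := by
        refine (norm_Gamma_le (by rw [hre]; linarith)).trans ?_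
        rw [hre]
        exact (le_abs_self _).trans (hG _ ⟨by linarith, by linarith⟩)
      have c2 : ‖Complex.sin (Real.pi * (s / 2))‖ ≤ Real.exp (2 * |s.im|) := by
        refine (norm_sin_le _).trans ?_
        apply Real.exp_le_exp.2
        have : ((Real.pi : ℂ) * (s / 2)).im = Real.pi / 2 * s.im := by
          rw [Complex.im_ofReal_mul]; simp; ring
        rw [this, abs_mul, abs_of_pos (by positivity)]
        have : Real.pi / 2 ≤ 2 := by linarith [Real.pi_le_four]
        nlinarith [abs_nonneg s.im]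
      have c3 : ‖(Real.pi : ℂ)‖ = Real.pi := by
        rw [Complex.norm_real, Real.norm_of_nonneg Real.pi_pos.le]
      rw [c3, div_le_iff₀ Real.pi_pos]
      have hpi1 : (1:ℝ) ≤ Real.pi := by linarith [Real.pi_gt_three]
      have := mul_le_mul c1 c2 (norm_nonneg _) hG0
      have h4 : 0 ≤ G * Real.exp (2 * |s.im|) := by positivity
      nlinarith
    have b4 : ‖s - 1‖ ≤ 5 * Real.exp |s.im| := by
      have := Complex.norm_le_abs_re_add_abs_im (s - 1)
      simp at this
      have h5 : |s.re - 1| ≤ 2 := by rw [abs_le]; constructor <;> linarith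
      have h6 := Real.add_one_le_exp |s.im|
      have h7 : 1 ≤ Real.exp |s.im| := Real.one_le_exp (abs_nonneg _)
      linarith
    rw [e1, e2, norm_mul, norm_mul, norm_mul]
    have hm1 : ‖(Real.pi : ℂ) ^ (s / 2)‖ * ‖(Complex.Gamma (s / 2))⁻¹‖ ≤
        Real.pi * (G * Real.exp (2 * |s.im|)) :=
      mul_le_mul b2 b3 (norm_nonneg _) Real.pi_pos.le
    have hm2 : ‖completedRiemannZeta₀ s - 1 / s - 1 / (1 - s)‖ *
        (‖(Real.pi : ℂ) ^ (s / 2)‖ * ‖(Complex.Gamma (s / 2))⁻¹‖) ≤
        (A + 2) * (Real.pi * (G * Real.exp (2 * |s.im|))) :=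
      mul_le_mul b1 hm1 (by positivity) (by positivity)
    have hm3 := mul_le_mul b4 hm2 (by positivity) (by positivity)
    have hexp : Real.exp (3 * |s.im|) = Real.exp |s.im| * Real.exp (2 * |s.im|) := by
      rw [← Real.exp_add]; ring_nf
    calc _ ≤ _ := hm3
      _ = 5 * (A + 2) * (Real.pi * G) * Real.exp (3 * |s.im|) := by rw [hexp]; ring
      _ ≤ (B + 5 * (A + 2) * (Real.pi * G) + 1) * Real.exp (3 * |s.im|) := by
        apply mul_le_mul_of_nonneg_right _ (Real.exp_pos _).le
        linarith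

end Pool.Agent.Lib.MP_6bc78b_nt
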