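import Mathlib
import Pool.Agent.Lib.MP_6bc78b_nt.BlockSums

set_option autoImplicit false

open Finset

namespace Pool.Agent.Lib.MP_6bc78b_nt

/-- All ranges together. -/
lemma block_all {τ : ℝ} (hτ : 2 ≤ τ) {M b : ℕ} (hM1 : 1 ≤ M) (hM2 : (M:ℝ) ≤ 2 * (τ ^ 3) ^ 2)
    (hMb : M ≤ b) (hb : b ≤ 2 * M) :
    ‖∑ n ∈ Ico M b, ei (ph (τ ^ 3) n)‖ ≤ 60 * (Real.sqrt M * Real.sqrt τ) := by
  have hτ0 : 0 < τ := by linarith
  have hM0 : (0:ℝ) < M := by exact_mod_cast hM1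
  have hsM : 0 < Real.sqrt M := Real.sqrt_pos.2 hM0
  have hsM2 : Real.sqrt M * Real.sqrt M = M := Real.mul_self_sqrt hM0.le
  have hsτ : 0 < Real.sqrt τ := Real.sqrt_pos.2 hτ0
  have hsτ2 : Real.sqrt τ * Real.sqrt τ = τ := Real.mul_self_sqrt hτ0.le
  have hsτ1 : 1 ≤ Real.sqrt τ := by
    rw [Real.one_le_sqrt]; linarith
  rcases le_or_gt (M:ℝ) τ with h1 | h1
  · -- trivial range
    have hb' : (b:ℝ) ≤ 2 * M := by exact_mod_cast hb
    refine (norm_sum_ei_le _ M b hMb).trans ?_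
    have : Real.sqrt M ≤ Real.sqrt τ := Real.sqrt_le_sqrt h1
    nlinarith
  rcases le_or_gt (M:ℝ) (τ ^ 2) with h2 | h2
  · refine (block_c hτ h1.le h2 hMb hb).trans ?_
    nlinarith [mul_pos hsM hsτ]
  rcases le_or_gt (M:ℝ) (τ ^ 3) with h3 | h3
  · have ht0 : (0:ℝ) < τ ^ 3 := by positivity
    have hst : Real.sqrt (τ ^ 3) = τ * Real.sqrt τ := by
      rw [show τ ^ 3 = τ ^ 2 * τ by ring, Real.sqrt_mul (by positivity), Real.sqrt_sq hτ0.le]
    have hτM : τ ≤ Real.sqrt M := Real.le_sqrt_of_sq_le h2.le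
    have hMτ : Real.sqrt M ≤ τ ^ 2 := by
      rw [show τ ^ 2 = Real.sqrt ((τ ^ 2) ^ 2) from (Real.sqrt_sq (by positivity)).symm]
      apply Real.sqrt_le_sqrt
      calc (M:ℝ) ≤ τ ^ 3 := h3
        _ = τ ^ 3 * 1 := by ring
        _ ≤ τ ^ 3 * τ := by gcongr; linarith
        _ = (τ ^ 2) ^ 2 := by ring
    have h4 : τ ^ 3 ≤ (M:ℝ) ^ 2 := by
      calc τ ^ 3 = τ ^ 3 * 1 := by ring
        _ ≤ τ ^ 3 * τ := by gcongr; linarith
        _ = (τ ^ 2) ^ 2 := by ring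
        _ ≤ (M:ℝ) ^ 2 := by gcongr
    refine (block_b ht0 hM1 h4 hb).trans ?_
    rw [hst]
    have e1 : 4 * (τ * Real.sqrt τ) ≤ 4 * (Real.sqrt M * Real.sqrt τ) := by gcongr
    have e2 : 48 * M / (τ * Real.sqrt τ) ≤ 48 * (Real.sqrt M * Real.sqrt τ) := by
      rw [div_le_iff₀ (by positivity)]
      calc 48 * (M:ℝ) = 48 * (Real.sqrt M * Real.sqrt M) := by rw [hsM2]
        _ ≤ 48 * (Real.sqrt M * τ ^ 2) := by gcongr
        _ = 48 * (Real.sqrt M * (τ * (Real.sqrt τ * Real.sqrt τ))) := by rw [hsτ2]; ring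
        _ = 48 * (Real.sqrt M * Real.sqrt τ) * (τ * Real.sqrt τ) := by ring
    have : 0 < Real.sqrt M * Real.sqrt τ := by positivity
    linarith
  · have ht0 : (0:ℝ) < τ ^ 3 := by positivity
    refine (block_a ht0 h3.le hb).trans ?_
    have hsMt : Real.sqrt M ≤ 1.42 * τ ^ 3 := by
      rw [show 1.42 * τ ^ 3 = Real.sqrt ((1.42 * τ ^ 3) ^ 2) from
        (Real.sqrt_sq (by positivity)).symm]
      apply Real.sqrt_le_sqrt
      refine hM2.trans ?_
      rw [mul_pow]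
      have : 0 < (τ ^ 3) ^ 2 := by positivity
      nlinarith
    rw [div_le_iff₀ ht0]
    calc 4 * Real.pi * M = 4 * Real.pi * (Real.sqrt M * Real.sqrt M) := by rw [hsM2]
      _ ≤ 4 * 4 * (Real.sqrt M * (1.42 * τ ^ 3)) := by
          gcongr; exact Real.pi_le_four
      _ = 22.72 * Real.sqrt M * 1 * τ ^ 3 := by ring
      _ ≤ 60 * Real.sqrt M * Real.sqrt τ * τ ^ 3 := by
          gcongr
          norm_num
      _ = 60 * (Real.sqrt M * Real.sqrt τ) * τ ^ 3 := by ring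

/-- Abel summation bound. -/
lemma abel_le (z : ℕ → ℂ) (w : ℕ → ℝ) (M b : ℕ) (K : ℝ) (hMb : M ≤ b)
    (hw : ∀ n, M ≤ n → w (n + 1) ≤ w n) (hw0 : 0 ≤ w b)
    (hK : ∀ j, M ≤ j → j ≤ b → ‖∑ n ∈ Ico M j, z n‖ ≤ K) :
    ‖∑ n ∈ Ico M b, (w n : ℂ) * z n‖ ≤ K * w M := by
  have hind : ∀ j, M ≤ j → j ≤ b →
      ‖∑ n ∈ Ico M j, (w n : ℂ) * z n - (w j : ℂ) * ∑ n ∈ Ico M j, z n‖ ≤ K * (w M - w j) := by
    intro j hj
    induction j, hj using Nat.le_induction with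
    | base => intro _; simp
    | succ j hj ih =>
      intro hjb
      have h1 := ih (by omega)
      have h2 := hK (j + 1) (by omega) hjb
      have h3 := hw j hj
      rw [Finset.sum_Ico_succ_top hj, Finset.sum_Ico_succ_top hj] at *
      have e : ∑ n ∈ Ico M j, (w n : ℂ) * z n + (w j : ℂ) * z j -
          (w (j + 1) : ℂ) * (∑ n ∈ Ico M j, z n + z j) =
          (∑ n ∈ Ico M j, (w n : ℂ) * z n - (w j : ℂ) * ∑ n ∈ Ico M j, z n) +
          ((w j - w (j + 1) : ℝ) : ℂ) * (∑ n ∈ Ico M j, z n + z j) := by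
        push_cast; ring
      rw [e]
      refine (norm_add_le _ _).trans ?_
      rw [norm_mul, Complex.norm_real, Real.norm_of_nonneg (by linarith)]
      have h4 : (w j - w (j + 1)) * ‖∑ n ∈ Ico M j, z n + z j‖ ≤ (w j - w (j + 1)) * K := by
        apply mul_le_mul_of_nonneg_left h2 (by linarith)
      linarith
  have h1 := hind b hMb le_rfl
  have h2 := hK b hMb le_rfl
  have h3 : ‖(w b : ℂ) * ∑ n ∈ Ico M b, z n‖ ≤ w b * K := by
    rw [norm_mul, Complex.norm_real, Real.norm_of_nonneg hw0]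
    exact mul_le_mul_of_nonneg_left h2 hw0
  have h4 : ∑ n ∈ Ico M b, (w n : ℂ) * z n =
      (∑ n ∈ Ico M b, (w n : ℂ) * z n - (w b : ℂ) * ∑ n ∈ Ico M b, z n) +
      (w b : ℂ) * ∑ n ∈ Ico M b, z n := by ring
  rw [h4]
  refine (norm_add_le _ _).trans ?_
  linarith

/-- The weighted terms. -/
noncomputable def wt (t : ℝ) (n : ℕ) : ℂ := ((1 / Real.sqrt (n : ℝ) : ℝ) : ℂ) * ei (ph t n)

/-- Dyadic summation. -/
lemma dyadic_sum {τ : ℝ} (hτ : 2 ≤ τ) (J : ℕ) (hJ : ∀ j < J, (2:ℝ) ^ j ≤ 2 * (τ ^ 3) ^ 2) :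
    ‖∑ n ∈ Ico 1 (2 ^ J), wt (τ ^ 3) n‖ ≤ J * (60 * Real.sqrt τ) := by
  induction J with
  | zero => simp
  | succ J ih =>
    have ih' := ih (fun j hj => hJ j (by omega))
    have hsplit : ∑ n ∈ Ico 1 (2 ^ (J + 1)), wt (τ ^ 3) n =
        ∑ n ∈ Ico 1 (2 ^ J), wt (τ ^ 3) n +
        ∑ n ∈ Ico (2 ^ J) (2 ^ (J + 1)), wt (τ ^ 3) n := by
      rw [Finset.sum_Ico_consecutive _ (Nat.one_le_two_pow) (Nat.pow_le_pow_right (by norm_num)
        (by omega))]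
    rw [hsplit]
    refine (norm_add_le _ _).trans ?_
    have hMpos : (0:ℝ) < ((2 ^ J : ℕ) : ℝ) := by positivity
    have hsM : 0 < Real.sqrt ((2 ^ J : ℕ) : ℝ) := Real.sqrt_pos.2 hMpos
    have hM2 : (((2 ^ J : ℕ) : ℕ) : ℝ) ≤ 2 * (τ ^ 3) ^ 2 := by
      push_cast; exact hJ J (by omega)
    have hblock : ‖∑ n ∈ Ico (2 ^ J) (2 ^ (J + 1)), wt (τ ^ 3) n‖ ≤ 60 * Real.sqrt τ := by
      have := abel_le (fun n => ei (ph (τ ^ 3) n)) (fun n => 1 / Real.sqrt n) (2 ^ J) (2 ^ (J + 1))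
        (60 * (Real.sqrt ((2 ^ J : ℕ) : ℝ) * Real.sqrt τ))
        (Nat.pow_le_pow_right (by norm_num) (by omega))
        (fun n hn => by
          have hn0 : (0:ℝ) < n := by
            have : 0 < n := lt_of_lt_of_le (by positivity) hn
            exact_mod_cast this
          have : 0 < Real.sqrt n := Real.sqrt_pos.2 hn0
          apply one_div_le_one_div_of_le this
          apply Real.sqrt_le_sqrt
          push_cast; linarith)
        (by positivity)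
        (fun j h1 h2 => block_all hτ Nat.one_le_two_pow hM2 h1
          (by rw [pow_succ] at h2; omega))
      refine this.trans (le_of_eq ?_)
      field_simp
    push_cast
    linarith

end Pool.Agent.Lib.MP_6bc78b_nt
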