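import Mathlib
import Pool.Agent.Lib.MP_6bc78b_nt.Blaschke

set_option autoImplicit false

open Complex Set Filter Topology
open Complex.HadamardThreeLines

namespace Pool.Agent.Lib.MP_6bc78b_nt

/-- Three lines theorem with the zeros on the imaginary axis divided out. -/
lemma strip_main {a : ℝ} (ha : 0 < a) {F : ℂ → ℂ} (hF : Differentiable ℂ F)
    {K : ℝ} (hK : ∀ z : ℂ, |z.re| ≤ a → ‖F z‖ ≤ K)
    (S : Finset ℝ) (m : ℝ → ℕ) (hm : ∀ v ∈ S, (m v : ℕ∞) ≤ analyticOrderAt F (v * I))
    {A B : ℝ} (hA : ∀ z : ℂ, z.re = -a → ‖F z‖ ≤ A) (hB : ∀ z : ℂ, z.re = a → ‖F z‖ ≤ B)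
    {x : ℝ} (hx0 : 0 ≤ x) (hxa : x ≤ a) :
    ‖F x‖ * Real.exp (∑ v ∈ S, (m v : ℝ) *
      (Real.cos (Real.pi / (2 * a) * x) / Real.cosh (Real.pi / (2 * a) * v))) ≤
      A ^ (1 - (x + a) / (2 * a)) * B ^ ((x + a) / (2 * a)) := by
  classical
  set κ := Real.pi / (4 * a) with hκdef
  have hκ : 0 < κ := by positivity
  have hκa : κ * a = Real.pi / 4 := by rw [hκdef]; field_simp
  have h2κ : Real.pi / (2 * a) = 2 * κ := by rw [hκdef]; field_simp; norm_num
  rw [h2κ]
  -- transfer the finset to ℂ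
  set toC : ℝ → ℂ := fun v => (v : ℂ) * I with htoC
  have hinj : Function.Injective toC := by
    intro v w hvw
    have := congrArg Complex.im hvw
    simpa [htoC] using this
  obtain ⟨h, hh, hFh⟩ := exists_eq_prod_mul hF (S.image toC) (fun w => m w.im) (by
    intro w hw
    obtain ⟨v, hv, rfl⟩ := Finset.mem_image.1 hw
    have := hm v hv
    simpa [htoC] using this)
  have hFh' : ∀ z, F z = (∏ v ∈ S, (z - v * I) ^ m v) * h z := by
    intro z
    rw [hFh z, Finset.prod_image (fun v _ w _ hvw => hinj hvw)]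
    simp [htoC]
  set G : ℂ → ℂ := fun z =>
    h z * ∏ v ∈ S, (Complex.cos (κ * (z - v * I)) / sinq κ (z - v * I)) ^ m v with hG
  set P : ℂ → ℂ := fun z => ∏ v ∈ S, (Complex.sin (κ * (z - v * I))) ^ m v with hP
  set Q : ℂ → ℂ := fun z => ∏ v ∈ S, (Complex.cos (κ * (z - v * I))) ^ m v with hQ
  have hsq : ∀ (z : ℂ) (v : ℝ), |z.re| ≤ a → sinq κ (z - v * I) ≠ 0 := by
    intro z v hz
    apply sinq_ne_zero hκ
    have : (z - v * I).re = z.re := by simp
    rw [this]
    have : κ * |z.re| ≤ κ * a := by gcongr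
    rw [hκa] at this
    linarith [Real.pi_pos]
  have hGP : ∀ z : ℂ, |z.re| ≤ a → G z * P z = F z * Q z := by
    intro z hz
    simp only [hG, hP, hQ]
    rw [hFh' z]
    have : ∀ v ∈ S, (Complex.cos (κ * (z - v * I)) / sinq κ (z - v * I)) ^ m v *
        (Complex.sin (κ * (z - v * I))) ^ m v =
        (z - v * I) ^ m v * (Complex.cos (κ * (z - v * I))) ^ m v := by
      intro v _
      rw [← mul_pow, ← mul_pow, ← mul_sinq]
      congr 1
      have := hsq z v hz
      field_simp
    rw [mul_assoc, ← Finset.prod_mul_distrib, Finset.prod_congr rfl this,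
      Finset.prod_mul_distrib]
    ring
  have hre : ∀ (z : ℂ) (v : ℝ), ((κ : ℂ) * (z - v * I)).re = κ * z.re := by
    intro z v; simp
  have him : ∀ (z : ℂ) (v : ℝ), ((κ : ℂ) * (z - v * I)).im = κ * (z.im - v) := by
    intro z v; simp
  -- cosine nonzero
  have hcosre : ∀ z : ℂ, |z.re| ≤ a → 0 ≤ Real.cos (2 * (κ * z.re)) := by
    intro z hz
    apply Real.cos_nonneg_of_mem_Icc
    have : |2 * (κ * z.re)| ≤ Real.pi / 2 := by
      rw [abs_mul, abs_mul, abs_of_pos hκ, abs_two]
      have : κ * |z.re| ≤ κ * a := by gcongr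
      rw [hκa] at this
      linarith
    rw [abs_le] at this
    exact ⟨by linarith [this.1], this.2⟩
  have hcospos : ∀ (z : ℂ) (v : ℝ), |z.re| ≤ a → 0 < ‖Complex.cos (κ * (z - v * I))‖ := by
    intro z v hz
    have h1 := norm_cos_sq ((κ : ℂ) * (z - v * I))
    rw [hre, him] at h1
    have h2 := hcosre z hz
    have h3 := Real.one_le_cosh (2 * (κ * (z.im - v)))
    have h4 : 0 < ‖Complex.cos (κ * (z - v * I))‖ ^ 2 := by rw [h1]; linarith
    rcases (norm_nonneg (Complex.cos (κ * (z - v * I)))).eq_or_lt with h5 | h5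
    · rw [← h5] at h4; simp at h4
    · exact h5
  have hQpos : ∀ z : ℂ, |z.re| ≤ a → 0 < ‖Q z‖ := by
    intro z hz
    simp only [hQ, norm_prod, norm_pow]
    exact Finset.prod_pos fun v _ => pow_pos (hcospos z v hz) _
  have hGPn : ∀ z : ℂ, |z.re| ≤ a → ‖G z‖ * ‖P z‖ = ‖F z‖ * ‖Q z‖ := by
    intro z hz
    rw [← norm_mul, ← norm_mul, hGP z hz]
  -- edges
  have hedge : ∀ z : ℂ, |z.re| = a → ‖G z‖ = ‖F z‖ := by
    intro z hz
    have hz' : |z.re| ≤ a := hz.le
    have hPQ : ‖P z‖ = ‖Q z‖ := by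
      simp only [hP, hQ, norm_prod, norm_pow]
      apply Finset.prod_congr rfl
      intro v _
      congr 1
      have h1 := norm_cos_sq ((κ : ℂ) * (z - v * I))
      have h2 := norm_sin_sq ((κ : ℂ) * (z - v * I))
      rw [hre, him] at h1 h2
      have h3 : Real.cos (2 * (κ * z.re)) = 0 := by
        rw [← Real.cos_abs, abs_mul, abs_mul, abs_of_pos hκ, abs_two, hz, hκa]
        rw [show 2 * (Real.pi / 4) = Real.pi / 2 by ring, Real.cos_pi_div_two]
      rw [h3] at h1 h2
      have h4 : ‖Complex.sin (κ * (z - v * I))‖ ^ 2 = ‖Complex.cos (κ * (z - v * I))‖ ^ 2 := by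
        rw [h1, h2]; ring
      exact (pow_left_inj₀ (norm_nonneg _) (norm_nonneg _) two_ne_zero).1 h4
    have h1 := hGPn z hz'
    rw [hPQ] at h1
    exact mul_right_cancel₀ (hQpos z hz').ne' h1
  have hcl : closure (verticalStrip (-a) a) = verticalClosedStrip (-a) a := by
    rw [verticalStrip, verticalClosedStrip, Complex.closure_preimage_re,
      closure_Ioo (by linarith)]
  have hGdiff : DifferentiableOn ℂ G (verticalClosedStrip (-a) a) := by
    intro z hz
    simp only [verticalClosedStrip, mem_preimage, mem_Icc] at hz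
    have hz' : |z.re| ≤ a := abs_le.2 hz
    apply DifferentiableAt.differentiableWithinAt
    apply (hh z).mul
    apply DifferentiableAt.fun_finsetProd
    intro v _
    apply DifferentiableAt.pow
    apply DifferentiableAt.div
    · fun_prop
    · exact (differentiable_sinq κ).differentiableAt.comp z (by fun_prop)
    · exact hsq z v hz'
  have hGd : DiffContOnCl ℂ G (verticalStrip (-a) a) := by
    apply DifferentiableOn.diffContOnCl
    rw [hcl]
    exact hGdiff
  -- boundedness
  have hGB : BddAbove ((norm ∘ G) '' verticalClosedStrip (-a) a) := by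
    obtain ⟨R0, hR0⟩ : ∃ R0 : ℝ, ∀ v ∈ S, |v| ≤ R0 := by
      refine ⟨∑ v ∈ S, |v|, fun v hv => Finset.single_le_sum (f := fun v => |v|)
        (fun _ _ => abs_nonneg _) hv⟩
    set R := R0 + 1 / κ with hR
    have hcpt : IsCompact (Icc (-a) a ×ℂ Icc (-R) R) := isCompact_Icc.reProdIm isCompact_Icc
    obtain ⟨C1, hC1⟩ := hcpt.exists_bound_of_continuousOn (f := G) (by
      apply hGdiff.continuousOn.mono
      intro z hz
      exact hz.1)
    refine ⟨max C1 (2 ^ (∑ v ∈ S, m v) * K), ?_⟩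
    rintro _ ⟨z, hz, rfl⟩
    simp only [verticalClosedStrip, mem_preimage, mem_Icc] at hz
    have hz' : |z.re| ≤ a := abs_le.2 hz
    simp only [Function.comp]
    rcases le_or_gt |z.im| R with him1 | him1
    · exact (hC1 z ⟨hz, abs_le.1 him1⟩).trans (le_max_left _ _)
    · refine le_trans ?_ (le_max_right _ _)
      have hPQ : ‖Q z‖ ≤ 2 ^ (∑ v ∈ S, m v) * ‖P z‖ := by
        simp only [hP, hQ, norm_prod, norm_pow]
        rw [← Finset.prod_pow_eq_pow_sum, ← Finset.prod_mul_distrib]
        apply Finset.prod_le_prod (fun v _ => by positivity)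
        intro v hv
        rw [← mul_pow]
        apply pow_le_pow_left₀ (norm_nonneg _)
        have h1 := norm_cos_sq ((κ : ℂ) * (z - v * I))
        have h2 := norm_sin_sq ((κ : ℂ) * (z - v * I))
        rw [hre, him] at h1 h2
        have h3 : 1 ≤ |κ * (z.im - v)| := by
          rw [abs_mul, abs_of_pos hκ]
          have h4 : |z.im| ≤ |z.im - v| + |v| := by
            have := abs_add_le (z.im - v) v
            simpa using this
          have h5 := hR0 v hv
          have h6 : 1 / κ ≤ |z.im - v| := by linarith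
          calc (1:ℝ) = κ * (1 / κ) := by field_simp
            _ ≤ κ * |z.im - v| := by gcongr
        have h4 : 5 / 3 ≤ Real.cosh (2 * (κ * (z.im - v))) := by
          have h5 : 1 + (2 * (κ * (z.im - v))) ^ 2 / 2 ≤ Real.cosh (2 * (κ * (z.im - v))) := by
            rw [Real.cosh_two_mul, Real.cosh_sq]
            have h6 : (κ * (z.im - v)) ^ 2 ≤ Real.sinh (κ * (z.im - v)) ^ 2 := by
              rw [← sq_abs, ← sq_abs (Real.sinh _), Real.abs_sinh]
              apply pow_le_pow_left₀ (abs_nonneg _)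
              exact Real.self_le_sinh_iff.2 (abs_nonneg _)
            nlinarith
          have h7 : 1 ≤ (κ * (z.im - v)) ^ 2 := by
            rw [← sq_abs]; nlinarith
          nlinarith
        have hcle := Real.cos_le_one (2 * (κ * z.re))
        refine le_of_sq_le_sq ?_ (by positivity)
        rw [mul_pow, h1, h2]
        linarith
      have h1 := hGPn z hz'
      have hKz := hK z hz'
      have hQz := hQpos z hz'
      have h2 : ‖G z‖ * ‖Q z‖ ≤ 2 ^ (∑ v ∈ S, m v) * K * ‖Q z‖ := by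
        calc ‖G z‖ * ‖Q z‖ ≤ ‖G z‖ * (2 ^ (∑ v ∈ S, m v) * ‖P z‖) := by gcongr
          _ = 2 ^ (∑ v ∈ S, m v) * (‖G z‖ * ‖P z‖) := by ring
          _ = 2 ^ (∑ v ∈ S, m v) * (‖F z‖ * ‖Q z‖) := by rw [h1]
          _ ≤ 2 ^ (∑ v ∈ S, m v) * (K * ‖Q z‖) := by gcongr
          _ = _ := by ring
      exact le_of_mul_le_mul_right h2 hQz
  -- three lines
  have hmem : (x : ℂ) ∈ verticalClosedStrip (-a) a := by
    simp only [verticalClosedStrip, mem_preimage, mem_Icc, ofReal_re]
    exact ⟨by linarith, hxa⟩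
  have key := norm_le_interp_of_mem_verticalClosedStrip' (by linarith : -a < a) hmem hGd hGB
    (a := A) (b := B)
    (by
      intro z hz
      have hz' : z.re = -a := hz
      rw [hedge z (by rw [hz', abs_neg, abs_of_pos ha])]
      exact hA z hz')
    (by
      intro z hz
      have hz' : z.re = a := hz
      rw [hedge z (by rw [hz', abs_of_pos ha])]
      exact hB z hz')
  rw [ofReal_re] at key
  have e1 : (x - -a) / (a - -a) = (x + a) / (2 * a) := by
    congr 1 <;> ring
  rw [e1] at key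
  refine le_trans ?_ key
  -- value at x
  have hxre : |(x : ℂ).re| ≤ a := by rw [ofReal_re, abs_of_nonneg hx0]; exact hxa
  have hPx : ‖P x‖ ≤ Real.exp (-(∑ v ∈ S, (m v : ℝ) *
      (Real.cos (2 * κ * x) / Real.cosh (2 * κ * v)))) * ‖Q x‖ := by
    simp only [hP, hQ, norm_prod, norm_pow]
    rw [← Finset.sum_neg_distrib, Real.exp_sum, ← Finset.prod_mul_distrib]
    apply Finset.prod_le_prod (fun v _ => by positivity)
    intro v _
    have h0 : 0 ≤ Real.cos (2 * (κ * x)) := by
      have := hcosre (x : ℂ) hxre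
      simpa using this
    have h1 := norm_sin_le_exp_mul_norm_cos (κ * x) (-(κ * v)) h0
    have h2 : (((κ * x : ℝ) : ℂ) + ((-(κ * v) : ℝ) : ℂ) * I) = (κ : ℂ) * (x - v * I) := by
      push_cast; ring
    rw [h2] at h1
    have h3 : Real.cosh (2 * -(κ * v)) = Real.cosh (2 * κ * v) := by
      rw [← Real.cosh_neg]; congr 1; ring
    have h4 : 2 * (κ * x) = 2 * κ * x := by ring
    rw [h3, h4] at h1
    calc ‖Complex.sin (κ * (x - v * I))‖ ^ m v
        ≤ (Real.exp (-(Real.cos (2 * κ * x) / Real.cosh (2 * κ * v))) *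
            ‖Complex.cos (κ * (x - v * I))‖) ^ m v :=
          pow_le_pow_left₀ (norm_nonneg _) h1 _
      _ = Real.exp (-((m v : ℝ) * (Real.cos (2 * κ * x) / Real.cosh (2 * κ * v)))) *
            ‖Complex.cos (κ * (x - v * I))‖ ^ m v := by
          rw [mul_pow, ← Real.exp_nat_mul]
          congr 2
          ring
  set T' := ∑ v ∈ S, (m v : ℝ) * (Real.cos (2 * κ * x) / Real.cosh (2 * κ * v)) with hT
  have h1 := hGPn x hxre
  have hQx := hQpos x hxre
  have h2 : ‖F x‖ * ‖Q x‖ ≤ ‖G x‖ * Real.exp (-T') * ‖Q x‖ := by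
    rw [← h1, mul_assoc]
    gcongr
  have h3 := le_of_mul_le_mul_right h2 hQx
  calc ‖F x‖ * Real.exp T' ≤ ‖G x‖ * Real.exp (-T') * Real.exp T' := by gcongr
    _ = ‖G x‖ := by rw [mul_assoc, ← Real.exp_add]; simp

end Pool.Agent.Lib.MP_6bc78b_nt
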