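import Mathlib
import Pool.Agent.Lib.MP_6bc78b_nt.Crude

set_option autoImplicit false

open Complex Set Filter Topology MeasureTheory
open Complex.HadamardThreeLines

namespace Pool.Agent.Lib.MP_6bc78b_nt

lemma one_add_abs_rpow_mul_exp_le (p v : ℝ) (hp : 0 ≤ p) :
    (1 + |v|) ^ p * Real.exp (-v ^ 2) ≤ Real.exp (p ^ 2 / 4) := by
  have h1 : (1 + |v|) ^ p ≤ Real.exp (p * |v|) := by
    have h0 : 1 + |v| ≤ Real.exp |v| := by linarith [Real.add_one_le_exp |v|]
    calc (1 + |v|) ^ p ≤ (Real.exp |v|) ^ p :=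
          Real.rpow_le_rpow (by positivity) h0 hp
      _ = Real.exp (p * |v|) := by rw [← Real.exp_mul, mul_comm]
  calc (1 + |v|) ^ p * Real.exp (-v ^ 2) ≤ Real.exp (p * |v|) * Real.exp (-v ^ 2) := by gcongr
    _ = Real.exp (p * |v| - v ^ 2) := by rw [← Real.exp_add]; ring_nf
    _ ≤ Real.exp (p ^ 2 / 4) := by
      apply Real.exp_le_exp.2
      have := sq_nonneg (|v| - p / 2)
      have h2 : |v| ^ 2 = v ^ 2 := sq_abs v
      nlinarith

lemma one_add_abs_add_le (y v : ℝ) : 1 + |y + v| ≤ (1 + |y|) * (1 + |v|) := by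
  have := abs_add_le y v
  have h1 := abs_nonneg y
  have h2 := abs_nonneg v
  nlinarith [mul_nonneg h1 h2]

lemma norm_exp_sq (z : ℂ) : ‖Complex.exp (z ^ 2)‖ = Real.exp (z.re ^ 2 - z.im ^ 2) := by
  rw [Complex.norm_exp]
  congr 1
  simp [sq]

/-- Interpolation of polynomial bounds in a vertical strip (Phragmen-Lindelof). -/
lemma strip_interp (f : ℂ → ℂ) (l u : ℝ) (hlu : l < u)
    (hd : DiffContOnCl ℂ f (verticalStrip l u))
    (A B A1 A2 p q : ℝ) (hA : 0 ≤ A) (hB : 0 ≤ B) (hA1 : 0 < A1) (hA2 : 0 < A2)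
    (hp : 0 ≤ p) (hq : 0 ≤ q)
    (hcrude : ∀ z : ℂ, l ≤ z.re → z.re ≤ u → ‖f z‖ ≤ A * Real.exp (B * |z.im|))
    (hl : ∀ z : ℂ, z.re = l → ‖f z‖ ≤ A1 * (1 + |z.im|) ^ p)
    (hu : ∀ z : ℂ, z.re = u → ‖f z‖ ≤ A2 * (1 + |z.im|) ^ q) :
    ∃ C : ℝ, 0 < C ∧ ∀ z : ℂ, l ≤ z.re → z.re ≤ u →
      ‖f z‖ ≤ C * (1 + |z.im|) ^
        ((1 - (z.re - l) / (u - l)) * p + (z.re - l) / (u - l) * q) := by
  set K1 := A1 * (Real.exp (p ^ 2 / 4) * Real.exp (l ^ 2)) with hK1
  set K2 := A2 * (Real.exp (q ^ 2 / 4) * Real.exp (u ^ 2)) with hK2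
  have hK1pos : 0 < K1 := by positivity
  have hK2pos : 0 < K2 := by positivity
  refine ⟨max K1 K2, lt_max_of_lt_left hK1pos, ?_⟩
  intro z hzl hzu
  set y := z.im with hy
  set g : ℂ → ℂ := fun w => f (w + y * I) * Complex.exp (w ^ 2) with hg
  -- differentiability
  have hgd : DiffContOnCl ℂ g (verticalStrip l u) := by
    have hshift : DiffContOnCl ℂ (fun w : ℂ => w + y * I) (verticalStrip l u) :=
      (by fun_prop : Differentiable ℂ fun w : ℂ => w + y * I).diffContOnCl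
    have h1 : DiffContOnCl ℂ (fun w : ℂ => f (w + y * I)) (verticalStrip l u) := by
      refine hd.comp hshift ?_
      intro w hw
      simp only [verticalStrip, mem_preimage, mem_Ioo] at hw ⊢
      simpa using hw
    exact h1.smul (by fun_prop : Differentiable ℂ fun w : ℂ => Complex.exp (w ^ 2)).diffContOnCl
  -- common bound of |re|
  have hrebound : ∀ x : ℝ, l ≤ x → x ≤ u → x ^ 2 ≤ l ^ 2 + u ^ 2 := by
    intro x h1 h2
    rcases le_total 0 x with h | h
    · nlinarith [sq_nonneg l]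
    · nlinarith [sq_nonneg u]
  have hgB : BddAbove ((norm ∘ g) '' verticalClosedStrip l u) := by
    refine ⟨A * Real.exp (B * |y|) * Real.exp (B ^ 2 / 4) * Real.exp (l ^ 2 + u ^ 2), ?_⟩
    rintro _ ⟨w, hw, rfl⟩
    simp only [verticalClosedStrip, mem_preimage, mem_Icc] at hw
    simp only [Function.comp, hg, norm_mul]
    rw [norm_exp_sq]
    have h1 : ‖f (w + y * I)‖ ≤ A * Real.exp (B * |y|) * Real.exp (B * |w.im|) := by
      refine (hcrude _ (by simpa using hw.1) (by simpa using hw.2)).trans ?_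
      rw [mul_assoc, ← Real.exp_add]
      apply mul_le_mul_of_nonneg_left _ hA
      apply Real.exp_le_exp.2
      have h2 : (w + y * I).im = w.im + y := by simp
      rw [h2]
      have := abs_add_le w.im y
      nlinarith
    have h2 : Real.exp (B * |w.im|) * Real.exp (w.re ^ 2 - w.im ^ 2) ≤
        Real.exp (B ^ 2 / 4) * Real.exp (l ^ 2 + u ^ 2) := by
      rw [← Real.exp_add, ← Real.exp_add]
      apply Real.exp_le_exp.2
      have h3 := hrebound w.re hw.1 hw.2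
      have h4 := sq_nonneg (|w.im| - B / 2)
      have h5 : |w.im| ^ 2 = w.im ^ 2 := sq_abs _
      nlinarith
    calc ‖f (w + y * I)‖ * Real.exp (w.re ^ 2 - w.im ^ 2)
        ≤ (A * Real.exp (B * |y|) * Real.exp (B * |w.im|)) * Real.exp (w.re ^ 2 - w.im ^ 2) :=
          mul_le_mul_of_nonneg_right h1 (Real.exp_pos _).le
      _ = A * Real.exp (B * |y|) * (Real.exp (B * |w.im|) * Real.exp (w.re ^ 2 - w.im ^ 2)) := by
          ring
      _ ≤ A * Real.exp (B * |y|) * (Real.exp (B ^ 2 / 4) * Real.exp (l ^ 2 + u ^ 2)) :=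
          mul_le_mul_of_nonneg_left h2 (by positivity)
      _ = _ := by ring
  -- edge bounds
  have edge : ∀ (x E r : ℝ), 0 < E → 0 ≤ r →
      (∀ z : ℂ, z.re = x → ‖f z‖ ≤ E * (1 + |z.im|) ^ r) →
      ∀ w ∈ re ⁻¹' {x}, ‖g w‖ ≤ E * (Real.exp (r ^ 2 / 4) * Real.exp (x ^ 2)) * (1 + |y|) ^ r := by
    intro x E r hE hr hfx w hw
    have hw' : w.re = x := hw
    simp only [hg, norm_mul]
    rw [norm_exp_sq]
    have h1 : ‖f (w + y * I)‖ ≤ E * ((1 + |y|) ^ r * (1 + |w.im|) ^ r) := by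
      refine (hfx _ (by simpa using hw')).trans ?_
      apply mul_le_mul_of_nonneg_left _ hE.le
      rw [← Real.mul_rpow (by positivity) (by positivity)]
      apply Real.rpow_le_rpow (by positivity) _ hr
      have h2 : (w + y * I).im = y + w.im := by simp; ring
      rw [h2]
      exact one_add_abs_add_le y w.im
    have h3 := one_add_abs_rpow_mul_exp_le r w.im hr
    have h4 : Real.exp (w.re ^ 2 - w.im ^ 2) = Real.exp (x ^ 2) * Real.exp (-w.im ^ 2) := by
      rw [← Real.exp_add, hw']; ring_nf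
    rw [h4]
    calc ‖f (w + y * I)‖ * (Real.exp (x ^ 2) * Real.exp (-w.im ^ 2))
        ≤ (E * ((1 + |y|) ^ r * (1 + |w.im|) ^ r)) * (Real.exp (x ^ 2) * Real.exp (-w.im ^ 2)) :=
          mul_le_mul_of_nonneg_right h1 (by positivity)
      _ = E * (1 + |y|) ^ r * Real.exp (x ^ 2) * ((1 + |w.im|) ^ r * Real.exp (-w.im ^ 2)) := by
          ring
      _ ≤ E * (1 + |y|) ^ r * Real.exp (x ^ 2) * Real.exp (r ^ 2 / 4) :=
          mul_le_mul_of_nonneg_left h3 (by positivity)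
      _ = _ := by ring
  have hmem : (z.re : ℂ) ∈ verticalClosedStrip l u := by
    simp only [verticalClosedStrip, mem_preimage, mem_Icc, ofReal_re]
    exact ⟨hzl, hzu⟩
  have key := norm_le_interp_of_mem_verticalClosedStrip' hlu hmem hgd hgB
    (edge l A1 p hA1 hp hl) (edge u A2 q hA2 hq hu)
  rw [ofReal_re] at key
  have hgz : ‖g (z.re : ℂ)‖ = ‖f z‖ * Real.exp (z.re ^ 2) := by
    simp only [hg, norm_mul]
    rw [norm_exp_sq]
    congr 2
    · congr 1
      exact Complex.re_add_im z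
    · simp
  rw [hgz] at key
  set θ := (z.re - l) / (u - l) with hθ
  have hθ0 : 0 ≤ θ := div_nonneg (by linarith) (by linarith)
  have hθ1 : θ ≤ 1 := by rw [hθ, div_le_one (by linarith)]; linarith
  have hY : 0 < 1 + |y| := by positivity
  have hM : 0 < max K1 K2 := lt_max_of_lt_left hK1pos
  have e1 : (K1 * (1 + |y|) ^ p) ^ (1 - θ) ≤ (max K1 K2) ^ (1 - θ) * (1 + |y|) ^ ((1 - θ) * p) := by
    rw [Real.mul_rpow hK1pos.le (by positivity), ← Real.rpow_mul hY.le, mul_comm p (1 - θ)]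
    apply mul_le_mul_of_nonneg_right _ (by positivity)
    exact Real.rpow_le_rpow hK1pos.le (le_max_left _ _) (by linarith)
  have e2 : (K2 * (1 + |y|) ^ q) ^ θ ≤ (max K1 K2) ^ θ * (1 + |y|) ^ (θ * q) := by
    rw [Real.mul_rpow hK2pos.le (by positivity), ← Real.rpow_mul hY.le, mul_comm q θ]
    apply mul_le_mul_of_nonneg_right _ (by positivity)
    exact Real.rpow_le_rpow hK2pos.le (le_max_right _ _) hθ0
  have hone : 1 ≤ Real.exp (z.re ^ 2) := Real.one_le_exp (sq_nonneg _)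
  calc ‖f z‖ ≤ ‖f z‖ * Real.exp (z.re ^ 2) := le_mul_of_one_le_right (norm_nonneg _) hone
    _ ≤ (K1 * (1 + |y|) ^ p) ^ (1 - θ) * (K2 * (1 + |y|) ^ q) ^ θ := key
    _ ≤ ((max K1 K2) ^ (1 - θ) * (1 + |y|) ^ ((1 - θ) * p)) *
        ((max K1 K2) ^ θ * (1 + |y|) ^ (θ * q)) := by
          apply mul_le_mul e1 e2 (by positivity) (by positivity)
    _ = ((max K1 K2) ^ (1 - θ) * (max K1 K2) ^ θ) *
        ((1 + |y|) ^ ((1 - θ) * p) * (1 + |y|) ^ (θ * q)) := by ring
    _ = max K1 K2 * (1 + |y|) ^ ((1 - θ) * p + θ * q) := by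
          rw [← Real.rpow_add hM, ← Real.rpow_add hY]
          simp

end Pool.Agent.Lib.MP_6bc78b_nt
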