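import Mathlib
import Pool.Agent.Lib.MP_6bc78b_nt.Interp

set_option autoImplicit false

open Complex Set Filter Topology MeasureTheory
open Complex.HadamardThreeLines

namespace Pool.Agent.Lib.MP_6bc78b_nt


/-- On a vertical line `Re s = σ > 1` the zeta function is bounded above and below. -/
lemma exists_zeta_bounds {σ : ℝ} (hσ : 1 < σ) :
    ∃ M : ℝ, 0 < M ∧ ∀ s : ℂ, s.re = σ → ‖riemannZeta s‖ ≤ M ∧ 1 ≤ M * ‖riemannZeta s‖ := by
  have hs1 : LSeriesSummable (1 : ℕ → ℂ) (σ : ℂ) := by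
    rw [LSeriesSummable_one_iff]; simpa using hσ
  set M := ∑' n, ‖LSeries.term (1 : ℕ → ℂ) (σ : ℂ) n‖ with hM
  have hsumm : Summable fun n => ‖LSeries.term (1 : ℕ → ℂ) (σ : ℂ) n‖ := hs1.norm
  have hbound : ∀ (f : ℕ → ℂ), (∀ n, ‖f n‖ ≤ 1) → ∀ s : ℂ, s.re = σ →
      ‖LSeries f s‖ ≤ M := by
    intro f hf s hs
    have hle : ∀ n, ‖LSeries.term f s n‖ ≤ ‖LSeries.term (1 : ℕ → ℂ) (σ : ℂ) n‖ := by
      intro n
      refine (LSeries.norm_term_le s (g := (1 : ℕ → ℂ)) (by simpa using hf n)).trans ?_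
      exact LSeries.norm_term_le_of_re_le_re _ (by simp [hs]) n
    have hsum' : Summable fun n => ‖LSeries.term f s n‖ :=
      hsumm.of_nonneg_of_le (fun n => norm_nonneg _) hle
    calc ‖LSeries f s‖ ≤ ∑' n, ‖LSeries.term f s n‖ := norm_tsum_le_tsum_norm hsum'
      _ ≤ M := hsum'.tsum_le_tsum hle hsumm
  have hzeta : ∀ s : ℂ, s.re = σ → ‖riemannZeta s‖ ≤ M := by
    intro s hs
    rw [← LSeries_one_eq_riemannZeta (by rw [hs]; exact hσ)]
    exact hbound 1 (by simp) s hs
  have hmoeb : ∀ s : ℂ, s.re = σ → 1 ≤ M * ‖riemannZeta s‖ := by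
    intro s hs
    have h1 : 1 < s.re := by rw [hs]; exact hσ
    have h2 := LSeries_one_mul_Lseries_moebius h1
    rw [LSeries_one_eq_riemannZeta h1] at h2
    have h3 : ‖LSeries (fun n => ((ArithmeticFunction.moebius n : ℤ) : ℂ)) s‖ ≤ M := by
      apply hbound _ _ s hs
      intro n
      rw [Complex.norm_intCast]
      exact_mod_cast ArithmeticFunction.abs_moebius_le_one
    have h4 : ‖riemannZeta s‖ * ‖LSeries (fun n => ((ArithmeticFunction.moebius n : ℤ) : ℂ)) s‖ = 1 := by
      rw [← norm_mul, h2, norm_one]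
    nlinarith [norm_nonneg (riemannZeta s)]
  refine ⟨M, ?_, fun s hs => ⟨hzeta s hs, hmoeb s hs⟩⟩
  have h := hmoeb (σ : ℂ) (by simp)
  by_contra hneg
  push Not at hneg
  have := mul_nonpos_of_nonpos_of_nonneg hneg (norm_nonneg (riemannZeta (σ:ℂ)))
  linarith

/-- `|Γ(1+it)|² |sinh πt| = π|t|`. -/
lemma norm_Gamma_one_add_sq (t : ℝ) :
    ‖Complex.Gamma (1 + t * I)‖ ^ 2 * |Real.sinh (Real.pi * t)| = Real.pi * |t| := by
  rcases eq_or_ne t 0 with rfl | ht
  · simp
  have hz : (t * I : ℂ) ≠ 0 := mul_ne_zero (by exact_mod_cast ht) I_ne_zero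
  have h1 : Complex.Gamma (1 + t * I) = (t * I) * Complex.Gamma (t * I) := by
    rw [add_comm, Complex.Gamma_add_one _ hz]
  have h2 := Complex.Gamma_mul_Gamma_one_sub (t * I)
  have h3 : Complex.sin (Real.pi * (t * I)) = Complex.sinh ((Real.pi * t : ℝ) : ℂ) * I := by
    rw [← Complex.sin_mul_I]; congr 1; push_cast; ring
  have h4 : Complex.Gamma (1 - t * I) = (starRingEnd ℂ) (Complex.Gamma (1 + t * I)) := by
    rw [← Complex.Gamma_conj]; congr 1; simp [sub_eq_add_neg]
  have hsinh : Real.sinh (Real.pi * t) ≠ 0 := by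
    rw [Ne, Real.sinh_eq_zero]
    exact mul_ne_zero Real.pi_ne_zero ht
  have hsinhC : Complex.sinh ((Real.pi * t : ℝ) : ℂ) ≠ 0 := by
    rw [← Complex.ofReal_sinh]; exact_mod_cast hsinh
  have h5 : ‖Complex.Gamma (1 + t * I)‖ ^ 2 =
      ‖Complex.Gamma (1 + t * I) * Complex.Gamma (1 - t * I)‖ := by
    rw [norm_mul, h4, Complex.norm_conj, sq]
  rw [h5, h1, mul_assoc, h2, h3, norm_mul, norm_div, norm_mul, norm_mul]
  rw [← Complex.ofReal_sinh]
  simp only [Complex.norm_real, norm_I, mul_one, Real.norm_eq_abs]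
  rw [abs_of_pos Real.pi_pos]
  have : |Real.sinh (Real.pi * t)| ≠ 0 := abs_ne_zero.2 hsinh
  field_simp

lemma cosh_le_two_mul_sinh {x : ℝ} (hx : 1 ≤ x) : Real.cosh x ≤ 2 * Real.sinh x := by
  rw [Real.cosh_eq, Real.sinh_eq]
  have h1 : 1 ≤ Real.exp x * Real.exp (-x) := by rw [← Real.exp_add]; simp
  have h2 : 2 ≤ Real.exp x := by linarith [Real.add_one_le_exp x]
  have h3 : Real.exp (-x) * Real.exp x = 1 := by rw [← Real.exp_add]; simp
  have h4 : 0 < Real.exp (-x) := Real.exp_pos _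
  nlinarith

lemma norm_cosh_I (x : ℝ) : ‖Complex.cos (x * I)‖ = Real.cosh x := by
  rw [Complex.cos_mul_I, ← Complex.ofReal_cosh, Complex.norm_real, Real.norm_eq_abs,
    abs_of_pos (Real.cosh_pos x)]

lemma norm_sin_I (x : ℝ) : ‖Complex.sin (x * I)‖ = |Real.sinh x| := by
  rw [Complex.sin_mul_I, norm_mul, norm_I, mul_one, ← Complex.ofReal_sinh, Complex.norm_real,
    Real.norm_eq_abs]

/-- The combination `Γ(s) cos(πs/2)` grows at most like `(1+|t|)^(1/2+δ)` on `Re s = 1 + δ`. -/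
lemma exists_norm_Gamma_cos_le :
    ∃ C : ℝ, 0 < C ∧ ∀ s : ℂ, 1 ≤ s.re → s.re ≤ 2 →
      ‖Complex.Gamma s * Complex.cos (Real.pi * s / 2)‖ ≤ C * (1 + |s.im|) ^ (s.re - 1 / 2) := by
  set f : ℂ → ℂ := fun s => Complex.Gamma s * Complex.cos (Real.pi * s / 2) with hf
  have hcl : closure (verticalStrip 1 2) = verticalClosedStrip 1 2 := by
    rw [verticalStrip, verticalClosedStrip, Complex.closure_preimage_re,
      closure_Ioo (by norm_num)]
  have hd : DiffContOnCl ℂ f (verticalStrip 1 2) := by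
    apply DifferentiableOn.diffContOnCl
    rw [hcl]
    intro s hs
    simp only [verticalClosedStrip, mem_preimage, mem_Icc] at hs
    apply DifferentiableAt.differentiableWithinAt
    apply DifferentiableAt.mul
    · apply Complex.differentiableAt_Gamma
      intro m hm
      have := congrArg Complex.re hm
      simp at this
      have h2 : (0:ℝ) ≤ m := Nat.cast_nonneg m
      linarith [hs.1]
    · fun_prop
  have hcptΓ : IsCompact (Icc (1:ℝ) 2) := isCompact_Icc
  obtain ⟨G, hG⟩ := hcptΓ.exists_bound_of_continuousOn (f := Real.Gamma) (by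
    intro x hx
    exact (Real.differentiableAt_Gamma (fun m => by
      have : (1:ℝ) ≤ x := hx.1
      have h2 : (0:ℝ) ≤ m := Nat.cast_nonneg m
      linarith)).continuousAt.continuousWithinAt)
  have hG0 : 0 ≤ G := (norm_nonneg _).trans (hG 1 ⟨by norm_num, by norm_num⟩)
  have him : ∀ s : ℂ, ((Real.pi : ℂ) * s / 2).im = Real.pi / 2 * s.im := by
    intro s
    rw [mul_div_assoc, Complex.im_ofReal_mul]; simp; ring
  have hcrude : ∀ z : ℂ, 1 ≤ z.re → z.re ≤ 2 → ‖f z‖ ≤ G * Real.exp (2 * |z.im|) := by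
    intro z h1 h2
    simp only [hf, norm_mul]
    have c1 : ‖Complex.Gamma z‖ ≤ G :=
      (norm_Gamma_le (by linarith)).trans ((le_abs_self _).trans (hG _ ⟨h1, h2⟩))
    have c2 : ‖Complex.cos (Real.pi * z / 2)‖ ≤ Real.exp (2 * |z.im|) := by
      refine (norm_cos_le _).trans ?_
      apply Real.exp_le_exp.2
      rw [him, abs_mul, abs_of_pos (by positivity)]
      have : Real.pi / 2 ≤ 2 := by linarith [Real.pi_le_four]
      nlinarith [abs_nonneg z.im]
    exact mul_le_mul c1 c2 (norm_nonneg _) hG0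
  -- left edge
  have hl : ∀ z : ℂ, z.re = 1 → ‖f z‖ ≤ 2 * (1 + |z.im|) ^ (1 / 2 : ℝ) := by
    intro z hz
    set t := z.im with ht
    have hzeq : z = 1 + t * I := by
      apply Complex.ext <;> simp [hz, ht]
    have hcos : ‖Complex.cos (Real.pi * z / 2)‖ = |Real.sinh (Real.pi * t / 2)| := by
      have : (Real.pi : ℂ) * z / 2 = ((Real.pi * t / 2 : ℝ) : ℂ) * I + Real.pi / 2 := by
        rw [hzeq]; push_cast; ring
      rw [this, Complex.cos_add_pi_div_two, norm_neg, norm_sin_I]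
    have hG1 := norm_Gamma_one_add_sq t
    have hs2 : Real.sinh (Real.pi * t) = 2 * Real.sinh (Real.pi * t / 2) *
        Real.cosh (Real.pi * t / 2) := by
      rw [← Real.sinh_two_mul]; congr 1; ring
    set S := Real.sinh (Real.pi * t / 2) with hS
    set Ch := Real.cosh (Real.pi * t / 2) with hCh
    have hChpos : 0 < Ch := Real.cosh_pos _
    have hSle : |S| ≤ Ch := by
      have h := Real.cosh_sq (Real.pi * t / 2)
      apply abs_le_of_sq_le_sq _ hChpos.le
      rw [← hS, ← hCh] at h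
      linarith
    have hsq : ‖f z‖ ^ 2 ≤ Real.pi * |t| / 2 := by
      simp only [hf, norm_mul]
      rw [hcos, mul_pow, hzeq, ← hG1, hs2, abs_mul, abs_mul]
      rw [abs_of_pos hChpos, abs_two]
      have : |S| ^ 2 ≤ |S| * Ch := by nlinarith [abs_nonneg S]
      nlinarith [sq_nonneg ‖Complex.Gamma (1 + t * I)‖]
    have h2 : (2 * (1 + |t|) ^ (1 / 2 : ℝ)) ^ 2 = 4 * (1 + |t|) := by
      rw [mul_pow, ← Real.sqrt_eq_rpow, Real.sq_sqrt (by positivity)]; norm_num
    refine le_of_sq_le_sq ?_ (by positivity)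
    rw [h2]
    have : Real.pi ≤ 4 := Real.pi_le_four
    nlinarith [abs_nonneg t]
  -- right edge
  have hu : ∀ z : ℂ, z.re = 2 → ‖f z‖ ≤ 100 * (1 + |z.im|) ^ (3 / 2 : ℝ) := by
    intro z hz
    set t := z.im with ht
    have hzeq : z = (1 + t * I) + 1 := by
      apply Complex.ext <;> simp [hz, ht]
      norm_num
    have hne : (1 + t * I : ℂ) ≠ 0 := by
      intro h
      have := congrArg Complex.re h
      simp at this
    have hcos : ‖Complex.cos (Real.pi * z / 2)‖ = Real.cosh (Real.pi * t / 2) := by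
      have : (Real.pi : ℂ) * z / 2 = ((Real.pi * t / 2 : ℝ) : ℂ) * I + Real.pi := by
        rw [hzeq]; push_cast; ring
      rw [this, Complex.cos_add_pi, norm_neg, norm_cosh_I]
    have hΓ : Complex.Gamma z = (1 + t * I) * Complex.Gamma (1 + t * I) := by
      rw [hzeq, Complex.Gamma_add_one _ hne]
    have hn : ‖(1 + t * I : ℂ)‖ ≤ 1 + |t| := by
      refine (norm_add_le _ _).trans ?_
      simp
    have hG1 := norm_Gamma_one_add_sq t
    have hs2 : Real.sinh (Real.pi * t) = 2 * Real.sinh (Real.pi * t / 2) *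
        Real.cosh (Real.pi * t / 2) := by
      rw [← Real.sinh_two_mul]; congr 1; ring
    set S := Real.sinh (Real.pi * t / 2) with hS
    set Ch := Real.cosh (Real.pi * t / 2) with hCh
    have hChpos : 0 < Ch := Real.cosh_pos _
    set g := ‖Complex.Gamma (1 + t * I)‖ with hg
    have hg0 : 0 ≤ g := norm_nonneg _
    have hgC : (g * Ch) ^ 2 ≤ 10000 * (1 + |t|) := by
      rcases le_or_gt |t| 1 with h | h
      · have h1 : g ≤ 1 := by
          have : ‖Complex.Gamma (1 + t * I)‖ ≤ Real.Gamma ((1 + t * I : ℂ)).re :=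
            norm_Gamma_le (by simp)
          simpa using this
        have h2 : Ch ≤ 16 := by
          have h3 : Ch ≤ Real.exp |Real.pi * t / 2| := by
            rw [hCh, ← Real.cosh_abs, Real.cosh_eq]
            have := Real.exp_le_exp.2 (by
              have := abs_nonneg (Real.pi * t / 2); linarith :
              -|Real.pi * t / 2| ≤ |Real.pi * t / 2|)
            linarith
          have h4 : |Real.pi * t / 2| ≤ 2 := by
            rw [abs_div, abs_mul, abs_of_pos Real.pi_pos, abs_two]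
            have := Real.pi_le_four
            have := Real.pi_pos
            nlinarith [abs_nonneg t]
          have h5 : Real.exp 2 ≤ 16 := by
            have := Real.exp_one_lt_d9
            have h6 : Real.exp 2 = Real.exp 1 * Real.exp 1 := by rw [← Real.exp_add]; norm_num
            rw [h6]
            nlinarith [Real.exp_pos 1]
          exact h3.trans ((Real.exp_le_exp.2 h4).trans h5)
        have : g * Ch ≤ 1 * 16 := mul_le_mul h1 h2 hChpos.le zero_le_one
        have h0 : 0 ≤ g * Ch := by positivity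
        nlinarith [abs_nonneg t]
      · have h1 : Ch ≤ 2 * |S| := by
          have hx : 1 ≤ |Real.pi * t / 2| := by
            rw [abs_div, abs_mul, abs_of_pos Real.pi_pos, abs_two]
            have := Real.pi_gt_three
            nlinarith [abs_nonneg t]
          have := cosh_le_two_mul_sinh hx
          rw [Real.cosh_abs, ← Real.abs_sinh] at this
          exact this
        have h2 : (g * Ch) ^ 2 ≤ g ^ 2 * |Real.sinh (Real.pi * t)| := by
          rw [hs2, abs_mul, abs_mul, abs_of_pos hChpos, abs_two, mul_pow]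
          apply mul_le_mul_of_nonneg_left _ (sq_nonneg g)
          nlinarith [abs_nonneg S]
        rw [hG1] at h2
        have : Real.pi ≤ 4 := Real.pi_le_four
        nlinarith [abs_nonneg t]
    have hY : 0 < 1 + |t| := by positivity
    have hgC2 : g * Ch ≤ 100 * (1 + |t|) ^ (1 / 2 : ℝ) := by
      refine le_of_sq_le_sq ?_ (by positivity)
      rw [← Real.sqrt_eq_rpow, mul_pow 100, Real.sq_sqrt hY.le]
      linarith
    simp only [hf, norm_mul]
    rw [hcos, hΓ, norm_mul, mul_assoc]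
    calc ‖(1 + t * I : ℂ)‖ * (g * Ch) ≤ (1 + |t|) * (100 * (1 + |t|) ^ (1 / 2 : ℝ)) :=
          mul_le_mul hn hgC2 (by positivity) hY.le
      _ = 100 * ((1 + |t|) ^ (1:ℝ) * (1 + |t|) ^ (1 / 2 : ℝ)) := by rw [Real.rpow_one]; ring
      _ = 100 * (1 + |t|) ^ (3 / 2 : ℝ) := by
          rw [← Real.rpow_add hY]; norm_num
  obtain ⟨C, hC, h⟩ := strip_interp f 1 2 (by norm_num) hd G 2 2 100 (1/2) (3/2) hG0 (by norm_num)
    (by norm_num) (by norm_num) (by norm_num) (by norm_num) hcrude hl hu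
  refine ⟨C, hC, fun s h1 h2 => (h s h1 h2).trans (le_of_eq ?_)⟩
  congr 2
  ring

/-- Convexity (functional equation) bound on `Re s = -δ`, `0 < δ ≤ 1`. -/
lemma exists_zeta_left_bound {δ : ℝ} (hδ : 0 < δ) (hδ1 : δ ≤ 1) :
    ∃ C : ℝ, 0 < C ∧ ∀ s : ℂ, s.re = -δ → ‖riemannZeta s‖ ≤ C * (1 + |s.im|) ^ (1 / 2 + δ) := by
  obtain ⟨C, hC, hΓ⟩ := exists_norm_Gamma_cos_le
  obtain ⟨M, hM, hζ⟩ := exists_zeta_bounds (σ := 1 + δ) (by linarith)
  refine ⟨2 * C * M, by positivity, ?_⟩
  intro s hs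
  set w := 1 - s with hw
  have hwre : w.re = 1 + δ := by rw [hw]; simp [hs]
  have hwim : |w.im| = |s.im| := by rw [hw]; simp
  have hsw : s = 1 - w := by rw [hw]; ring
  have hne : ∀ n : ℕ, w ≠ -n := by
    intro n hn
    have := congrArg Complex.re hn
    simp [hwre] at this
    have h2 : (0:ℝ) ≤ n := Nat.cast_nonneg n
    linarith
  have hne1 : w ≠ 1 := by
    intro h
    have := congrArg Complex.re h
    simp [hwre] at this
    linarith
  have e : riemannZeta s = 2 * (2 * Real.pi) ^ (-w) *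
      (Complex.Gamma w * Complex.cos (Real.pi * w / 2)) * riemannZeta w := by
    rw [hsw, riemannZeta_one_sub hne hne1]; ring
  have b1 : ‖(2 * (2 * Real.pi) ^ (-w) : ℂ)‖ ≤ 2 := by
    rw [norm_mul]
    have h2 : ((2 : ℂ) * Real.pi) = ((2 * Real.pi : ℝ) : ℂ) := by push_cast; ring
    rw [h2, Complex.norm_cpow_eq_rpow_re_of_pos (by positivity)]
    have h3 : (2 * Real.pi) ^ ((-w).re) ≤ 1 := by
      apply Real.rpow_le_one_of_one_le_of_nonpos
      · linarith [Real.pi_gt_three]
      · simp [hwre]; linarith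
    simp only [Complex.norm_ofNat]
    linarith
  have b2 := hΓ w (by rw [hwre]; linarith) (by rw [hwre]; linarith)
  have b3 := (hζ w hwre).1
  rw [hwim, hwre] at b2
  rw [e, norm_mul, norm_mul]
  have hY : 0 < 1 + |s.im| := by positivity
  calc ‖(2 * (2 * Real.pi) ^ (-w) : ℂ)‖ * ‖Complex.Gamma w * Complex.cos (Real.pi * w / 2)‖ *
        ‖riemannZeta w‖ ≤ 2 * (C * (1 + |s.im|) ^ (1 + δ - 1 / 2)) * M := by
        apply mul_le_mul _ b3 (norm_nonneg _) (by positivity)
        exact mul_le_mul b1 b2 (norm_nonneg _) (by norm_num)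
    _ = 2 * C * M * (1 + |s.im|) ^ (1 / 2 + δ) := by
        have : (1 + δ - 1 / 2 : ℝ) = 1 / 2 + δ := by ring
        rw [this]; ring

end Pool.Agent.Lib.MP_6bc78b_nt
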