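import Mathlib
import Pool.Agent.Lib.MP_6bc78b_nt.ZetaBounds
import Pool.Agent.Lib.MP_6bc78b_nt.StripMain

set_option autoImplicit false

open Complex Set Filter Topology

namespace Pool.Agent.Lib.MP_6bc78b_nt

lemma riemannZeta₁_eq {s : ℂ} (hs : s ≠ 1) : riemannZeta₁ s = (s - 1) * riemannZeta s := by
  rw [riemannZeta_eq_inv_sub_mul hs, ← mul_assoc, mul_inv_cancel₀ (sub_ne_zero.2 hs), one_mul]

/-- Main analytic estimate, for the zeros of `ζ` on the critical line, in terms of analytic orders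
of `(s-1)ζ(s)`. -/
theorem zeta_sech_bound (ε : ℝ) (hε : 0 < ε) :
    ∃ T : ℝ, ∀ t : ℝ, T ≤ |t| → ∀ (S : Finset ℝ) (m : ℝ → ℕ),
      (∀ γ ∈ S, (m γ : ℕ∞) ≤ analyticOrderAt riemannZeta₁ (1 / 2 + γ * I)) →
      ∑ γ ∈ S, (m γ : ℝ) / Real.cosh (Real.pi * (t - γ)) ≤
        (1 / (2 * Real.pi) + ε) * Real.log |t| := by
  -- parameters
  set δ := min (1 / 4) (ε / 2) with hδdef
  have hδ : 0 < δ := lt_min (by norm_num) (by linarith)
  have hδ4 : δ ≤ 1 / 4 := min_le_left _ _
  have hδε : δ ≤ ε / 2 := min_le_right _ _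
  set a := 1 / 2 + δ with ha
  have ha0 : 0 < a := by rw [ha]; linarith
  set η := δ / 2 with hη
  have hη0 : 0 < η := by rw [hη]; linarith
  set x := a - η with hx
  have hx0 : 0 ≤ x := by rw [hx, ha, hη]; linarith
  have hxa : x ≤ a := by rw [hx]; linarith
  set y := Real.pi * η / (2 * a) with hy
  have hy0 : 0 < y := by positivity
  have hyδ : y ≤ 2 * δ := by
    rw [hy, hη, div_le_iff₀ (by positivity)]
    have : Real.pi ≤ 4 := Real.pi_le_four
    have h2 : 1 ≤ 2 * a := by rw [ha]; linarith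
    have q1 := mul_le_mul_of_nonneg_right this hδ.le
    have q2 := mul_le_mul_of_nonneg_left h2 hδ.le
    linarith
  have hy1 : y ≤ 1 := by linarith
  set c := Real.sin y with hc
  have hcpos : 0 < c := Real.sin_pos_of_pos_of_le_one hy0 hy1
  have hcy : y * (1 - δ) ≤ c := by
    have h1 := Real.sin_gt_sub_cube hy0
    rw [← hc] at h1
    have h2 : y ^ 2 ≤ (2 * δ) ^ 2 := by gcongr
    have q0 := mul_pos hy0 hδ
    have q1 := mul_le_mul_of_nonneg_left h2 hy0.le
    have q2 := mul_le_mul_of_nonneg_left hδ4 q0.le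
    linarith
  have hΦ : η / 2 / c ≤ 1 / (2 * Real.pi) + ε / 2 := by
    have h1 : 0 < y * (1 - δ) := mul_pos hy0 (by linarith)
    have h2 : η / 2 / c ≤ η / 2 / (y * (1 - δ)) := by gcongr
    have h3 : η / 2 / (y * (1 - δ)) = (1 + 2 * δ) / (1 - δ) / (2 * Real.pi) := by
      rw [hy, ha]
      have : (1 - δ) ≠ 0 := by linarith
      have h5 : (1 / 2 + δ) ≠ 0 := by linarith
      field_simp
    have h4 : (1 + 2 * δ) / (1 - δ) ≤ 1 + 4 * δ := by
      rw [div_le_iff₀ (by linarith)]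
      have q1 := mul_le_mul_of_nonneg_left hδ4 hδ.le
      linarith
    rw [h3] at h2
    have h5 : (1 + 2 * δ) / (1 - δ) / (2 * Real.pi) ≤ (1 + 4 * δ) / (2 * Real.pi) := by gcongr
    have h6 : (1 + 4 * δ) / (2 * Real.pi) = 1 / (2 * Real.pi) + δ * (2 / Real.pi) := by
      field_simp; ring
    have h7 : 2 / Real.pi ≤ 1 := by
      rw [div_le_one Real.pi_pos]; linarith [Real.pi_gt_three]
    have q1 := mul_le_mul_of_nonneg_left h7 hδ.le
    linarith
  -- constants
  obtain ⟨C0, hC0, hcrude⟩ := exists_norm_riemannZeta₁_le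
  obtain ⟨C1, hC1, hleft⟩ := exists_zeta_left_bound hδ (by linarith)
  obtain ⟨M1, hM1, hright⟩ := exists_zeta_bounds (σ := 1 + δ) (by linarith)
  obtain ⟨M2, hM2, hmid⟩ := exists_zeta_bounds (σ := 1 + δ / 2) (by linarith)
  set cA := 2 * C1 * (Real.exp ((1 + a) ^ 2 / 4) * Real.exp (a ^ 2)) with hcA
  set cB := M1 * (Real.exp (1 / 4) * Real.exp (a ^ 2)) with hcB
  have hcApos : 0 < cA := by positivity
  have hcBpos : 0 < cB := by positivity
  set cM := max cA cB with hcM
  have hcMpos : 0 < cM := lt_max_of_lt_left hcApos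
  set L := Real.log (2 * M2 * cM) with hL
  -- threshold
  set T := Real.exp (2 / ε * (|L| / c + (1 / (2 * Real.pi) + ε / 2)) + 1) with hT
  refine ⟨T, ?_⟩
  intro t ht S m hm
  have hεinv : 0 < 1 / (2 * Real.pi) + ε / 2 := by positivity
  have hT1 : 1 ≤ T := Real.one_le_exp (by positivity)
  have ht1 : 1 ≤ |t| := hT1.trans ht
  have ht0 : 0 < |t| := by linarith
  set Y := 1 + |t| with hY
  have hY0 : 0 < Y := by positivity
  -- the function
  set F : ℂ → ℂ := fun z => riemannZeta₁ ((1 / 2 + t * I) + z) * Complex.exp (z ^ 2) with hF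
  have hFd : Differentiable ℂ F := by
    have h1 : Differentiable ℂ (fun z : ℂ => riemannZeta₁ ((1 / 2 + t * I) + z)) :=
      differentiable_riemannZeta₁.comp (by fun_prop)
    exact h1.mul (by fun_prop)
  have hsre : ∀ z : ℂ, ((1 / 2 + t * I) + z : ℂ).re = 1 / 2 + z.re := by
    intro z; simp
  have hsim : ∀ z : ℂ, ((1 / 2 + t * I) + z : ℂ).im = t + z.im := by
    intro z; simp
  have hasq : ∀ z : ℂ, |z.re| ≤ a → z.re ^ 2 ≤ a ^ 2 := by
    intro z hz
    rw [← sq_abs]
    exact pow_le_pow_left₀ (abs_nonneg _) hz 2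
  -- crude bound
  have hK : ∀ z : ℂ, |z.re| ≤ a →
      ‖F z‖ ≤ C0 * Real.exp (3 * |t|) * (Real.exp (9 / 4) * Real.exp (a ^ 2)) := by
    intro z hz
    have hz' := abs_le.1 hz
    have h1 := hcrude ((1 / 2 + t * I) + z) (by rw [hsre]; linarith) (by rw [hsre]; linarith)
    rw [hsim] at h1
    simp only [hF, norm_mul]
    rw [norm_exp_sq]
    have h2 : Real.exp (3 * |t + z.im|) ≤ Real.exp (3 * |t|) * Real.exp (3 * |z.im|) := by
      rw [← Real.exp_add]
      apply Real.exp_le_exp.2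
      have := abs_add_le t z.im
      linarith
    have h3 : Real.exp (3 * |z.im|) * Real.exp (z.re ^ 2 - z.im ^ 2) ≤
        Real.exp (9 / 4) * Real.exp (a ^ 2) := by
      rw [← Real.exp_add, ← Real.exp_add]
      apply Real.exp_le_exp.2
      have h4 := hasq z hz
      have h5 := sq_nonneg (|z.im| - 3 / 2)
      have h6 : |z.im| ^ 2 = z.im ^ 2 := sq_abs _
      linarith
    calc ‖riemannZeta₁ (1 / 2 + t * I + z)‖ * Real.exp (z.re ^ 2 - z.im ^ 2)
        ≤ (C0 * (Real.exp (3 * |t|) * Real.exp (3 * |z.im|))) *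
          Real.exp (z.re ^ 2 - z.im ^ 2) := by
          apply mul_le_mul_of_nonneg_right _ (Real.exp_pos _).le
          exact h1.trans (mul_le_mul_of_nonneg_left h2 hC0.le)
      _ = C0 * Real.exp (3 * |t|) * (Real.exp (3 * |z.im|) * Real.exp (z.re ^ 2 - z.im ^ 2)) := by
          ring
      _ ≤ _ := mul_le_mul_of_nonneg_left h3 (by positivity)
  have hYadd : ∀ v : ℝ, 1 + |t + v| ≤ Y * (1 + |v|) := fun v => one_add_abs_add_le t v
  -- left edge
  have hA : ∀ z : ℂ, z.re = -a → ‖F z‖ ≤ cA * Y ^ (1 + a) := by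
    intro z hz
    set s := (1 / 2 + t * I) + z with hs
    have hsr : s.re = -δ := by rw [hs, hsre, hz, ha]; ring
    have hsi : s.im = t + z.im := by rw [hs, hsim]
    have hs1 : s ≠ 1 := by
      intro h; rw [h] at hsr; simp at hsr; linarith
    have hW : 0 < 1 + |t + z.im| := by positivity
    have h1 := hleft s hsr
    rw [hsi] at h1
    have h2 : ‖s - 1‖ ≤ 2 * (1 + |t + z.im|) := by
      have := Complex.norm_le_abs_re_add_abs_im (s - 1)
      simp only [sub_re, one_re, sub_im, one_im, sub_zero, hsr, hsi] at this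
      have h3 : |-δ - 1| ≤ 2 := by rw [abs_le]; constructor <;> linarith
      have := abs_nonneg (t + z.im)
      linarith
    have h3 : ‖riemannZeta₁ s‖ ≤ 2 * C1 * (1 + |t + z.im|) ^ (1 + a) := by
      rw [riemannZeta₁_eq hs1, norm_mul]
      calc ‖s - 1‖ * ‖riemannZeta s‖
          ≤ (2 * (1 + |t + z.im|)) * (C1 * (1 + |t + z.im|) ^ (1 / 2 + δ)) :=
            mul_le_mul h2 h1 (norm_nonneg _) (by positivity)
        _ = 2 * C1 * ((1 + |t + z.im|) ^ (1 : ℝ) * (1 + |t + z.im|) ^ (1 / 2 + δ)) := by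
            rw [Real.rpow_one]; ring
        _ = 2 * C1 * (1 + |t + z.im|) ^ (1 + a) := by
            rw [← Real.rpow_add hW, ha]
    have h4 : (1 + |t + z.im|) ^ (1 + a) ≤ Y ^ (1 + a) * (1 + |z.im|) ^ (1 + a) := by
      rw [← Real.mul_rpow hY0.le (by positivity)]
      exact Real.rpow_le_rpow hW.le (hYadd z.im) (by linarith)
    have h5 := one_add_abs_rpow_mul_exp_le (1 + a) z.im (by linarith)
    simp only [hF, norm_mul]
    rw [norm_exp_sq]
    have h6 : Real.exp (z.re ^ 2 - z.im ^ 2) = Real.exp (a ^ 2) * Real.exp (-z.im ^ 2) := by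
      rw [← Real.exp_add, hz]; ring_nf
    rw [h6]
    calc ‖riemannZeta₁ s‖ * (Real.exp (a ^ 2) * Real.exp (-z.im ^ 2))
        ≤ (2 * C1 * (Y ^ (1 + a) * (1 + |z.im|) ^ (1 + a))) *
            (Real.exp (a ^ 2) * Real.exp (-z.im ^ 2)) := by
          apply mul_le_mul_of_nonneg_right _ (by positivity)
          exact h3.trans (mul_le_mul_of_nonneg_left h4 (by positivity))
      _ = 2 * C1 * Y ^ (1 + a) * Real.exp (a ^ 2) *
            ((1 + |z.im|) ^ (1 + a) * Real.exp (-z.im ^ 2)) := by ring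
      _ ≤ 2 * C1 * Y ^ (1 + a) * Real.exp (a ^ 2) * Real.exp ((1 + a) ^ 2 / 4) :=
          mul_le_mul_of_nonneg_left h5 (by positivity)
      _ = cA * Y ^ (1 + a) := by rw [hcA]; ring
  -- right edge
  have hB : ∀ z : ℂ, z.re = a → ‖F z‖ ≤ cB * Y := by
    intro z hz
    set s := (1 / 2 + t * I) + z with hs
    have hsr : s.re = 1 + δ := by rw [hs, hsre, hz, ha]; ring
    have hsi : s.im = t + z.im := by rw [hs, hsim]
    have hs1 : s ≠ 1 := by
      intro h; rw [h] at hsr; simp at hsr; linarith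
    have hW : 0 < 1 + |t + z.im| := by positivity
    have h1 := (hright s hsr).1
    have h2 : ‖s - 1‖ ≤ 1 + |t + z.im| := by
      have := Complex.norm_le_abs_re_add_abs_im (s - 1)
      simp only [sub_re, one_re, sub_im, one_im, sub_zero, hsr, hsi] at this
      have h3 : |1 + δ - 1| ≤ 1 := by rw [abs_le]; constructor <;> linarith
      linarith
    have h3 : ‖riemannZeta₁ s‖ ≤ M1 * (Y * (1 + |z.im|)) := by
      rw [riemannZeta₁_eq hs1, norm_mul, mul_comm]
      exact mul_le_mul h1 (h2.trans (hYadd z.im)) (norm_nonneg _) hM1.le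
    have h5 := one_add_abs_rpow_mul_exp_le 1 z.im (by norm_num)
    rw [Real.rpow_one] at h5
    simp only [hF, norm_mul]
    rw [norm_exp_sq]
    have h6 : Real.exp (z.re ^ 2 - z.im ^ 2) = Real.exp (a ^ 2) * Real.exp (-z.im ^ 2) := by
      rw [← Real.exp_add, hz]; ring_nf
    rw [h6]
    calc ‖riemannZeta₁ s‖ * (Real.exp (a ^ 2) * Real.exp (-z.im ^ 2))
        ≤ (M1 * (Y * (1 + |z.im|))) * (Real.exp (a ^ 2) * Real.exp (-z.im ^ 2)) :=
          mul_le_mul_of_nonneg_right h3 (by positivity)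
      _ = M1 * Y * Real.exp (a ^ 2) * ((1 + |z.im|) * Real.exp (-z.im ^ 2)) := by ring
      _ ≤ M1 * Y * Real.exp (a ^ 2) * Real.exp (1 ^ 2 / 4) :=
          mul_le_mul_of_nonneg_left h5 (by positivity)
      _ = cB * Y := by rw [hcB]; ring_nf
  -- the zeros, shifted
  classical
  set S' : Finset ℝ := S.image (fun γ => γ - t) with hS'
  have hm' : ∀ v ∈ S', ((fun v => m (v + t)) v : ℕ∞) ≤ analyticOrderAt F (v * I) := by
    intro v hv
    obtain ⟨γ, hγ, rfl⟩ := Finset.mem_image.1 hv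
    have h1 := hm γ hγ
    have h2 : analyticOrderAt F (((γ - t : ℝ) : ℂ) * I) =
        analyticOrderAt riemannZeta₁ (1 / 2 + γ * I) := by
      have h3 : F = (fun z : ℂ => riemannZeta₁ ((1 / 2 + t * I) + z)) *
          (fun z : ℂ => Complex.exp (z ^ 2)) := rfl
      have h4 : AnalyticAt ℂ (fun z : ℂ => riemannZeta₁ ((1 / 2 + t * I) + z))
          (((γ - t : ℝ) : ℂ) * I) :=
        (differentiable_riemannZeta₁.comp (by fun_prop :
          Differentiable ℂ fun z : ℂ => (1 / 2 + t * I) + z)).analyticAt _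
      have h5 : AnalyticAt ℂ (fun z : ℂ => Complex.exp (z ^ 2)) (((γ - t : ℝ) : ℂ) * I) :=
        (by fun_prop : Differentiable ℂ fun z : ℂ => Complex.exp (z ^ 2)).analyticAt _
      rw [h3, analyticOrderAt_mul h4 h5]
      have h6 : analyticOrderAt (fun z : ℂ => Complex.exp (z ^ 2)) (((γ - t : ℝ) : ℂ) * I) = 0 := by
        rw [h5.analyticOrderAt_eq_zero]; exact Complex.exp_ne_zero _
      rw [h6, add_zero]
      have h7 : (fun z : ℂ => riemannZeta₁ ((1 / 2 + t * I) + z)) =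
          riemannZeta₁ ∘ (fun z : ℂ => (1 / 2 + t * I) + z) := rfl
      rw [h7, analyticOrderAt_comp_of_deriv_ne_zero]
      · congr 1
        push_cast; ring
      · exact (by fun_prop : Differentiable ℂ fun z : ℂ => (1 / 2 + t * I) + z).analyticAt _
      · rw [deriv_const_add]; simp
    simp only [sub_add_cancel]
    rw [h2]
    exact h1
  have key := strip_main ha0 hFd hK S' (fun v => m (v + t)) hm' hA hB hx0 hxa
  -- sum rewriting
  have hinj : ∀ γ₁ ∈ S, ∀ γ₂ ∈ S, γ₁ - t = γ₂ - t → γ₁ = γ₂ := by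
    intro γ₁ _ γ₂ _ h; linarith
  rw [Finset.sum_image hinj] at key
  simp only [sub_add_cancel] at key
  have hcosx : Real.cos (Real.pi / (2 * a) * x) = c := by
    have : Real.pi / (2 * a) * x = Real.pi / 2 - y := by
      rw [hx, hy]; field_simp
    rw [this, Real.cos_pi_div_two_sub]
  rw [hcosx] at key
  -- lower bound for the sum in the exponent
  set Sg := ∑ γ ∈ S, (m γ : ℝ) / Real.cosh (Real.pi * (t - γ)) with hSg
  have hsum : c * Sg ≤ ∑ γ ∈ S, (m γ : ℝ) * (c / Real.cosh (Real.pi / (2 * a) * (γ - t))) := by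
    rw [hSg, Finset.mul_sum]
    apply Finset.sum_le_sum
    intro γ _
    have h1 : Real.cosh (Real.pi / (2 * a) * (γ - t)) ≤ Real.cosh (Real.pi * (t - γ)) := by
      rw [Real.cosh_le_cosh, abs_mul, abs_mul, abs_sub_comm γ t]
      apply mul_le_mul_of_nonneg_right _ (abs_nonneg _)
      rw [abs_of_pos (by positivity), abs_of_pos Real.pi_pos, div_le_iff₀ (by positivity)]
      have : 1 ≤ 2 * a := by rw [ha]; linarith
      have q1 := mul_le_mul_of_nonneg_left this Real.pi_pos.le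
      linarith
    have h2 : 0 < Real.cosh (Real.pi / (2 * a) * (γ - t)) := Real.cosh_pos _
    calc c * ((m γ : ℝ) / Real.cosh (Real.pi * (t - γ)))
        = (m γ : ℝ) * (c / Real.cosh (Real.pi * (t - γ))) := by ring
      _ ≤ (m γ : ℝ) * (c / Real.cosh (Real.pi / (2 * a) * (γ - t))) := by gcongr
  -- lower bound of F at x
  have hFx : |t| / M2 ≤ ‖F x‖ := by
    simp only [hF, norm_mul]
    rw [norm_exp_sq]
    set s := (1 / 2 + t * I) + (x : ℂ) with hs
    have hsr : s.re = 1 + δ / 2 := by rw [hs, hsre, ofReal_re, hx, ha, hη]; ring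
    have hsi : s.im = t := by rw [hs, hsim, ofReal_im, add_zero]
    have hs1 : s ≠ 1 := by
      intro h; rw [h] at hsr; simp at hsr; linarith
    have h1 := (hmid s hsr).2
    have h2 : |t| ≤ ‖s - 1‖ := by
      have := Complex.abs_im_le_norm (s - 1)
      simpa [hsi] using this
    have h3 : 1 / M2 ≤ ‖riemannZeta s‖ := by
      rw [div_le_iff₀ hM2]; linarith
    have h4 : 1 ≤ Real.exp ((x : ℂ).re ^ 2 - (x : ℂ).im ^ 2) := by
      apply Real.one_le_exp; simp; positivity
    rw [riemannZeta₁_eq hs1, norm_mul]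
    calc |t| / M2 = |t| * (1 / M2) := by ring
      _ ≤ ‖s - 1‖ * ‖riemannZeta s‖ := by gcongr
      _ ≤ ‖s - 1‖ * ‖riemannZeta s‖ * Real.exp ((x : ℂ).re ^ 2 - (x : ℂ).im ^ 2) :=
        le_mul_of_one_le_right (by positivity) h4
  -- upper bound
  set θ := (x + a) / (2 * a) with hθ
  have h1θ : 1 - θ = η / (2 * a) := by rw [hθ, hx]; field_simp; ring
  have hθ0 : 0 ≤ θ := by positivity
  have h1θ0 : 0 ≤ 1 - θ := by rw [h1θ]; positivity
  have hupper : (cA * Y ^ (1 + a)) ^ (1 - θ) * (cB * Y) ^ θ ≤ cM * (Y * Y ^ (η / 2)) := by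
    rw [Real.mul_rpow hcApos.le (by positivity), Real.mul_rpow hcBpos.le hY0.le,
      ← Real.rpow_mul hY0.le]
    have h1 : cA ^ (1 - θ) ≤ cM ^ (1 - θ) := Real.rpow_le_rpow hcApos.le (le_max_left _ _) h1θ0
    have h2 : cB ^ θ ≤ cM ^ θ := Real.rpow_le_rpow hcBpos.le (le_max_right _ _) hθ0
    have h3 : (1 + a) * (1 - θ) + θ = 1 + η / 2 := by
      have : (1 + a) * (1 - θ) + θ = 1 + a * (1 - θ) := by ring
      rw [this, h1θ]; field_simp
    calc cA ^ (1 - θ) * Y ^ ((1 + a) * (1 - θ)) * (cB ^ θ * Y ^ θ)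
        = (cA ^ (1 - θ) * cB ^ θ) * (Y ^ ((1 + a) * (1 - θ)) * Y ^ θ) := by ring
      _ ≤ (cM ^ (1 - θ) * cM ^ θ) * (Y ^ ((1 + a) * (1 - θ)) * Y ^ θ) := by gcongr
      _ = cM * (Y * Y ^ (η / 2)) := by
          rw [← Real.rpow_add hcMpos, ← Real.rpow_add hY0, h3, Real.rpow_add hY0,
            Real.rpow_one]
          simp
  have hexp : Real.exp (c * Sg) ≤ 2 * M2 * cM * Y ^ (η / 2) := by
    have h1 : |t| / M2 * Real.exp (c * Sg) ≤ cM * (Y * Y ^ (η / 2)) := by
      calc |t| / M2 * Real.exp (c * Sg) ≤ ‖F x‖ * Real.exp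
            (∑ γ ∈ S, (m γ : ℝ) * (c / Real.cosh (Real.pi / (2 * a) * (γ - t)))) := by
            apply mul_le_mul hFx (Real.exp_le_exp.2 hsum) (Real.exp_pos _).le (norm_nonneg _)
        _ ≤ _ := key
        _ ≤ _ := hupper
    have h2 : Y ≤ 2 * |t| := by rw [hY]; linarith
    have h3 : |t| / M2 * Real.exp (c * Sg) ≤ |t| / M2 * (2 * M2 * cM * Y ^ (η / 2)) := by
      refine h1.trans ?_
      have h4 : 0 ≤ Y ^ (η / 2) := by positivity
      calc cM * (Y * Y ^ (η / 2)) ≤ cM * (2 * |t| * Y ^ (η / 2)) := by gcongr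
        _ = |t| / M2 * (2 * M2 * cM * Y ^ (η / 2)) := by field_simp
    exact le_of_mul_le_mul_left h3 (by positivity)
  have hlog : c * Sg ≤ L + η / 2 * Real.log Y := by
    have h1 := Real.log_le_log (Real.exp_pos _) hexp
    rw [Real.log_exp, Real.log_mul (by positivity) (by positivity), Real.log_rpow hY0] at h1
    exact h1
  have hlogY : Real.log Y ≤ Real.log |t| + 1 := by
    have h1 : Y ≤ |t| * Real.exp 1 := by
      have := Real.add_one_le_exp (1:ℝ)
      have q1 := mul_le_mul_of_nonneg_left this (abs_nonneg t)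
      rw [hY]; linarith
    calc Real.log Y ≤ Real.log (|t| * Real.exp 1) := Real.log_le_log hY0 h1
      _ = Real.log |t| + 1 := by
        rw [Real.log_mul ht0.ne' (Real.exp_pos _).ne', Real.log_exp]
  have hlogt0 : 0 ≤ Real.log |t| := Real.log_nonneg ht1
  have hSg1 : Sg ≤ |L| / c + η / 2 / c * (Real.log |t| + 1) := by
    have h1 : Sg ≤ (L + η / 2 * Real.log Y) / c := by
      rw [le_div_iff₀ hcpos]; linarith
    refine h1.trans ?_
    rw [add_div]
    have h2 : L / c ≤ |L| / c := by gcongr; exact le_abs_self L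
    have h3 : η / 2 * Real.log Y / c ≤ η / 2 / c * (Real.log |t| + 1) := by
      rw [mul_div_right_comm]; gcongr
    linarith
  have hSg2 : Sg ≤ |L| / c + (1 / (2 * Real.pi) + ε / 2) * (Real.log |t| + 1) := by
    refine hSg1.trans ?_
    gcongr
  have hbig : |L| / c + (1 / (2 * Real.pi) + ε / 2) ≤ ε / 2 * Real.log |t| := by
    have h1 : 2 / ε * (|L| / c + (1 / (2 * Real.pi) + ε / 2)) + 1 ≤ Real.log |t| := by
      have := Real.log_le_log (Real.exp_pos _) ht
      rwa [Real.log_exp] at this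
    have h2 : |L| / c + (1 / (2 * Real.pi) + ε / 2) =
        ε / 2 * (2 / ε * (|L| / c + (1 / (2 * Real.pi) + ε / 2))) := by
      field_simp
    rw [h2]
    apply mul_le_mul_of_nonneg_left _ (by positivity)
    linarith
  calc Sg ≤ |L| / c + (1 / (2 * Real.pi) + ε / 2) * (Real.log |t| + 1) := hSg2
    _ = (|L| / c + (1 / (2 * Real.pi) + ε / 2)) +
        (1 / (2 * Real.pi) + ε / 2) * Real.log |t| := by ring
    _ ≤ ε / 2 * Real.log |t| + (1 / (2 * Real.pi) + ε / 2) * Real.log |t| := by linarith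
    _ = (1 / (2 * Real.pi) + ε) * Real.log |t| := by ring

end Pool.Agent.Lib.MP_6bc78b_nt
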