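import Mathlib
import Pool.Agent.Lib.MP_6bc78b_nt.HardyDefs
import Pool.Agent.Lib.MP_6bc78b_nt.ZetaStrip

set_option autoImplicit false

open Complex Set Filter Topology

namespace Pool.Agent.Lib.MP_6bc78b_nt

lemma thetaPhase_eq (t : ℝ) :
    thetaPhase t = Gammaℝ (1 / 2 + t * I) / ‖Gammaℝ (1 / 2 + t * I)‖ := by
  have h1 : Gammaℝ (1 / 2 + t * I) =
      (((Real.pi : ℝ) ^ (-(1 / 4) : ℝ) : ℝ) : ℂ) *
        (Complex.exp (-((t / 2 * Real.log Real.pi : ℝ) * I)) *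
          Complex.Gamma (1 / 4 + t / 2 * I)) := by
    rw [Gammaℝ_def]
    have e1 : (1 / 2 + t * I : ℂ) / 2 = 1 / 4 + t / 2 * I := by ring
    have e2 : -(1 / 2 + t * I : ℂ) / 2 = ((-(1 / 4) : ℝ) : ℂ) + -(t / 2 * I) := by
      push_cast; ring
    rw [e1, e2, Complex.cpow_add _ _ (by exact_mod_cast Real.pi_ne_zero),
      ← Complex.ofReal_cpow Real.pi_pos.le, mul_assoc]
    congr 2
    rw [Complex.cpow_def_of_ne_zero (by exact_mod_cast Real.pi_ne_zero),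
      ← Complex.ofReal_log Real.pi_pos.le]
    congr 1
    push_cast; ring
  have hp : (0:ℝ) < (Real.pi : ℝ) ^ (-(1 / 4) : ℝ) := Real.rpow_pos_of_pos Real.pi_pos _
  have hexp : ‖Complex.exp (-((t / 2 * Real.log Real.pi : ℝ) * I))‖ = 1 := by
    rw [Complex.norm_exp]; simp
  rw [h1, norm_mul, norm_mul, hexp, one_mul, Complex.norm_real, Real.norm_of_nonneg hp.le]
  rw [thetaPhase]
  push_cast
  have hp' : (((Real.pi : ℝ) ^ (-(1 / 4) : ℝ) : ℝ) : ℂ) ≠ 0 := by exact_mod_cast hp.ne'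
  rw [mul_div_mul_left _ _ hp', mul_div_assoc]

lemma conj_crit (t : ℝ) : (starRingEnd ℂ) (1 / 2 + t * I : ℂ) = 1 - (1 / 2 + t * I) := by
  simp only [map_add, map_mul, conj_I, conj_ofReal, map_div₀, map_one, map_ofNat]
  ring

lemma Gammaℝ_conj (s : ℂ) : Gammaℝ ((starRingEnd ℂ) s) = (starRingEnd ℂ) (Gammaℝ s) := by
  rw [Gammaℝ_def, Gammaℝ_def, map_mul, ← Complex.Gamma_conj]
  have h2 : (starRingEnd ℂ) (2 : ℂ) = 2 := map_ofNat _ 2
  have h : (Real.pi : ℂ) ^ (-(starRingEnd ℂ) s / 2) =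
      (starRingEnd ℂ) ((Real.pi : ℂ) ^ (-s / 2)) := by
    rw [Complex.cpow_def_of_ne_zero (by exact_mod_cast Real.pi_ne_zero),
      Complex.cpow_def_of_ne_zero (by exact_mod_cast Real.pi_ne_zero), ← Complex.exp_conj,
      ← Complex.ofReal_log Real.pi_pos.le]
    simp [h2]
  rw [h]
  congr 2
  simp [h2]

/-- `e^{iϑ(t)} ζ(1/2+it)` is real, so it equals `Z(t)`. -/
lemma hardyZ_eq (t : ℝ) : (hardyZ t : ℂ) = thetaPhase t * riemannZeta (1 / 2 + t * I) := by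
  set s : ℂ := 1 / 2 + t * I with hs
  have hs0 : s ≠ 0 := by
    intro h; have := congrArg Complex.re h; simp [hs] at this
  have hs1 : 1 - s ≠ 0 := by
    intro h; have := congrArg Complex.re h; simp [hs] at this; norm_num at this
  have hΓ : Gammaℝ s ≠ 0 := Gammaℝ_ne_zero_of_re_pos (by simp [hs])
  have hΓ' : Gammaℝ (1 - s) ≠ 0 := Gammaℝ_ne_zero_of_re_pos (by simp [hs]; norm_num)
  have h1 : Gammaℝ s * riemannZeta s = completedRiemannZeta s := by
    rw [riemannZeta_def_of_ne_zero hs0]; field_simp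
  have h2 : Gammaℝ (1 - s) * riemannZeta (1 - s) = completedRiemannZeta (1 - s) := by
    rw [riemannZeta_def_of_ne_zero hs1]; field_simp
  have h3 : (starRingEnd ℂ) (Gammaℝ s * riemannZeta s) = Gammaℝ s * riemannZeta s := by
    rw [map_mul, ← Gammaℝ_conj, ← riemannZeta_conj, hs, conj_crit, ← hs, h2,
      completedRiemannZeta_one_sub, ← h1]
  have h4 : (starRingEnd ℂ) (thetaPhase t * riemannZeta s) = thetaPhase t * riemannZeta s := by
    rw [thetaPhase_eq, ← hs, div_mul_eq_mul_div, map_div₀, h3, Complex.conj_ofReal]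
  rw [hardyZ]
  exact (Complex.conj_eq_iff_re.1 h4)

lemma abs_hardyZ (t : ℝ) : |hardyZ t| = ‖riemannZeta (1 / 2 + t * I)‖ := by
  have h := congrArg norm (hardyZ_eq t)
  rw [Complex.norm_real, Real.norm_eq_abs, norm_mul, thetaPhase_eq] at h
  have hΓ : Gammaℝ (1 / 2 + t * I) ≠ 0 := Gammaℝ_ne_zero_of_re_pos (by simp)
  rw [h, norm_div, Complex.norm_real, norm_norm, div_self (norm_ne_zero_iff.2 hΓ), one_mul]

lemma analyticAt_hardyZ (t : ℝ) : AnalyticAt ℝ hardyZ t := by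
  have hline : AnalyticAt ℝ (fun x : ℝ => (1 / 2 + x * I : ℂ)) t :=
    analyticAt_const.add ((Complex.ofRealCLM.analyticAt t).mul analyticAt_const)
  have hζ : AnalyticAt ℝ (fun x : ℝ => riemannZeta (1 / 2 + x * I)) t := by
    have h1 : AnalyticAt ℂ riemannZeta (1 / 2 + t * I) := by
      apply analyticOn_riemannZeta
      intro h
      have := congrArg Complex.re (h : (1 / 2 + t * I : ℂ) = 1)
      simp at this
    exact AnalyticAt.comp (g := riemannZeta) (f := fun x : ℝ => (1 / 2 + x * I : ℂ))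
      (h1.restrictScalars (𝕜 := ℝ)) hline
  have hG : AnalyticAt ℝ (fun x : ℝ => Gammaℝ (1 / 2 + x * I)) t := by
    have h1 : AnalyticAt ℂ (fun s => (Gammaℝ s)⁻¹) (1 / 2 + t * I) :=
      differentiable_Gammaℝ_inv.analyticAt _
    have hne : (Gammaℝ (1 / 2 + t * I))⁻¹ ≠ 0 :=
      inv_ne_zero (Gammaℝ_ne_zero_of_re_pos (by simp))
    have h2 : AnalyticAt ℂ Gammaℝ (1 / 2 + t * I) := by
      have := h1.fun_inv hne
      simpa using this
    exact AnalyticAt.comp (g := Gammaℝ) (f := fun x : ℝ => (1 / 2 + x * I : ℂ))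
      (h2.restrictScalars (𝕜 := ℝ)) hline
  have hnorm : AnalyticAt ℝ (fun x : ℝ => ‖Gammaℝ (1 / 2 + x * I)‖) t := by
    have hre : AnalyticAt ℝ (fun x : ℝ => (Gammaℝ (1 / 2 + x * I)).re) t :=
      (Complex.reCLM.analyticAt _).comp hG
    have him : AnalyticAt ℝ (fun x : ℝ => (Gammaℝ (1 / 2 + x * I)).im) t :=
      (Complex.imCLM.analyticAt _).comp hG
    have hsq : AnalyticAt ℝ (fun x : ℝ => (Gammaℝ (1 / 2 + x * I)).re ^ 2 +
        (Gammaℝ (1 / 2 + x * I)).im ^ 2) t := (hre.pow 2).add (him.pow 2)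
    have hpos : ∀ x : ℝ, 0 < (Gammaℝ (1 / 2 + x * I)).re ^ 2 + (Gammaℝ (1 / 2 + x * I)).im ^ 2 := by
      intro x
      have h1 : Gammaℝ (1 / 2 + x * I) ≠ 0 := Gammaℝ_ne_zero_of_re_pos (by simp)
      have h2 := Complex.normSq_pos.2 h1
      rw [Complex.normSq_apply] at h2
      nlinarith
    have h3 : AnalyticAt ℝ (fun x : ℝ => Real.exp (Real.log ((Gammaℝ (1 / 2 + x * I)).re ^ 2 +
        (Gammaℝ (1 / 2 + x * I)).im ^ 2) / 2)) t := ((hsq.log (hpos t)).div_const).rexp'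
    refine h3.congr (Eventually.of_forall fun x => ?_)
    have h4 : ‖Gammaℝ (1 / 2 + x * I)‖ ^ 2 = (Gammaℝ (1 / 2 + x * I)).re ^ 2 +
        (Gammaℝ (1 / 2 + x * I)).im ^ 2 := by
      rw [← Complex.normSq_eq_norm_sq, Complex.normSq_apply]; ring
    have h5 : 0 < ‖Gammaℝ (1 / 2 + x * I)‖ :=
      norm_pos_iff.2 (Gammaℝ_ne_zero_of_re_pos (by simp))
    simp only
    rw [← h4, Real.log_pow]
    push_cast
    rw [mul_div_cancel_left₀ _ (two_ne_zero), Real.exp_log h5]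
  have hnormC : AnalyticAt ℝ (fun x : ℝ => ((‖Gammaℝ (1 / 2 + x * I)‖ : ℝ) : ℂ)) t :=
    (Complex.ofRealCLM.analyticAt _).comp hnorm
  have hquot : AnalyticAt ℝ (fun x : ℝ => Gammaℝ (1 / 2 + x * I) /
      ((‖Gammaℝ (1 / 2 + x * I)‖ : ℝ) : ℂ) * riemannZeta (1 / 2 + x * I)) t := by
    apply (hG.div hnormC _).mul hζ
    have h5 : 0 < ‖Gammaℝ (1 / 2 + t * I)‖ :=
      norm_pos_iff.2 (Gammaℝ_ne_zero_of_re_pos (by simp))
    exact_mod_cast h5.ne'
  have hfin : AnalyticAt ℝ (fun x : ℝ => (Gammaℝ (1 / 2 + x * I) /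
      ((‖Gammaℝ (1 / 2 + x * I)‖ : ℝ) : ℂ) * riemannZeta (1 / 2 + x * I)).re) t :=
    (Complex.reCLM.analyticAt _).comp hquot
  refine hfin.congr (Eventually.of_forall fun x => ?_)
  simp only [hardyZ, thetaPhase_eq]

/-- The order of vanishing of `Z` at `γ` is at most the order of `(s-1)ζ(s)` at `1/2+iγ`. -/
lemma zeroMult_le (γ : ℝ) :
    (zeroMult γ : ℕ∞) ≤ analyticOrderAt riemannZeta₁ (1 / 2 + γ * I) := by
  set n := zeroMult γ with hn
  set s₀ : ℂ := 1 / 2 + γ * I with hs₀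
  have hZ := analyticAt_hardyZ γ
  have h1 : (n : ℕ∞) ≤ analyticOrderAt hardyZ γ := by
    rw [natCast_le_analyticOrderAt_iff_iteratedDeriv_eq_zero hZ]
    intro i hi
    by_contra hne
    have : zeroMult γ ≤ i := Nat.sInf_le hne
    omega
  obtain ⟨g, hg, hgeq⟩ := (natCast_le_analyticOrderAt hZ).1 h1
  by_contra hlt
  push Not at hlt
  -- finite order k < n
  have hζan : AnalyticAt ℂ riemannZeta₁ s₀ := differentiable_riemannZeta₁.analyticAt _
  obtain ⟨k, hk⟩ : ∃ k : ℕ, analyticOrderAt riemannZeta₁ s₀ = k :=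
    ENat.ne_top_iff_exists.1 (ne_top_of_lt hlt) |>.imp fun k hk => hk.symm
  have hkn : k < n := by rw [hk] at hlt; exact_mod_cast hlt
  obtain ⟨q, hq, hq0, hqeq⟩ := (hζan.analyticOrderAt_eq_natCast).1 hk
  have hline : Tendsto (fun x : ℝ => (1 / 2 + x * I : ℂ)) (𝓝[≠] γ) (𝓝 s₀) := by
    have : Continuous (fun x : ℝ => (1 / 2 + x * I : ℂ)) := by fun_prop
    exact (this.tendsto γ).mono_left nhdsWithin_le_nhds
  have hne1 : ∀ x : ℝ, (1 / 2 + x * I : ℂ) ≠ 1 := by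
    intro x h
    have := congrArg Complex.re h
    simp at this
  -- on the line: |q(1/2+ix)| = |1/2+ix-1| |x-γ|^(n-k) |g x|
  have hev : ∀ᶠ x : ℝ in 𝓝[≠] γ, ‖q (1 / 2 + x * I)‖ =
      ‖(1 / 2 + x * I : ℂ) - 1‖ * (|x - γ| ^ (n - k) * |g x|) := by
    filter_upwards [hline.eventually hqeq, hgeq.filter_mono nhdsWithin_le_nhds,
      self_mem_nhdsWithin] with x hx1 hx2 hx3
    have hxγ : x - γ ≠ 0 := sub_ne_zero.2 hx3
    have hxpos : 0 < |x - γ| := abs_pos.2 hxγ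
    have e1 : ‖riemannZeta₁ (1 / 2 + x * I)‖ =
        ‖(1 / 2 + x * I : ℂ) - 1‖ * (|x - γ| ^ n * |g x|) := by
      rw [riemannZeta₁_eq (hne1 x), norm_mul, ← abs_hardyZ, hx2, smul_eq_mul, abs_mul, abs_pow]
    have e2 : (1 / 2 + x * I : ℂ) - s₀ = ((x - γ : ℝ) : ℂ) * I := by
      rw [hs₀]; push_cast; ring
    rw [hx1, smul_eq_mul, norm_mul, e2, norm_pow, norm_mul, norm_I, mul_one, Complex.norm_real,
      Real.norm_eq_abs] at e1
    have e3 : |x - γ| ^ n = |x - γ| ^ k * |x - γ| ^ (n - k) := by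
      rw [← pow_add]; congr 1; omega
    rw [e3] at e1
    have hpk : |x - γ| ^ k ≠ 0 := (pow_pos hxpos k).ne'
    apply mul_left_cancel₀ hpk
    rw [e1]; ring
  have hlim1 : Tendsto (fun x : ℝ => ‖q (1 / 2 + x * I)‖) (𝓝[≠] γ) (𝓝 ‖q s₀‖) :=
    ((hq.continuousAt.tendsto).comp hline).norm
  have hlim2 : Tendsto (fun x : ℝ => ‖(1 / 2 + x * I : ℂ) - 1‖ * (|x - γ| ^ (n - k) * |g x|))
      (𝓝[≠] γ) (𝓝 (‖s₀ - 1‖ * (|γ - γ| ^ (n - k) * |g γ|))) := by
    apply Tendsto.mul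
    · exact (hline.sub_const 1).norm
    · apply Tendsto.mul
      · have : Continuous (fun x : ℝ => |x - γ| ^ (n - k)) := by fun_prop
        exact (this.tendsto γ).mono_left nhdsWithin_le_nhds
      · exact (hg.continuousAt.tendsto.mono_left nhdsWithin_le_nhds).abs
  have hlim3 := hlim2.congr' (hev.mono fun x hx => hx.symm)
  have := tendsto_nhds_unique hlim1 hlim3
  have hnk : n - k ≠ 0 := by omega
  simp [hnk] at this
  exact hq0 this

end Pool.Agent.Lib.MP_6bc78b_nt
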