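import Mathlib
import Pool.Agent.Lib.MP_6bc78b_nt.Crude

set_option autoImplicit false

open Complex Set Filter Topology Finset

namespace Pool.Agent.Lib.MP_6bc78b_nt

/-- The correction terms in the Euler summation of `(s-1) ζ(s)`. -/
noncomputable def bt (n : ℕ) (s : ℂ) : ℂ :=
  (s - 1) * (n : ℂ) ^ (-s) + (((n + 1 : ℕ) : ℂ) ^ (1 - s) - (n : ℂ) ^ (1 - s))

lemma norm_bt_le {n : ℕ} (hn : 1 ≤ n) {s : ℂ} (hs : 0 < s.re) :
    ‖bt n s‖ ≤ ‖s‖ * ‖s - 1‖ * (n : ℝ) ^ (-s.re - 1) := by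
  have hn0 : (0:ℝ) < n := by exact_mod_cast hn
  -- first step
  have h1 : ∀ x ∈ Set.Icc (n:ℝ) (n + 1), ‖((n : ℝ) : ℂ) ^ (-s) - (x : ℂ) ^ (-s)‖ ≤
      ‖s‖ * (n : ℝ) ^ (-s.re - 1) := by
    intro x hx
    have hder : ∀ y ∈ Set.Icc (n:ℝ) (n + 1),
        HasDerivWithinAt (fun y : ℝ => (y : ℂ) ^ (-s)) (-s * (y : ℂ) ^ (-s - 1))
          (Set.Icc (n:ℝ) (n + 1)) y := by
      intro y hy
      have hy0 : 0 < y := lt_of_lt_of_le hn0 hy.1
      have h2 : HasDerivAt (fun z : ℂ => z ^ (-s)) (-s * (y:ℂ) ^ (-s - 1) * 1) (y : ℂ) :=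
        (hasDerivAt_id (y:ℂ)).cpow_const (Or.inl (by simpa using hy0))
      have h3 := h2.comp_ofReal
      rw [mul_one] at h3
      exact h3.hasDerivWithinAt
    have hb : ∀ y ∈ Set.Icc (n:ℝ) (n + 1), ‖-s * (y : ℂ) ^ (-s - 1)‖ ≤
        ‖s‖ * (n : ℝ) ^ (-s.re - 1) := by
      intro y hy
      have hy0 : 0 < y := lt_of_lt_of_le hn0 hy.1
      rw [norm_mul, norm_neg, norm_cpow_eq_rpow_re_of_pos hy0]
      have e : (-s - 1).re = -s.re - 1 := by simp
      rw [e]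
      exact mul_le_mul_of_nonneg_left (Real.rpow_le_rpow_of_nonpos hn0 hy.1 (by linarith))
        (norm_nonneg _)
    have := (convex_Icc (n:ℝ) (n + 1)).norm_image_sub_le_of_norm_hasDerivWithin_le hder hb
      hx (Set.left_mem_Icc.2 (by linarith))
    refine this.trans ?_
    have h4 : ‖(n:ℝ) - x‖ ≤ 1 := by
      rw [Real.norm_eq_abs, abs_le]; constructor <;> linarith [hx.1, hx.2]
    calc ‖s‖ * (n : ℝ) ^ (-s.re - 1) * ‖(n:ℝ) - x‖ ≤ ‖s‖ * (n : ℝ) ^ (-s.re - 1) * 1 := by gcongr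
      _ = _ := by ring
  -- second step
  have hder : ∀ y ∈ Set.Icc (n:ℝ) (n + 1),
      HasDerivWithinAt (fun y : ℝ => (s - 1) * ((y : ℂ) * ((n : ℝ) : ℂ) ^ (-s)) + (y : ℂ) ^ (1 - s))
        ((s - 1) * (((n : ℝ) : ℂ) ^ (-s) - (y : ℂ) ^ (-s)))
        (Set.Icc (n:ℝ) (n + 1)) y := by
    intro y hy
    have hy0 : 0 < y := lt_of_lt_of_le hn0 hy.1
    have h2 : HasDerivAt (fun z : ℂ => z ^ (1 - s)) ((1 - s) * (y:ℂ) ^ (1 - s - 1) * 1) (y : ℂ) :=
      (hasDerivAt_id (y:ℂ)).cpow_const (Or.inl (by simpa using hy0))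
    have h3 : HasDerivAt (fun z : ℂ => (s - 1) * (z * ((n : ℝ) : ℂ) ^ (-s)))
        ((s - 1) * (1 * ((n : ℝ) : ℂ) ^ (-s))) (y : ℂ) :=
      ((hasDerivAt_id (y:ℂ)).mul_const _).const_mul _
    have h4 := (h3.add h2).comp_ofReal
    have e : (s - 1) * (1 * ((n : ℝ) : ℂ) ^ (-s)) + (1 - s) * (y:ℂ) ^ (1 - s - 1) * 1 =
        (s - 1) * (((n : ℝ) : ℂ) ^ (-s) - (y : ℂ) ^ (-s)) := by
      rw [show (1 - s - 1 : ℂ) = -s by ring]; ring
    rw [e] at h4
    exact h4.hasDerivWithinAt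
  have hb : ∀ y ∈ Set.Icc (n:ℝ) (n + 1), ‖(s - 1) * (((n : ℝ) : ℂ) ^ (-s) - (y : ℂ) ^ (-s))‖ ≤
      ‖s‖ * ‖s - 1‖ * (n : ℝ) ^ (-s.re - 1) := by
    intro y hy
    rw [norm_mul]
    calc ‖s - 1‖ * ‖((n : ℝ) : ℂ) ^ (-s) - (y : ℂ) ^ (-s)‖
        ≤ ‖s - 1‖ * (‖s‖ * (n : ℝ) ^ (-s.re - 1)) := by gcongr; exact h1 y hy
      _ = _ := by ring
  have := (convex_Icc (n:ℝ) (n + 1)).norm_image_sub_le_of_norm_hasDerivWithin_le hder hb
    (Set.left_mem_Icc.2 (by linarith)) (Set.right_mem_Icc.2 (by linarith))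
  have e : ‖(n:ℝ) + 1 - n‖ = 1 := by simp
  rw [e, mul_one] at this
  refine le_trans (le_of_eq ?_) this
  congr 1
  rw [bt]
  push_cast
  ring

lemma summable_bt_bound (N : ℕ) {σ : ℝ} (hσ : 0 < σ) :
    Summable fun k : ℕ => ((N + k : ℕ) : ℝ) ^ (-σ - 1) := by
  have h := (Real.summable_nat_rpow (p := -σ - 1)).2 (by linarith)
  have := (summable_nat_add_iff N).2 h
  simpa [add_comm] using this

lemma summable_bt {N : ℕ} (hN : 1 ≤ N) {s : ℂ} (hs : 0 < s.re) :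
    Summable fun k : ℕ => bt (N + k) s := by
  refine Summable.of_norm_bounded (g := fun k : ℕ => ‖s‖ * ‖s - 1‖ * ((N + k : ℕ) : ℝ) ^ (-s.re - 1))
    ((summable_bt_bound N hs).mul_left _) fun k => ?_
  exact norm_bt_le (by omega) hs

/-- Telescoped form of the Euler summation. -/
lemma riemannZeta₁_eq_sum_of_one_lt {s : ℂ} (hs : 1 < s.re) {N : ℕ} (hN : 1 ≤ N) :
    riemannZeta₁ s = (s - 1) * ∑ n ∈ Finset.Ico 1 N, (n : ℂ) ^ (-s) + (N : ℂ) ^ (1 - s) +
      ∑' k : ℕ, bt (N + k) s := by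
  have hs0 : s ≠ 0 := by rintro rfl; simp at hs; linarith
  have hs1 : s ≠ 1 := by rintro rfl; simp at hs
  have hsum : Summable fun n : ℕ => (n : ℂ) ^ (-s) := by
    have := Complex.summable_one_div_nat_cpow.2 hs
    refine this.congr fun n => ?_
    rw [one_div, Complex.cpow_neg]
  have hzeta : riemannZeta s = ∑' n : ℕ, (n : ℂ) ^ (-s) := by
    rw [zeta_eq_tsum_one_div_nat_cpow hs]
    exact tsum_congr fun n => by rw [one_div, Complex.cpow_neg]
  have hsplit := hsum.sum_add_tsum_nat_add N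
  have hrange : ∑ n ∈ Finset.range N, (n : ℂ) ^ (-s) = ∑ n ∈ Finset.Ico 1 N, (n : ℂ) ^ (-s) := by
    rw [← Finset.sum_range_add_sum_Ico _ hN]
    simp [Complex.zero_cpow (neg_ne_zero.2 hs0)]
  have hsumN : Summable fun k : ℕ => ((N + k : ℕ) : ℂ) ^ (-s) := by
    have := (summable_nat_add_iff N).2 hsum
    simpa [add_comm] using this
  have htail : ∑' k : ℕ, ((k + N : ℕ) : ℂ) ^ (-s) = ∑' k : ℕ, ((N + k : ℕ) : ℂ) ^ (-s) :=
    tsum_congr fun k => by rw [add_comm]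
  -- the telescoping part
  have hb := summable_bt hN (s := s) (by linarith)
  set d : ℕ → ℂ := fun k => ((N + k + 1 : ℕ) : ℂ) ^ (1 - s) - ((N + k : ℕ) : ℂ) ^ (1 - s) with hd
  have hdsum : Summable d := by
    refine (hb.sub (hsumN.mul_left (s - 1))).congr fun k => ?_
    simp only [bt, hd]
    ring
  have hd_tsum : ∑' k, d k = -(N : ℂ) ^ (1 - s) := by
    refine HasSum.tsum_eq ?_
    rw [hdsum.hasSum_iff_tendsto_nat]
    have hpart : ∀ K, ∑ k ∈ Finset.range K, d k =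
        ((N + K : ℕ) : ℂ) ^ (1 - s) - (N : ℂ) ^ (1 - s) := by
      intro K
      have := Finset.sum_range_sub (fun k : ℕ => ((N + k : ℕ) : ℂ) ^ (1 - s)) K
      simpa [hd, add_assoc] using this
    simp_rw [hpart]
    have hlim : Tendsto (fun K : ℕ => ((N + K : ℕ) : ℂ) ^ (1 - s)) atTop (𝓝 0) := by
      rw [tendsto_zero_iff_norm_tendsto_zero]
      have h1 : ∀ K : ℕ, ‖((N + K : ℕ) : ℂ) ^ (1 - s)‖ = ((N + K : ℕ) : ℝ) ^ (-(s.re - 1)) := by
        intro K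
        have h2 : (0:ℝ) < ((N + K : ℕ) : ℝ) := by
          have : 0 < N + K := by omega
          exact_mod_cast this
        have := norm_cpow_eq_rpow_re_of_pos h2 (1 - s)
        rw [Complex.ofReal_natCast] at this
        rw [this]
        congr 1
        simp
      simp_rw [h1]
      have h3 : Tendsto (fun x : ℝ => x ^ (-(s.re - 1))) atTop (𝓝 0) :=
        tendsto_rpow_neg_atTop (by linarith)
      refine h3.comp ?_
      refine tendsto_natCast_atTop_atTop.comp ?_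
      exact tendsto_atTop_mono (fun K => Nat.le_add_left K N) tendsto_id
    have := hlim.sub_const ((N : ℂ) ^ (1 - s))
    simpa using this
  have hbt : ∑' k : ℕ, bt (N + k) s =
      (s - 1) * ∑' k : ℕ, ((N + k : ℕ) : ℂ) ^ (-s) + ∑' k, d k := by
    rw [← tsum_mul_left, ← (hsumN.mul_left (s - 1)).tsum_add hdsum]
    rfl
  rw [hbt, hd_tsum]
  have h1 : riemannZeta₁ s = (s - 1) * riemannZeta s := by
    rw [riemannZeta_eq_inv_sub_mul hs1, ← mul_assoc, mul_inv_cancel₀ (sub_ne_zero.2 hs1), one_mul]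
  rw [h1, hzeta, ← hsplit, hrange, htail]
  ring

lemma differentiableAt_bt {n : ℕ} (hn : 1 ≤ n) (s : ℂ) : DifferentiableAt ℂ (bt n) s := by
  have hn0 : (n : ℂ) ≠ 0 := by
    have : 0 < n := hn
    exact_mod_cast this.ne'
  have hn1 : ((n + 1 : ℕ) : ℂ) ≠ 0 := by exact_mod_cast (Nat.succ_ne_zero n)
  have h1 : DifferentiableAt ℂ (fun s : ℂ => (n : ℂ) ^ (-s)) s :=
    (by fun_prop : DifferentiableAt ℂ (fun s : ℂ => -s) s).const_cpow (Or.inl hn0)
  have h2 : DifferentiableAt ℂ (fun s : ℂ => ((n + 1 : ℕ) : ℂ) ^ (1 - s)) s :=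
    (by fun_prop : DifferentiableAt ℂ (fun s : ℂ => 1 - s) s).const_cpow (Or.inl hn1)
  have h3 : DifferentiableAt ℂ (fun s : ℂ => (n : ℂ) ^ (1 - s)) s :=
    (by fun_prop : DifferentiableAt ℂ (fun s : ℂ => 1 - s) s).const_cpow (Or.inl hn0)
  exact ((by fun_prop : DifferentiableAt ℂ (fun s : ℂ => s - 1) s).mul h1).add (h2.sub h3)

/-- Euler summation, continued to `Re s > 1/4`. -/
lemma riemannZeta₁_eq_sum {s : ℂ} (hs : 1 / 4 < s.re) {N : ℕ} (hN : 1 ≤ N) :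
    riemannZeta₁ s = (s - 1) * ∑ n ∈ Finset.Ico 1 N, (n : ℂ) ^ (-s) + (N : ℂ) ^ (1 - s) +
      ∑' k : ℕ, bt (N + k) s := by
  set R : ℝ := ‖s‖ + 3 with hR
  have hR0 : 0 < R := by positivity
  set U : Set ℂ := {z : ℂ | 1 / 4 < z.re} ∩ Metric.ball 0 R with hU
  have hUo : IsOpen U := (isOpen_lt continuous_const Complex.continuous_re).inter Metric.isOpen_ball
  have hUc : Convex ℝ U := (convex_halfSpace_re_gt (1 / 4)).inter (convex_ball 0 R)
  have hsU : s ∈ U := ⟨hs, by simp [hR]⟩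
  have h2U : (2 : ℂ) ∈ U := by
    refine ⟨by norm_num, ?_⟩
    rw [mem_ball_zero_iff, hR]
    have := norm_nonneg s
    simp
    linarith
  have hN0 : (N : ℂ) ≠ 0 := by
    have : 0 < N := hN
    exact_mod_cast this.ne'
  have htsum : DifferentiableOn ℂ (fun z : ℂ => ∑' k : ℕ, bt (N + k) z) U := by
    refine differentiableOn_tsum_of_summable_norm
      (u := fun k : ℕ => R * (R + 1) * ((N + k : ℕ) : ℝ) ^ (-(1 / 4 : ℝ) - 1))
      ((summable_bt_bound N (by norm_num)).mul_left _)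
      (fun k z _ => (differentiableAt_bt (by omega) z).differentiableWithinAt) hUo ?_
    intro k z hz
    have hz1 : 1 / 4 < z.re := hz.1
    have hz2 : ‖z‖ < R := mem_ball_zero_iff.1 hz.2
    have hz3 : ‖z - 1‖ ≤ R + 1 := by
      refine (norm_sub_le _ _).trans ?_
      simp; linarith
    have hk1 : (1:ℝ) ≤ ((N + k : ℕ) : ℝ) := by
      have : 1 ≤ N + k := by omega
      exact_mod_cast this
    refine (norm_bt_le (n := N + k) (by omega) (by linarith)).trans ?_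
    have h5 : ((N + k : ℕ) : ℝ) ^ (-z.re - 1) ≤ ((N + k : ℕ) : ℝ) ^ (-(1 / 4 : ℝ) - 1) :=
      Real.rpow_le_rpow_of_exponent_le hk1 (by linarith)
    gcongr
  have hrhs : DifferentiableOn ℂ (fun z : ℂ => (z - 1) * ∑ n ∈ Finset.Ico 1 N, (n : ℂ) ^ (-z) +
      (N : ℂ) ^ (1 - z) + ∑' k : ℕ, bt (N + k) z) U := by
    refine DifferentiableOn.add (DifferentiableOn.add (DifferentiableOn.mul (by fun_prop) ?_) ?_)
      htsum
    · refine DifferentiableOn.fun_sum fun n hn => ?_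
      have hn1 : 1 ≤ n := (Finset.mem_Ico.1 hn).1
      have hn0 : (n : ℂ) ≠ 0 := by
        have : 0 < n := hn1
        exact_mod_cast this.ne'
      intro z _
      exact ((by fun_prop : DifferentiableAt ℂ (fun s : ℂ => -s) z).const_cpow
        (Or.inl hn0)).differentiableWithinAt
    · intro z _
      exact ((by fun_prop : DifferentiableAt ℂ (fun s : ℂ => 1 - s) z).const_cpow
        (Or.inl hN0)).differentiableWithinAt
  have hlhs : DifferentiableOn ℂ riemannZeta₁ U := differentiable_riemannZeta₁.differentiableOn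
  have hev : riemannZeta₁ =ᶠ[𝓝 (2:ℂ)] (fun z : ℂ => (z - 1) * ∑ n ∈ Finset.Ico 1 N, (n : ℂ) ^ (-z) +
      (N : ℂ) ^ (1 - z) + ∑' k : ℕ, bt (N + k) z) := by
    have hop : {z : ℂ | 1 < z.re} ∈ 𝓝 (2:ℂ) :=
      (isOpen_lt continuous_const Complex.continuous_re).mem_nhds (by norm_num)
    filter_upwards [hop] with z hz
    exact riemannZeta₁_eq_sum_of_one_lt hz hN
  exact (hlhs.analyticOnNhd hUo).eqOn_of_preconnected_of_eventuallyEq (hrhs.analyticOnNhd hUo)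
    hUc.isPreconnected h2U hev hsU

end Pool.Agent.Lib.MP_6bc78b_nt
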