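import Mathlib
import Pool.Agent.Lib.MP_6bc78b_nt.ZetaApprox
import Pool.Agent.Lib.MP_6bc78b_nt.DyadicSum
import Pool.Agent.Lib.MP_6bc78b_nt.ZetaStrip

set_option autoImplicit false

open Complex Set Filter Topology Finset

namespace Pool.Agent.Lib.MP_6bc78b_nt

lemma tail_le {N : ℕ} (hN : 1 ≤ N) :
    ∑' k : ℕ, ((N + k : ℕ) : ℝ) ^ (-(1 / 2 : ℝ) - 1) ≤ 3 / Real.sqrt N := by
  have hterm : ∀ n : ℕ, 1 ≤ n → (n : ℝ) ^ (-(1 / 2 : ℝ) - 1) = 1 / (n * Real.sqrt n) := by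
    intro n hn
    have hn0 : (0:ℝ) < n := by exact_mod_cast hn
    rw [show (-(1 / 2 : ℝ) - 1) = -(1 + 1 / 2) by norm_num, Real.rpow_neg hn0.le,
      Real.rpow_add hn0, Real.rpow_one, ← Real.sqrt_eq_rpow, one_div]
  have hNpos : (0:ℝ) < N := by exact_mod_cast hN
  have hsN : 0 < Real.sqrt N := Real.sqrt_pos.2 hNpos
  have hind : ∀ K : ℕ, ∑ k ∈ Finset.range (K + 1), ((N + k : ℕ) : ℝ) ^ (-(1 / 2 : ℝ) - 1) ≤
      3 / Real.sqrt N - 2 / Real.sqrt ((N + K : ℕ) : ℝ) := by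
    intro K
    induction K with
    | zero =>
      simp only [Finset.range_one, Finset.sum_singleton, zero_add, add_zero]
      rw [hterm N hN]
      have h1 : 3 / Real.sqrt N - 2 / Real.sqrt N = 1 / Real.sqrt N := by ring
      rw [h1]
      apply one_div_le_one_div_of_le hsN
      have : (1:ℝ) ≤ N := by exact_mod_cast hN
      nlinarith
    | succ K ih =>
      rw [Finset.sum_range_succ, hterm (N + (K + 1)) (by omega)]
      set a := Real.sqrt ((N + K : ℕ) : ℝ) with ha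
      set b := Real.sqrt ((N + (K + 1) : ℕ) : ℝ) with hb
      have hA : (0:ℝ) < ((N + K : ℕ) : ℝ) := by
        have : 0 < N + K := by omega
        exact_mod_cast this
      have hB : (0:ℝ) < ((N + (K + 1) : ℕ) : ℝ) := by
        have : 0 < N + (K + 1) := by omega
        exact_mod_cast this
      have ha0 : 0 < a := Real.sqrt_pos.2 hA
      have hb0 : 0 < b := Real.sqrt_pos.2 hB
      have ha2 : a * a = ((N + K : ℕ) : ℝ) := Real.mul_self_sqrt hA.le
      have hb2 : b * b = ((N + (K + 1) : ℕ) : ℝ) := Real.mul_self_sqrt hB.le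
      have hab : b * b = a * a + 1 := by rw [ha2, hb2]; push_cast; ring
      have hle : a ≤ b := by
        apply Real.sqrt_le_sqrt; push_cast; linarith
      have hkey : 1 / (((N + (K + 1) : ℕ) : ℝ) * b) ≤ 2 / a - 2 / b := by
        rw [← hb2, div_sub_div _ _ ha0.ne' hb0.ne', div_le_div_iff₀ (by positivity) (by positivity)]
        -- a b ≤ (2 b - a 2) b^3
        have h1 : (b - a) * (a + b) = 1 := by nlinarith
        have h2 : a * (a + b) ≤ 2 * (b * b) := by nlinarith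
        have h3 : a ≤ 2 * (b * b) * (b - a) := by
          have h4 : 0 < a + b := by positivity
          have h5 : a * (a + b) ≤ 2 * (b * b) * (b - a) * (a + b) := by
            rw [mul_assoc (2 * (b * b)), h1, mul_one]; exact h2
          exact le_of_mul_le_mul_right h5 h4
        calc 1 * (a * b) = a * b := by ring
          _ ≤ (2 * (b * b) * (b - a)) * b := by gcongr
          _ = (2 * b - a * 2) * (b * b * b) := by ring
      linarith
  refine Real.tsum_le_of_sum_range_le (fun n => by positivity) fun K => ?_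
  calc ∑ k ∈ Finset.range K, ((N + k : ℕ) : ℝ) ^ (-(1 / 2 : ℝ) - 1)
      ≤ ∑ k ∈ Finset.range (K + 1), ((N + k : ℕ) : ℝ) ^ (-(1 / 2 : ℝ) - 1) := by
        apply Finset.sum_le_sum_of_subset_of_nonneg
        · exact Finset.range_subset_range.2 (by omega)
        · intro i _ _; positivity
    _ ≤ 3 / Real.sqrt N - 2 / Real.sqrt ((N + K : ℕ) : ℝ) := hind K
    _ ≤ 3 / Real.sqrt N := by
        have : 0 ≤ 2 / Real.sqrt ((N + K : ℕ) : ℝ) := by positivity
        linarith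

lemma natCast_cpow_crit {n : ℕ} (hn : 1 ≤ n) (t : ℝ) :
    (n : ℂ) ^ (-(1 / 2 + t * I : ℂ)) = wt t n := by
  have hn0 : (0:ℝ) < n := by exact_mod_cast hn
  have hnC : (n : ℂ) ≠ 0 := by exact_mod_cast hn0.ne'
  have h1 : (n : ℂ) ^ (-(1 / 2 + t * I : ℂ)) =
      Complex.exp ((-(Real.log n / 2) : ℝ) : ℂ) * Complex.exp ((-(t * Real.log n) : ℝ) * I) := by
    rw [Complex.cpow_def_of_ne_zero hnC, ← Complex.exp_add, ← Complex.natCast_log]
    congr 1
    push_cast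
    ring
  rw [h1, wt, ei, ph]
  congr 1
  rw [← Complex.ofReal_exp]
  congr 1
  rw [Real.exp_neg, one_div]
  congr 1
  rw [Real.sqrt_eq_rpow, Real.rpow_def_of_pos hn0]
  congr 1
  ring

lemma norm_zeta_crit_le {τ : ℝ} (hτ : 2 ≤ τ) (J : ℕ) (hJ : ∀ j < J, (2:ℝ) ^ j ≤ 2 * (τ ^ 3) ^ 2)
    (hJ1 : (τ ^ 3) ^ 2 ≤ (2:ℝ) ^ J) (hJ2 : (2:ℝ) ^ J ≤ 2 * (τ ^ 3) ^ 2) :
    ‖riemannZeta₁ (1 / 2 + (τ ^ 3 : ℝ) * I)‖ ≤
      (1 + τ ^ 3) * (J * (60 * Real.sqrt τ)) + 5 * (1 + τ ^ 3) := by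
  set t := τ ^ 3 with ht
  have ht8 : 8 ≤ t := by
    rw [ht]
    calc (8:ℝ) = 2 ^ 3 := by norm_num
      _ ≤ τ ^ 3 := by gcongr
  have ht0 : 0 < t := by linarith
  set s : ℂ := 1 / 2 + t * I with hs
  have hsre : s.re = 1 / 2 := by simp [hs]
  have hsim : s.im = t := by simp [hs]
  set N := 2 ^ J with hN
  have hN1 : 1 ≤ N := Nat.one_le_two_pow
  have hNr : (N : ℝ) = 2 ^ J := by rw [hN]; push_cast; ring
  have hNpos : (0:ℝ) < N := by rw [hNr]; positivity
  have hs1 : ‖s‖ ≤ 1 + t := by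
    refine (norm_le_abs_re_add_abs_im s).trans ?_
    rw [hsre, hsim, abs_of_pos ht0, abs_of_pos (by norm_num)]; linarith
  have hs2 : ‖s - 1‖ ≤ 1 + t := by
    refine (norm_le_abs_re_add_abs_im (s - 1)).trans ?_
    simp only [sub_re, one_re, sub_im, one_im, sub_zero, hsre, hsim, abs_of_pos ht0]
    have : |(1 / 2 - 1 : ℝ)| ≤ 1 := by rw [abs_le]; constructor <;> norm_num
    linarith
  have hsN1 : t ≤ Real.sqrt N := by
    apply Real.le_sqrt_of_sq_le
    rw [hNr]; exact hJ1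
  have hsN0 : 0 < Real.sqrt N := by linarith
  have hsN2 : Real.sqrt N ≤ 1.42 * t := by
    rw [Real.sqrt_le_iff]
    refine ⟨by positivity, ?_⟩
    rw [hNr]
    nlinarith
  rw [riemannZeta₁_eq_sum (s := s) (by rw [hsre]; norm_num) hN1]
  have e1 : ∑ n ∈ Finset.Ico 1 N, (n : ℂ) ^ (-s) = ∑ n ∈ Finset.Ico 1 N, wt t n := by
    refine Finset.sum_congr rfl fun n hn => ?_
    exact natCast_cpow_crit (Finset.mem_Ico.1 hn).1 t
  rw [e1]
  have h1 : ‖∑ n ∈ Finset.Ico 1 N, wt t n‖ ≤ J * (60 * Real.sqrt τ) := dyadic_sum hτ J hJ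
  have h2 : ‖(N : ℂ) ^ (1 - s)‖ ≤ 1.42 * t := by
    have := norm_cpow_eq_rpow_re_of_pos hNpos (1 - s)
    rw [Complex.ofReal_natCast] at this
    rw [this]
    have e : (1 - s).re = 1 / 2 := by simp [hsre]; norm_num
    rw [e, ← Real.sqrt_eq_rpow]
    exact hsN2
  have h3 : ‖∑' k : ℕ, bt (N + k) s‖ ≤ 3.375 * (1 + t) := by
    have hb : ∀ k : ℕ, ‖bt (N + k) s‖ ≤ ‖s‖ * ‖s - 1‖ * ((N + k : ℕ) : ℝ) ^ (-(1 / 2 : ℝ) - 1) := by
      intro k
      have := norm_bt_le (n := N + k) (by omega) (s := s) (by rw [hsre]; norm_num)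
      rwa [hsre] at this
    have hsum := (summable_bt_bound N (σ := 1 / 2) (by norm_num)).mul_left (‖s‖ * ‖s - 1‖)
    have hsum' : Summable fun k : ℕ => ‖bt (N + k) s‖ :=
      hsum.of_nonneg_of_le (fun k => norm_nonneg _) hb
    calc ‖∑' k : ℕ, bt (N + k) s‖ ≤ ∑' k : ℕ, ‖bt (N + k) s‖ := norm_tsum_le_tsum_norm hsum'
      _ ≤ ∑' k : ℕ, ‖s‖ * ‖s - 1‖ * ((N + k : ℕ) : ℝ) ^ (-(1 / 2 : ℝ) - 1) :=
          hsum'.tsum_le_tsum hb hsum
      _ = ‖s‖ * ‖s - 1‖ * ∑' k : ℕ, ((N + k : ℕ) : ℝ) ^ (-(1 / 2 : ℝ) - 1) := tsum_mul_left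
      _ ≤ (1 + t) * (1 + t) * (3 / Real.sqrt N) := by
          have := tail_le hN1
          gcongr
      _ ≤ (1 + t) * (1 + t) * (3 / t) := by gcongr
      _ = (1 + t) * (3 * ((1 + t) / t)) := by ring
      _ ≤ (1 + t) * 3.375 := by
          have : (1 + t) / t ≤ 1.125 := by
            rw [div_le_iff₀ ht0]; linarith
          gcongr
          linarith
      _ = 3.375 * (1 + t) := by ring
  calc ‖(s - 1) * ∑ n ∈ Finset.Ico 1 N, wt t n + (N : ℂ) ^ (1 - s) + ∑' k : ℕ, bt (N + k) s‖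
      ≤ ‖s - 1‖ * ‖∑ n ∈ Finset.Ico 1 N, wt t n‖ + ‖(N : ℂ) ^ (1 - s)‖ +
        ‖∑' k : ℕ, bt (N + k) s‖ := by
        refine (norm_add_le _ _).trans ?_
        gcongr
        refine (norm_add_le _ _).trans ?_
        rw [norm_mul]
    _ ≤ (1 + t) * (J * (60 * Real.sqrt τ)) + 1.42 * t + 3.375 * (1 + t) := by
        gcongr
    _ ≤ (1 + t) * (J * (60 * Real.sqrt τ)) + 5 * (1 + t) := by linarith

/-- Weyl's subconvexity bound for `(s-1)ζ(s)` on the critical line. -/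
theorem weyl_bound {θ : ℝ} (hθ : 1 / 6 < θ) :
    ∃ C : ℝ, 0 < C ∧ ∀ t : ℝ, ‖riemannZeta₁ (1 / 2 + t * I)‖ ≤ C * (1 + |t|) ^ (1 + θ) := by
  set ε := θ - 1 / 6 with hε
  have hε0 : 0 < ε := by rw [hε]; linarith
  set C1 := 60 * (1 + 3 / ε) + 5 with hC1
  have hC1pos : 0 < C1 := by positivity
  -- large positive t
  have hbig : ∀ t : ℝ, 8 ≤ t → ‖riemannZeta₁ (1 / 2 + t * I)‖ ≤ C1 * (1 + |t|) ^ (1 + θ) := by
    intro t ht
    have ht0 : 0 < t := by linarith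
    set τ := t ^ (1 / 3 : ℝ) with hτ
    have hτ3 : τ ^ 3 = t := by
      rw [hτ, ← Real.rpow_natCast, ← Real.rpow_mul ht0.le]; norm_num
    have hτ2 : 2 ≤ τ := by
      have h8 : (2:ℝ) = (8:ℝ) ^ (1 / 3 : ℝ) := by
        rw [show (8:ℝ) = 2 ^ (3:ℝ) by norm_num, ← Real.rpow_mul (by norm_num)]; norm_num
      rw [h8, hτ]
      exact Real.rpow_le_rpow (by norm_num) ht (by norm_num)
    have hex : ∃ J : ℕ, t ^ 2 ≤ (2:ℝ) ^ J := by
      obtain ⟨J, hJ⟩ := pow_unbounded_of_one_lt (t ^ 2) (by norm_num : (1:ℝ) < 2)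
      exact ⟨J, hJ.le⟩
    classical
    set J := Nat.find hex with hJdef
    have hJ1 : t ^ 2 ≤ (2:ℝ) ^ J := Nat.find_spec hex
    have hJmin : ∀ j < J, (2:ℝ) ^ j < t ^ 2 := by
      intro j hj
      have := Nat.find_min hex hj
      push Not at this
      exact this
    have hJ0 : 0 < J := by
      rw [Nat.pos_iff_ne_zero]
      intro h0
      rw [h0] at hJ1
      nlinarith
    have hJ2 : (2:ℝ) ^ J ≤ 2 * t ^ 2 := by
      have := hJmin (J - 1) (by omega)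
      have e : (2:ℝ) ^ J = 2 * 2 ^ (J - 1) := by
        rw [← pow_succ']; congr 1; omega
      rw [e]; linarith
    have hlogt : 0 ≤ Real.log t := Real.log_nonneg (by linarith)
    have hJlog : (J : ℝ) ≤ 1 + 3 * Real.log t := by
      have h1 := hJmin (J - 1) (by omega)
      have h2 := Real.log_le_log (by positivity) h1.le
      rw [Real.log_pow, Real.log_pow, Nat.cast_sub (by omega : 1 ≤ J)] at h2
      push_cast at h2
      have h3 : (0.693 : ℝ) < Real.log 2 := by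
        have := Real.log_two_gt_d9; linarith
      have hJ1' : (1:ℝ) ≤ J := by exact_mod_cast hJ0
      have h4 : ((J:ℝ) - 1) * 0.693 ≤ 2 * Real.log t := by
        calc ((J:ℝ) - 1) * 0.693 ≤ ((J:ℝ) - 1) * Real.log 2 := by
              apply mul_le_mul_of_nonneg_left h3.le; linarith
          _ ≤ _ := h2
      nlinarith
    have key := norm_zeta_crit_le hτ2 J
      (fun j hj => by rw [hτ3]; have := hJmin j hj; nlinarith [sq_nonneg t])
      (by rw [hτ3]; exact hJ1) (by rw [hτ3]; exact hJ2)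
    rw [hτ3] at key
    have hsqτ : Real.sqrt τ = t ^ (1 / 6 : ℝ) := by
      rw [hτ, Real.sqrt_eq_rpow, ← Real.rpow_mul ht0.le]; norm_num
    have hlog : Real.log t ≤ t ^ ε / ε := Real.log_le_rpow_div ht0.le hε0
    have hT : 1 + |t| = 1 + t := by rw [abs_of_pos ht0]
    have h1t : 1 ≤ 1 + t := by linarith
    have hθ0 : 0 ≤ θ := by linarith
    have hp1 : t ^ (1 / 6 : ℝ) ≤ (1 + t) ^ θ := by
      calc t ^ (1 / 6 : ℝ) ≤ (1 + t) ^ (1 / 6 : ℝ) :=
            Real.rpow_le_rpow ht0.le (by linarith) (by norm_num)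
        _ ≤ (1 + t) ^ θ := Real.rpow_le_rpow_of_exponent_le h1t hθ.le
    have hp2 : t ^ (1 / 6 : ℝ) * t ^ ε ≤ (1 + t) ^ θ := by
      rw [← Real.rpow_add ht0, show (1 / 6 + ε : ℝ) = θ by rw [hε]; ring]
      exact Real.rpow_le_rpow ht0.le (by linarith) hθ0
    have hp3 : 1 ≤ (1 + t) ^ θ := Real.one_le_rpow h1t hθ0
    have hpos6 : 0 ≤ t ^ (1 / 6 : ℝ) := by positivity
    have h60 : (J : ℝ) * (60 * Real.sqrt τ) ≤ 60 * (1 + 3 / ε) * (1 + t) ^ θ := by
      rw [hsqτ]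
      calc (J : ℝ) * (60 * t ^ (1 / 6 : ℝ)) ≤ (1 + 3 * (t ^ ε / ε)) * (60 * t ^ (1 / 6 : ℝ)) := by
            apply mul_le_mul_of_nonneg_right _ (by positivity)
            linarith
        _ = 60 * t ^ (1 / 6 : ℝ) + 60 * (3 / ε) * (t ^ (1 / 6 : ℝ) * t ^ ε) := by ring
        _ ≤ 60 * (1 + t) ^ θ + 60 * (3 / ε) * (1 + t) ^ θ := by gcongr
        _ = _ := by ring
    rw [hT]
    calc ‖riemannZeta₁ (1 / 2 + t * I)‖ ≤ (1 + t) * (J * (60 * Real.sqrt τ)) + 5 * (1 + t) := key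
      _ ≤ (1 + t) * (60 * (1 + 3 / ε) * (1 + t) ^ θ) + 5 * (1 + t) * (1 + t) ^ θ := by
          have : 5 * (1 + t) ≤ 5 * (1 + t) * (1 + t) ^ θ := le_mul_of_one_le_right (by positivity) hp3
          gcongr
      _ = C1 * ((1 + t) * (1 + t) ^ θ) := by rw [hC1]; ring
      _ = C1 * (1 + t) ^ (1 + θ) := by
          rw [Real.rpow_add (by positivity), Real.rpow_one]
  -- negative t by symmetry
  have hsymm : ∀ t : ℝ, t ≠ 0 → ‖riemannZeta₁ (1 / 2 + (-t : ℝ) * I)‖ = ‖riemannZeta₁ (1 / 2 + t * I)‖ := by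
    intro t ht
    have h1 : ∀ u : ℝ, u ≠ 0 → (1 / 2 + u * I : ℂ) ≠ 1 := by
      intro u hu h
      have := congrArg Complex.im h
      simp at this
      exact hu this
    rw [riemannZeta₁_eq (h1 _ (neg_ne_zero.2 ht)), riemannZeta₁_eq (h1 _ ht)]
    have e : (1 / 2 + ((-t : ℝ) : ℂ) * I : ℂ) = (starRingEnd ℂ) (1 / 2 + t * I) := by
      apply Complex.ext <;> simp
    rw [e, riemannZeta_conj, norm_mul, norm_mul, Complex.norm_conj]
    congr 1
    rw [← Complex.norm_conj]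
    simp
  -- compact range
  obtain ⟨K, hK⟩ := (isCompact_Icc (a := (-8:ℝ)) (b := 8)).exists_bound_of_continuousOn
    (f := fun t : ℝ => riemannZeta₁ (1 / 2 + t * I)) (by
      apply Continuous.continuousOn
      exact differentiable_riemannZeta₁.continuous.comp (by fun_prop))
  refine ⟨max C1 K, lt_max_of_lt_left hC1pos, fun t => ?_⟩
  have hθ1 : 0 ≤ 1 + θ := by linarith
  have hp : 1 ≤ (1 + |t|) ^ (1 + θ) := Real.one_le_rpow (by linarith [abs_nonneg t]) hθ1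
  rcases le_or_gt 8 |t| with h8 | h8
  · have : ‖riemannZeta₁ (1 / 2 + t * I)‖ ≤ C1 * (1 + |t|) ^ (1 + θ) := by
      rcases le_or_gt 0 t with h0 | h0
      · rw [abs_of_nonneg h0] at h8
        exact hbig t h8
      · rw [abs_of_neg h0] at h8
        have := hbig (-t) h8
        rw [abs_neg] at this
        rw [← hsymm t h0.ne]
        exact this
    refine this.trans ?_
    gcongr
    exact le_max_left _ _
  · have h1 := hK t (abs_le.1 h8.le)
    calc ‖riemannZeta₁ (1 / 2 + t * I)‖ ≤ K := h1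
      _ ≤ max C1 K := le_max_right _ _
      _ ≤ max C1 K * (1 + |t|) ^ (1 + θ) :=
        le_mul_of_one_le_right (le_trans hC1pos.le (le_max_left _ _)) hp

end Pool.Agent.Lib.MP_6bc78b_nt
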