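import Mathlib

set_option autoImplicit false

open Complex Set Filter Topology Metric
open Complex.HadamardThreeLines

namespace Pool.Agent.Lib.MP_6bc78b_nt

/-- Holomorphic logarithm of a nonvanishing function on a disc. -/
lemma exists_log {g : ℂ → ℂ} {R : ℝ} (hR : 0 < R) (hg : DifferentiableOn ℂ g (ball 0 R))
    (h0 : ∀ z ∈ ball (0:ℂ) R, g z ≠ 0) :
    ∃ h : ℂ → ℂ, DifferentiableOn ℂ h (ball 0 R) ∧ h 0 = 0 ∧
      ∀ z ∈ ball (0:ℂ) R, g z = g 0 * Complex.exp (h z) := by
  have hq : DifferentiableOn ℂ (fun z => deriv g z / g z) (ball 0 R) := by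
    intro z hz
    have h1 : DifferentiableAt ℂ (deriv g) z :=
      (hg.deriv isOpen_ball).differentiableAt (isOpen_ball.mem_nhds hz)
    have h2 : DifferentiableAt ℂ g z := hg.differentiableAt (isOpen_ball.mem_nhds hz)
    exact (h1.div h2 (h0 z hz)).differentiableWithinAt
  obtain ⟨h, hh0, hh⟩ := hq.isExactOn_ball.with_val_at 0 0
  refine ⟨h, fun z hz => (hh z hz).differentiableAt.differentiableWithinAt, hh0, ?_⟩
  have hmem : (0:ℂ) ∈ ball (0:ℂ) R := mem_ball_self hR
  have hconst : ∀ z ∈ ball (0:ℂ) R, g z * Complex.exp (-h z) = g 0 * Complex.exp (-h 0) := by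
    intro z hz
    have hd : ∀ w ∈ ball (0:ℂ) R, HasDerivAt (fun w => g w * Complex.exp (-h w)) 0 w := by
      intro w hw
      have h1 : HasDerivAt g (deriv g w) w :=
        (hg.differentiableAt (isOpen_ball.mem_nhds hw)).hasDerivAt
      have h2 := (hh w hw).neg.cexp
      have h3 := h1.mul h2
      have e : deriv g w * Complex.exp (-h w) + g w * (Complex.exp (-h w) * -(deriv g w / g w)) = 0 := by
        have := h0 w hw
        field_simp
        ring
      rw [← e]
      exact h3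
    have hdo : DifferentiableOn ℂ (fun w => g w * Complex.exp (-h w)) (ball 0 R) :=
      fun w hw => (hd w hw).differentiableAt.differentiableWithinAt
    refine (convex_ball (0:ℂ) R).is_const_of_fderivWithin_eq_zero (𝕜 := ℂ) hdo (fun w hw => ?_)
      hz hmem
    rw [fderivWithin_of_isOpen isOpen_ball hw]
    have := (hd w hw).hasFDerivAt.fderiv
    rw [this]
    ext
    simp
  intro z hz
  have h1 := hconst z hz
  rw [hh0, neg_zero, Complex.exp_zero, mul_one] at h1
  rw [← h1, mul_assoc, ← Complex.exp_add]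
  simp

/-- Three circles. -/
lemma three_circles {h : ℂ → ℂ} {R R' K A : ℝ} (hR' : 1 < R') (hRR : R' < R)
    (hd : DifferentiableOn ℂ h (ball 0 R))
    (h1 : ∀ z : ℂ, ‖z‖ = 1 → ‖h z‖ ≤ K) (h2 : ∀ z : ℂ, ‖z‖ = R' → ‖h z‖ ≤ A) {z : ℂ}
    (hz1 : 1 ≤ ‖z‖) (hz2 : ‖z‖ ≤ R') :
    ‖h z‖ ≤ K ^ (1 - Real.log ‖z‖ / Real.log R') * A ^ (Real.log ‖z‖ / Real.log R') := by
  have hlog : 0 < Real.log R' := Real.log_pos hR'
  have hz0 : z ≠ 0 := by
    rintro rfl
    simp at hz1
    linarith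
  set G : ℂ → ℂ := fun w => h (Complex.exp w) with hG
  have hmap : ∀ w : ℂ, w.re ≤ Real.log R' → Complex.exp w ∈ ball (0:ℂ) R := by
    intro w hw
    rw [mem_ball_zero_iff, Complex.norm_exp]
    calc Real.exp w.re ≤ Real.exp (Real.log R') := Real.exp_le_exp.2 hw
      _ = R' := Real.exp_log (by linarith)
      _ < R := hRR
  have hcl : closure (verticalStrip 0 (Real.log R')) = verticalClosedStrip 0 (Real.log R') := by
    rw [verticalStrip, verticalClosedStrip, Complex.closure_preimage_re,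
      closure_Ioo hlog.ne]
  have hGd : DiffContOnCl ℂ G (verticalStrip 0 (Real.log R')) := by
    apply DifferentiableOn.diffContOnCl
    rw [hcl]
    intro w hw
    simp only [verticalClosedStrip, mem_preimage, mem_Icc] at hw
    have h3 : DifferentiableAt ℂ h (Complex.exp w) :=
      hd.differentiableAt (isOpen_ball.mem_nhds (hmap w hw.2))
    exact (h3.comp w Complex.differentiableAt_exp).differentiableWithinAt
  have hcpt : IsCompact (closedBall (0:ℂ) R') := isCompact_closedBall 0 R'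
  obtain ⟨C, hC⟩ := hcpt.exists_bound_of_continuousOn
    (hd.continuousOn.mono (closedBall_subset_ball hRR))
  have hGB : BddAbove ((norm ∘ G) '' verticalClosedStrip 0 (Real.log R')) := by
    refine ⟨C, ?_⟩
    rintro _ ⟨w, hw, rfl⟩
    simp only [verticalClosedStrip, mem_preimage, mem_Icc] at hw
    apply hC
    rw [mem_closedBall_zero_iff, Complex.norm_exp]
    calc Real.exp w.re ≤ Real.exp (Real.log R') := Real.exp_le_exp.2 hw.2
      _ = R' := Real.exp_log (by linarith)
  have hlre : (Complex.log z).re = Real.log ‖z‖ := Complex.log_re z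
  have hmem : Complex.log z ∈ verticalClosedStrip 0 (Real.log R') := by
    simp only [verticalClosedStrip, mem_preimage, mem_Icc, hlre]
    exact ⟨Real.log_nonneg hz1, Real.log_le_log (by linarith) hz2⟩
  have key := norm_le_interp_of_mem_verticalClosedStrip' (f := G) (a := K) (b := A) hlog hmem hGd hGB
    (fun w hw => by
      apply h1
      have : w.re = 0 := hw
      rw [Complex.norm_exp, this, Real.exp_zero])
    (fun w hw => by
      apply h2
      have : w.re = Real.log R' := hw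
      rw [Complex.norm_exp, this, Real.exp_log (by linarith)])
  rw [hlre, sub_zero, sub_zero] at key
  have hGz : G (Complex.log z) = h z := by simp only [hG]; rw [Complex.exp_log hz0]
  rw [hGz] at key
  exact key

/-- The logarithm of a nonvanishing function of moderate growth is small in the interior. -/
lemma log_small {g : ℂ → ℂ} {R R' ρ B B₀ : ℝ} (hρ : 1 < ρ) (hρR : ρ < R') (hRR : R' < R)
    (hR32 : 3 / 2 ≤ R)
    (hg : DifferentiableOn ℂ g (ball 0 R)) (h0 : ∀ z ∈ ball (0:ℂ) R, g z ≠ 0)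
    (hB : 1 ≤ B) (hB₀ : 1 ≤ B₀)
    (hgB : ∀ z ∈ ball (0:ℂ) R, ‖g z‖ ≤ Real.exp B * ‖g 0‖)
    (hgB₀ : ∀ z ∈ ball (0:ℂ) (3 / 2), ‖g z‖ ≤ Real.exp B₀ * ‖g 0‖)
    {z : ℂ} (hz1 : 1 ≤ ‖z‖) (hz2 : ‖z‖ ≤ ρ) :
    ∃ w : ℝ, ‖g z‖ = ‖g 0‖ * Real.exp w ∧
      |w| ≤ 4 * B₀ * (2 * B * R / (R - R') + 1) ^ (Real.log ρ / Real.log R') := by
  have hR0 : 0 < R := by linarith
  obtain ⟨h, hd, hh0, hgh⟩ := exists_log hR0 hg h0
  have hmem0 : (0:ℂ) ∈ ball (0:ℂ) R := mem_ball_self hR0
  have hg0 : 0 < ‖g 0‖ := norm_pos_iff.2 (h0 0 hmem0)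
  have hnorm : ∀ z ∈ ball (0:ℂ) R, ‖g z‖ = ‖g 0‖ * Real.exp (h z).re := by
    intro z hz
    rw [hgh z hz, norm_mul, Complex.norm_exp]
  have hre : ∀ z ∈ ball (0:ℂ) R, (h z).re ≤ B := by
    intro z hz
    have h1 := hgB z hz
    rw [hnorm z hz, mul_comm] at h1
    exact Real.exp_le_exp.1 (le_of_mul_le_mul_right h1 hg0)
  have hre0 : ∀ z ∈ ball (0:ℂ) (3 / 2), (h z).re ≤ B₀ := by
    intro z hz
    have hz' : z ∈ ball (0:ℂ) R := ball_subset_ball hR32 hz
    have h1 := hgB₀ z hz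
    rw [hnorm z hz', mul_comm] at h1
    exact Real.exp_le_exp.1 (le_of_mul_le_mul_right h1 hg0)
  -- bounds on the circles
  have hc1 : ∀ z : ℂ, ‖z‖ = 1 → ‖h z‖ ≤ 4 * B₀ := by
    intro z hz
    have hzb : z ∈ ball (0:ℂ) (3 / 2) := by rw [mem_ball_zero_iff, hz]; norm_num
    have := Complex.borelCaratheodory_zero (f := h) (M := B₀) (R := 3 / 2) (by linarith)
      (hd.mono (ball_subset_ball hR32)) (fun w hw => hre0 w hw) (by norm_num) hzb hh0
    rw [hz] at this
    refine this.trans (le_of_eq ?_)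
    ring
  have hc2 : ∀ z : ℂ, ‖z‖ = R' → ‖h z‖ ≤ 2 * B * R / (R - R') + 1 := by
    intro z hz
    have hzb : z ∈ ball (0:ℂ) R := by rw [mem_ball_zero_iff, hz]; exact hRR
    have := Complex.borelCaratheodory_zero (f := h) (M := B) (R := R) (by linarith)
      hd (fun w hw => hre w hw) hR0 hzb hh0
    rw [hz] at this
    have h2 : 2 * B * R' / (R - R') ≤ 2 * B * R / (R - R') := by
      have : 0 < R - R' := by linarith
      gcongr
    linarith
  have hR'1 : 1 < R' := by linarith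
  have hzb : z ∈ ball (0:ℂ) R := by rw [mem_ball_zero_iff]; linarith
  have key := three_circles hR'1 hRR hd hc1 hc2 hz1 (by linarith)
  refine ⟨(h z).re, hnorm z hzb, ?_⟩
  have hA1 : 1 ≤ 2 * B * R / (R - R') + 1 := by
    have : 0 < R - R' := by linarith
    have : 0 ≤ 2 * B * R / (R - R') := by positivity
    linarith
  have hlogR : 0 < Real.log R' := Real.log_pos hR'1
  have hlz0 : 0 ≤ Real.log ‖z‖ := Real.log_nonneg hz1
  have hτ1 : Real.log ‖z‖ / Real.log R' ≤ 1 := by
    rw [div_le_one hlogR]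
    exact Real.log_le_log (by linarith) (by linarith)
  have hτ0 : 0 ≤ Real.log ‖z‖ / Real.log R' := by positivity
  have hτle : Real.log ‖z‖ / Real.log R' ≤ Real.log ρ / Real.log R' := by
    have := Real.log_le_log (by linarith : 0 < ‖z‖) hz2
    gcongr
  have hb1 : (4 * B₀) ^ (1 - Real.log ‖z‖ / Real.log R') ≤ 4 * B₀ := by
    calc (4 * B₀) ^ (1 - Real.log ‖z‖ / Real.log R') ≤ (4 * B₀) ^ (1:ℝ) :=
          Real.rpow_le_rpow_of_exponent_le (by linarith) (by linarith)
      _ = 4 * B₀ := Real.rpow_one _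
  have hb2 : (2 * B * R / (R - R') + 1) ^ (Real.log ‖z‖ / Real.log R') ≤
      (2 * B * R / (R - R') + 1) ^ (Real.log ρ / Real.log R') :=
    Real.rpow_le_rpow_of_exponent_le hA1 hτle
  calc |(h z).re| ≤ ‖h z‖ := Complex.abs_re_le_norm _
    _ ≤ _ := key
    _ ≤ _ := by
      gcongr

end Pool.Agent.Lib.MP_6bc78b_nt
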