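import Mathlib
import Pool.Agent.Lib.MP_6bc78b_nt.WeylBound

set_option autoImplicit false

open Complex Set Filter Topology

namespace Pool.Agent.Lib.MP_6bc78b_nt

/-- The shifted and damped zeta function. -/
noncomputable def Fz (t : ℝ) (z : ℂ) : ℂ := riemannZeta₁ ((1 / 2 + t * I) + z) * Complex.exp (z ^ 2)

lemma differentiable_Fz (t : ℝ) : Differentiable ℂ (Fz t) := by
  have h1 : Differentiable ℂ (fun z : ℂ => riemannZeta₁ ((1 / 2 + t * I) + z)) :=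
    differentiable_riemannZeta₁.comp (by fun_prop)
  exact h1.mul (by fun_prop)

lemma sre (t : ℝ) (z : ℂ) : ((1 / 2 + t * I) + z : ℂ).re = 1 / 2 + z.re := by simp

lemma sim (t : ℝ) (z : ℂ) : ((1 / 2 + t * I) + z : ℂ).im = t + z.im := by simp

lemma norm_Fz (t : ℝ) (z : ℂ) : ‖Fz t z‖ =
    ‖riemannZeta₁ ((1 / 2 + t * I) + z)‖ * (Real.exp (z.re ^ 2) * Real.exp (-z.im ^ 2)) := by
  rw [Fz, norm_mul, norm_exp_sq, ← Real.exp_add]
  ring_nf

/-- Rapid decay in the closed strip. -/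
lemma Fz_decay (t : ℝ) : ∃ K : ℝ, ∀ z : ℂ, |z.re| ≤ 1 → ‖Fz t z‖ ≤ K * Real.exp (-|z.im|) := by
  obtain ⟨C0, hC0, hcrude⟩ := exists_norm_riemannZeta₁_le
  refine ⟨C0 * Real.exp (3 * |t|) * (Real.exp 4 * Real.exp 1), fun z hz => ?_⟩
  have hz' := abs_le.1 hz
  have h1 := hcrude ((1 / 2 + t * I) + z) (by rw [sre]; linarith) (by rw [sre]; linarith)
  rw [sim] at h1
  rw [norm_Fz]
  have h2 : Real.exp (3 * |t + z.im|) ≤ Real.exp (3 * |t|) * Real.exp (3 * |z.im|) := by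
    rw [← Real.exp_add]
    apply Real.exp_le_exp.2
    have := abs_add_le t z.im
    linarith
  have h3 : Real.exp (3 * |z.im|) * (Real.exp (z.re ^ 2) * Real.exp (-z.im ^ 2)) ≤
      (Real.exp 4 * Real.exp 1) * Real.exp (-|z.im|) := by
    rw [← Real.exp_add, ← Real.exp_add, ← Real.exp_add, ← Real.exp_add]
    apply Real.exp_le_exp.2
    have h4 : z.re ^ 2 ≤ 1 := by nlinarith
    have h5 := sq_nonneg (|z.im| - 2)
    have h6 : |z.im| ^ 2 = z.im ^ 2 := sq_abs _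
    nlinarith
  calc ‖riemannZeta₁ (1 / 2 + t * I + z)‖ * (Real.exp (z.re ^ 2) * Real.exp (-z.im ^ 2))
      ≤ (C0 * (Real.exp (3 * |t|) * Real.exp (3 * |z.im|))) *
        (Real.exp (z.re ^ 2) * Real.exp (-z.im ^ 2)) := by
        apply mul_le_mul_of_nonneg_right _ (by positivity)
        exact h1.trans (mul_le_mul_of_nonneg_left h2 hC0.le)
    _ = C0 * Real.exp (3 * |t|) *
        (Real.exp (3 * |z.im|) * (Real.exp (z.re ^ 2) * Real.exp (-z.im ^ 2))) := by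
        ring
    _ ≤ C0 * Real.exp (3 * |t|) * ((Real.exp 4 * Real.exp 1) * Real.exp (-|z.im|)) :=
        mul_le_mul_of_nonneg_left h3 (by positivity)
    _ = _ := by ring

/-- General polynomial bound on a vertical line. -/
lemma Fz_line_le {σ : ℝ} (hσ1 : |σ| ≤ 1) {q C : ℝ} (hq : 0 ≤ q) (hC : 0 ≤ C)
    (hbd : ∀ s : ℂ, s.re = 1 / 2 + σ → ‖riemannZeta₁ s‖ ≤ C * (1 + |s.im|) ^ q)
    (t : ℝ) (z : ℂ) (hz : z.re = σ) :
    ‖Fz t z‖ ≤ C * (Real.exp 1 * Real.exp (q ^ 2 / 4)) * (1 + |t|) ^ q := by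
  have hY0 : 0 < 1 + |t| := by positivity
  have h1 := hbd ((1 / 2 + t * I) + z) (by rw [sre, hz])
  rw [sim] at h1
  have hW : 0 < 1 + |t + z.im| := by positivity
  have h4 : (1 + |t + z.im|) ^ q ≤ (1 + |t|) ^ q * (1 + |z.im|) ^ q := by
    rw [← Real.mul_rpow hY0.le (by positivity)]
    exact Real.rpow_le_rpow hW.le (one_add_abs_add_le t z.im) hq
  have h5 := one_add_abs_rpow_mul_exp_le q z.im hq
  have h6 : Real.exp (z.re ^ 2) ≤ Real.exp 1 := by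
    apply Real.exp_le_exp.2
    rw [hz, ← sq_abs]
    nlinarith [abs_nonneg σ]
  rw [norm_Fz]
  calc ‖riemannZeta₁ (1 / 2 + t * I + z)‖ * (Real.exp (z.re ^ 2) * Real.exp (-z.im ^ 2))
      ≤ (C * ((1 + |t|) ^ q * (1 + |z.im|) ^ q)) * (Real.exp 1 * Real.exp (-z.im ^ 2)) := by
        gcongr
        exact h1.trans (by gcongr)
    _ = C * (1 + |t|) ^ q * Real.exp 1 * ((1 + |z.im|) ^ q * Real.exp (-z.im ^ 2)) := by ring
    _ ≤ C * (1 + |t|) ^ q * Real.exp 1 * Real.exp (q ^ 2 / 4) := by gcongr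
    _ = _ := by ring

lemma Fz_left {δ : ℝ} (hδ : 0 < δ) (hδ1 : δ ≤ 1 / 2) : ∃ C : ℝ, 0 < C ∧ ∀ (t : ℝ) (z : ℂ),
    z.re = -(1 / 2 + δ) → ‖Fz t z‖ ≤ C * (1 + |t|) ^ (1 + (1 / 2 + δ)) := by
  obtain ⟨C1, hC1, hleft⟩ := exists_zeta_left_bound hδ (by linarith)
  refine ⟨2 * C1 * (Real.exp 1 * Real.exp ((1 + (1 / 2 + δ)) ^ 2 / 4)), by positivity,
    fun t z hz => ?_⟩
  refine Fz_line_le (σ := -(1 / 2 + δ)) (by rw [abs_neg, abs_of_pos (by linarith)]; linarith)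
    (by linarith) (by positivity) (fun s hs => ?_) t z hz
  have hsr : s.re = -δ := by rw [hs]; ring
  have hs1 : s ≠ 1 := by
    intro h; rw [h] at hsr; simp at hsr; linarith
  have hW : 0 < 1 + |s.im| := by positivity
  have h1 := hleft s hsr
  have h2 : ‖s - 1‖ ≤ 2 * (1 + |s.im|) := by
    have := Complex.norm_le_abs_re_add_abs_im (s - 1)
    simp only [sub_re, one_re, sub_im, one_im, sub_zero, hsr] at this
    have h3 : |-δ - 1| ≤ 2 := by rw [abs_le]; constructor <;> linarith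
    have := abs_nonneg s.im
    linarith
  rw [riemannZeta₁_eq hs1, norm_mul]
  calc ‖s - 1‖ * ‖riemannZeta s‖
      ≤ (2 * (1 + |s.im|)) * (C1 * (1 + |s.im|) ^ (1 / 2 + δ)) :=
        mul_le_mul h2 h1 (norm_nonneg _) (by positivity)
    _ = 2 * C1 * ((1 + |s.im|) ^ (1 : ℝ) * (1 + |s.im|) ^ (1 / 2 + δ)) := by
        rw [Real.rpow_one]; ring
    _ = 2 * C1 * (1 + |s.im|) ^ (1 + (1 / 2 + δ)) := by
        rw [← Real.rpow_add hW]

lemma Fz_right {δ : ℝ} (hδ : 0 < δ) (hδ1 : δ ≤ 1 / 2) : ∃ C : ℝ, 0 < C ∧ ∀ (t : ℝ) (z : ℂ),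
    z.re = 1 / 2 + δ → ‖Fz t z‖ ≤ C * (1 + |t|) := by
  obtain ⟨M1, hM1, hright⟩ := exists_zeta_bounds (σ := 1 + δ) (by linarith)
  refine ⟨M1 * (Real.exp 1 * Real.exp ((1:ℝ) ^ 2 / 4)), by positivity, fun t z hz => ?_⟩
  have := Fz_line_le (σ := 1 / 2 + δ) (q := 1) (C := M1)
    (by rw [abs_of_pos (by linarith)]; linarith) (by norm_num) hM1.le (fun s hs => ?_) t z hz
  · rwa [Real.rpow_one] at this
  have hsr : s.re = 1 + δ := by rw [hs]; ring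
  have hs1 : s ≠ 1 := by
    intro h; rw [h] at hsr; simp at hsr; linarith
  have h1 := (hright s hsr).1
  have h2 : ‖s - 1‖ ≤ 1 + |s.im| := by
    have := Complex.norm_le_abs_re_add_abs_im (s - 1)
    simp only [sub_re, one_re, sub_im, one_im, sub_zero, hsr] at this
    have h3 : |1 + δ - 1| ≤ 1 := by rw [abs_le]; constructor <;> linarith
    linarith
  rw [riemannZeta₁_eq hs1, norm_mul, mul_comm, Real.rpow_one]
  exact mul_le_mul h1 h2 (norm_nonneg _) hM1.le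

lemma Fz_mid {θ : ℝ} (hθ : 1 / 6 < θ) : ∃ C : ℝ, 0 < C ∧ ∀ (t : ℝ) (z : ℂ),
    z.re = 0 → ‖Fz t z‖ ≤ C * (1 + |t|) ^ (1 + θ) := by
  obtain ⟨C, hC, hW⟩ := weyl_bound hθ
  refine ⟨C * (Real.exp 1 * Real.exp ((1 + θ) ^ 2 / 4)), by positivity, fun t z hz => ?_⟩
  refine Fz_line_le (σ := 0) (by simp) (by linarith) hC.le (fun s hs => ?_) t z hz
  have := hW s.im
  have hs' : s = 1 / 2 + s.im * I := by
    apply Complex.ext
    · simp [hs]
    · simp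
  rwa [← hs'] at this

lemma Fz_lower {δ : ℝ} (hδ : 0 < δ) : ∃ M : ℝ, 0 < M ∧ ∀ t : ℝ,
    |t| ≤ M * ‖Fz t ((1 / 2 + δ / 2 : ℝ) : ℂ)‖ := by
  obtain ⟨M2, hM2, hmid⟩ := exists_zeta_bounds (σ := 1 + δ / 2) (by linarith)
  refine ⟨M2, hM2, fun t => ?_⟩
  set x : ℝ := 1 / 2 + δ / 2 with hx
  rw [norm_Fz]
  set s := (1 / 2 + t * I) + (x : ℂ) with hs
  have hsr : s.re = 1 + δ / 2 := by rw [hs, sre, ofReal_re, hx]; ring
  have hsi : s.im = t := by rw [hs, sim, ofReal_im, add_zero]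
  have hs1 : s ≠ 1 := by
    intro h; rw [h] at hsr; simp at hsr; linarith
  have h1 := (hmid s hsr).2
  have h2 : |t| ≤ ‖s - 1‖ := by
    have := Complex.abs_im_le_norm (s - 1)
    simpa [hsi] using this
  have h4 : 1 ≤ Real.exp ((x : ℂ).re ^ 2) * Real.exp (-(x : ℂ).im ^ 2) := by
    rw [← Real.exp_add]
    apply Real.one_le_exp; simp; positivity
  rw [riemannZeta₁_eq hs1, norm_mul]
  have h5 : 0 ≤ M2 * ‖riemannZeta s‖ := by positivity
  calc |t| = |t| * 1 := (mul_one _).symm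
    _ ≤ ‖s - 1‖ * (M2 * ‖riemannZeta s‖) := mul_le_mul h2 h1 zero_le_one (norm_nonneg _)
    _ = M2 * (‖s - 1‖ * ‖riemannZeta s‖) * 1 := by ring
    _ ≤ M2 * (‖s - 1‖ * ‖riemannZeta s‖) *
      (Real.exp ((x : ℂ).re ^ 2) * Real.exp (-(x : ℂ).im ^ 2)) := by gcongr
    _ = _ := by ring

lemma Fz_order (t γ : ℝ) : analyticOrderAt (Fz t) (((γ - t : ℝ) : ℂ) * I) =
    analyticOrderAt riemannZeta₁ (1 / 2 + γ * I) := by
  have h3 : Fz t = (fun z : ℂ => riemannZeta₁ ((1 / 2 + t * I) + z)) *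
      (fun z : ℂ => Complex.exp (z ^ 2)) := rfl
  have h4 : AnalyticAt ℂ (fun z : ℂ => riemannZeta₁ ((1 / 2 + t * I) + z))
      (((γ - t : ℝ) : ℂ) * I) :=
    (differentiable_riemannZeta₁.comp (by fun_prop :
      Differentiable ℂ fun z : ℂ => (1 / 2 + t * I) + z)).analyticAt _
  have h5 : AnalyticAt ℂ (fun z : ℂ => Complex.exp (z ^ 2)) (((γ - t : ℝ) : ℂ) * I) :=
    (by fun_prop : Differentiable ℂ fun z : ℂ => Complex.exp (z ^ 2)).analyticAt _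
  rw [h3, analyticOrderAt_mul h4 h5]
  have h6 : analyticOrderAt (fun z : ℂ => Complex.exp (z ^ 2)) (((γ - t : ℝ) : ℂ) * I) = 0 := by
    rw [h5.analyticOrderAt_eq_zero]; exact Complex.exp_ne_zero _
  rw [h6, add_zero]
  have h7 : (fun z : ℂ => riemannZeta₁ ((1 / 2 + t * I) + z)) =
      riemannZeta₁ ∘ (fun z : ℂ => (1 / 2 + t * I) + z) := rfl
  rw [h7, analyticOrderAt_comp_of_deriv_ne_zero]
  · congr 1
    push_cast; ring
  · exact (by fun_prop : Differentiable ℂ fun z : ℂ => (1 / 2 + t * I) + z).analyticAt _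
  · rw [deriv_const_add]; simp

end Pool.Agent.Lib.MP_6bc78b_nt
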