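import Mathlib
import Pool.Agent.Lib.MP_6bc78b_nt.ZetaEdges
import Pool.Agent.Lib.MP_6bc78b_nt.LogBound

set_option autoImplicit false

open Complex Set Filter Topology Metric
open Complex.HadamardThreeLines

namespace Pool.Agent.Lib.MP_6bc78b_nt

/-- On a half plane `Re s ≥ σ > 1` the zeta function is bounded above and below. -/
lemma exists_zeta_bounds_ge {σ : ℝ} (hσ : 1 < σ) :
    ∃ M : ℝ, 1 ≤ M ∧ ∀ s : ℂ, σ ≤ s.re → ‖riemannZeta s‖ ≤ M ∧ 1 ≤ M * ‖riemannZeta s‖ := by
  have hs1 : LSeriesSummable (1 : ℕ → ℂ) (σ : ℂ) := by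
    rw [LSeriesSummable_one_iff]; simpa using hσ
  set M := ∑' n, ‖LSeries.term (1 : ℕ → ℂ) (σ : ℂ) n‖ with hM
  have hsumm : Summable fun n => ‖LSeries.term (1 : ℕ → ℂ) (σ : ℂ) n‖ := hs1.norm
  have hbound : ∀ (f : ℕ → ℂ), (∀ n, ‖f n‖ ≤ 1) → ∀ s : ℂ, σ ≤ s.re →
      ‖LSeries f s‖ ≤ M := by
    intro f hf s hs
    have hle : ∀ n, ‖LSeries.term f s n‖ ≤ ‖LSeries.term (1 : ℕ → ℂ) (σ : ℂ) n‖ := by
      intro n
      refine (LSeries.norm_term_le s (g := (1 : ℕ → ℂ)) (by simpa using hf n)).trans ?_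
      exact LSeries.norm_term_le_of_re_le_re _ (by simpa using hs) n
    have hsum' : Summable fun n => ‖LSeries.term f s n‖ :=
      hsumm.of_nonneg_of_le (fun n => norm_nonneg _) hle
    calc ‖LSeries f s‖ ≤ ∑' n, ‖LSeries.term f s n‖ := norm_tsum_le_tsum_norm hsum'
      _ ≤ M := hsum'.tsum_le_tsum hle hsumm
  have hzeta : ∀ s : ℂ, σ ≤ s.re → ‖riemannZeta s‖ ≤ M := by
    intro s hs
    rw [← LSeries_one_eq_riemannZeta (by linarith)]
    exact hbound 1 (by simp) s hs
  have hmoeb : ∀ s : ℂ, σ ≤ s.re → 1 ≤ M * ‖riemannZeta s‖ := by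
    intro s hs
    have h1 : 1 < s.re := by linarith
    have h2 := LSeries_one_mul_Lseries_moebius h1
    rw [LSeries_one_eq_riemannZeta h1] at h2
    have h3 : ‖LSeries (fun n => ((ArithmeticFunction.moebius n : ℤ) : ℂ)) s‖ ≤ M := by
      apply hbound _ _ s hs
      intro n
      rw [Complex.norm_intCast]
      exact_mod_cast ArithmeticFunction.abs_moebius_le_one
    have h4 : ‖riemannZeta s‖ * ‖LSeries (fun n => ((ArithmeticFunction.moebius n : ℤ) : ℂ)) s‖ = 1 := by
      rw [← norm_mul, h2, norm_one]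
    nlinarith [norm_nonneg (riemannZeta s)]
  refine ⟨max 1 M, le_max_left _ _, fun s hs => ⟨(hzeta s hs).trans (le_max_right _ _), ?_⟩⟩
  refine (hmoeb s hs).trans ?_
  gcongr
  exact le_max_right _ _

/-- Polynomial growth of `(s-1)ζ(s)` in a strip. -/
lemma exists_poly_bound : ∃ C : ℝ, 1 ≤ C ∧ ∀ s : ℂ, -(1 / 2) ≤ s.re → s.re ≤ 3 / 2 →
    ‖riemannZeta₁ s‖ ≤ C * (1 + |s.im|) ^ (2:ℝ) := by
  obtain ⟨C0, hC0, hcrude⟩ := exists_norm_riemannZeta₁_le
  obtain ⟨C1, hC1, hleft⟩ := exists_zeta_left_bound (δ := 1 / 2) (by norm_num) (by norm_num)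
  obtain ⟨M1, hM1, hright⟩ := exists_zeta_bounds (σ := 3 / 2) (by norm_num)
  have hd : DiffContOnCl ℂ riemannZeta₁ (verticalStrip (-(1 / 2)) (3 / 2)) :=
    differentiable_riemannZeta₁.diffContOnCl
  obtain ⟨C, hC, h⟩ := strip_interp riemannZeta₁ (-(1 / 2)) (3 / 2) (by norm_num) hd C0 3
    (2 * C1) (2 * M1) 2 2 hC0.le (by norm_num) (by positivity) (by positivity) (by norm_num)
    (by norm_num) (fun z h1 h2 => hcrude z (by linarith) h2)
    (fun s hs => by
      have hs1 : s ≠ 1 := by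
        intro h; rw [h] at hs; simp at hs; linarith
      have hW : 0 < 1 + |s.im| := by positivity
      have h1 := hleft s (by rw [hs])
      have h2 : ‖s - 1‖ ≤ 2 * (1 + |s.im|) := by
        have := Complex.norm_le_abs_re_add_abs_im (s - 1)
        simp only [sub_re, one_re, sub_im, one_im, sub_zero, hs] at this
        have h3 : |(-(1 / 2) - 1 : ℝ)| ≤ 2 := by rw [abs_le]; constructor <;> norm_num
        have := abs_nonneg s.im
        linarith
      have h4 : (1 + |s.im|) ^ (1 / 2 + 1 / 2 : ℝ) = 1 + |s.im| := by norm_num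
      rw [h4] at h1
      rw [riemannZeta₁_eq hs1, norm_mul]
      have h5 : (1 + |s.im|) ^ (2:ℝ) = (1 + |s.im|) * (1 + |s.im|) := by
        rw [show (2:ℝ) = ((2:ℕ):ℝ) by norm_num, Real.rpow_natCast]; ring
      calc ‖s - 1‖ * ‖riemannZeta s‖ ≤ (2 * (1 + |s.im|)) * (C1 * (1 + |s.im|)) :=
            mul_le_mul h2 h1 (norm_nonneg _) (by positivity)
        _ = 2 * C1 * (1 + |s.im|) ^ (2:ℝ) := by rw [h5]; ring)
    (fun s hs => by
      have hs1 : s ≠ 1 := by
        intro h; rw [h] at hs; simp at hs; norm_num at hs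
      have h1 := (hright s hs).1
      have h2 : ‖s - 1‖ ≤ 1 + |s.im| := by
        have := Complex.norm_le_abs_re_add_abs_im (s - 1)
        simp only [sub_re, one_re, sub_im, one_im, sub_zero, hs] at this
        have h3 : |(3 / 2 - 1 : ℝ)| ≤ 1 := by rw [abs_le]; constructor <;> norm_num
        linarith
      have hW : 1 ≤ 1 + |s.im| := by linarith [abs_nonneg s.im]
      rw [riemannZeta₁_eq hs1, norm_mul]
      have h5 : (1 + |s.im|) ^ (2:ℝ) = (1 + |s.im|) * (1 + |s.im|) := by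
        rw [show (2:ℝ) = ((2:ℕ):ℝ) by norm_num, Real.rpow_natCast]; ring
      calc ‖s - 1‖ * ‖riemannZeta s‖ ≤ (1 + |s.im|) * M1 :=
            mul_le_mul h2 h1 (norm_nonneg _) (by positivity)
        _ ≤ (1 + |s.im|) * (2 * M1 * (1 + |s.im|)) := by
            gcongr
            nlinarith
        _ = 2 * M1 * (1 + |s.im|) ^ (2:ℝ) := by rw [h5]; ring)
  refine ⟨max 1 C, le_max_left _ _, fun s h1 h2 => (h s h1 h2).trans ?_⟩
  have e : (1 - (s.re - -(1 / 2)) / (3 / 2 - -(1 / 2))) * 2 +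
      (s.re - -(1 / 2)) / (3 / 2 - -(1 / 2)) * 2 = (2:ℝ) := by ring
  rw [e]
  gcongr
  exact le_max_right _ _

/-- Threshold for the comparison of a small power with the identity. -/
lemma exists_threshold {τ a b ε : ℝ} (hτ0 : 0 ≤ τ) (hτ1 : τ < 1) (ha : 0 ≤ a) (hb : 0 ≤ b)
    (hε : 0 < ε) (c : ℝ) :
    ∃ X : ℝ, 1 ≤ X ∧ ∀ x : ℝ, X ≤ x → a * (b * x + c) ^ τ + c ≤ ε * x := by
  have h1 : Tendsto (fun x : ℝ => (a * (b * x + |c|) ^ τ + |c|) / x) atTop (𝓝 0) := by
    have h2 : ∀ x : ℝ, 1 ≤ x → (a * (b * x + |c|) ^ τ + |c|) / x ≤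
        a * (b + |c|) ^ τ * x ^ (-(1 - τ)) + |c| * x ^ (-(1:ℝ)) := by
      intro x hx
      have hx0 : 0 < x := by linarith
      have h3 : (b * x + |c|) ^ τ ≤ (b + |c|) ^ τ * x ^ τ := by
        rw [← Real.mul_rpow (by positivity) hx0.le]
        apply Real.rpow_le_rpow (by positivity) _ hτ0
        nlinarith [abs_nonneg c]
      rw [add_div]
      have h4 : a * (b * x + |c|) ^ τ / x ≤ a * (b + |c|) ^ τ * x ^ (-(1 - τ)) := by
        rw [div_le_iff₀ hx0]
        have h5 : x ^ (-(1 - τ)) * x = x ^ τ := by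
          nth_rewrite 2 [← Real.rpow_one x]
          rw [← Real.rpow_add hx0]
          congr 1
          ring
        calc a * (b * x + |c|) ^ τ ≤ a * ((b + |c|) ^ τ * x ^ τ) := by gcongr
          _ = a * (b + |c|) ^ τ * (x ^ (-(1 - τ)) * x) := by rw [h5]; ring
          _ = _ := by ring
      have h6 : |c| / x = |c| * x ^ (-(1:ℝ)) := by
        rw [Real.rpow_neg_one]; rfl
      rw [h6]
      linarith
    have h7 : Tendsto (fun x : ℝ => a * (b + |c|) ^ τ * x ^ (-(1 - τ)) + |c| * x ^ (-(1:ℝ)))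
        atTop (𝓝 0) := by
      have e1 := (tendsto_rpow_neg_atTop (by linarith : 0 < 1 - τ)).const_mul (a * (b + |c|) ^ τ)
      have e2 := (tendsto_rpow_neg_atTop (by norm_num : (0:ℝ) < 1)).const_mul |c|
      simpa using e1.add e2
    refine tendsto_of_tendsto_of_tendsto_of_le_of_le' tendsto_const_nhds h7 ?_ ?_
    · filter_upwards [eventually_ge_atTop (1:ℝ)] with x hx
      have : 0 < x := by linarith
      positivity
    · filter_upwards [eventually_ge_atTop (1:ℝ)] with x hx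
      exact h2 x hx
  obtain ⟨X, hX⟩ := eventually_atTop.1 (h1.eventually_lt_const hε)
  refine ⟨max (max X 1) (|c| / (b + 1) + 1), le_trans (le_max_right _ _) (le_max_left _ _),
    fun x hx => ?_⟩
  have hxX : X ≤ x := le_trans (le_trans (le_max_left _ _) (le_max_left _ _)) hx
  have hx1 : 1 ≤ x := le_trans (le_trans (le_max_right _ _) (le_max_left _ _)) hx
  have hx0 : 0 < x := by linarith
  have h3 := (hX x hxX).le
  rw [div_le_iff₀ hx0] at h3
  have h4 : c ≤ |c| := le_abs_self c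
  rcases le_or_gt 0 (b * x + c) with hpos | hneg
  · have h5 : (b * x + c) ^ τ ≤ (b * x + |c|) ^ τ := Real.rpow_le_rpow hpos (by linarith) hτ0
    have h6 : a * (b * x + c) ^ τ ≤ a * (b * x + |c|) ^ τ := by gcongr
    linarith
  · have h5 : (b * x + c) ^ τ ≤ |b * x + c| ^ τ :=
      (le_abs_self _).trans (Real.abs_rpow_le_abs_rpow _ _)
    have h7 : |b * x + c| ≤ b * x + |c| := by
      refine (abs_add_le _ _).trans ?_
      rw [abs_of_nonneg (by positivity : 0 ≤ b * x)]
    have h8 : |b * x + c| ^ τ ≤ (b * x + |c|) ^ τ := Real.rpow_le_rpow (abs_nonneg _) h7 hτ0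
    have h6 : a * (b * x + c) ^ τ ≤ a * (b * x + |c|) ^ τ :=
      mul_le_mul_of_nonneg_left (h5.trans h8) ha
    linarith

/-- If `ζ` has no zero near height `t` to the right of `Re s = 1/2 + η`, then it is of size
`|t|^(± ε)` there. -/
lemma local_zeta_bound {η r ε : ℝ} (hη : 0 < η) (hη2 : η ≤ 1 / 2) (hr : 0 < r) (hr1 : r ≤ 1 / 4)
    (hε : 0 < ε) :
    ∃ T : ℝ, 8 ≤ T ∧ ∀ t : ℝ, T ≤ |t| →
      (∀ s : ℂ, 1 / 2 + η < s.re → |s.im - t| ≤ 3 → riemannZeta s ≠ 0) →
      ∀ s : ℂ, s.im = t → 1 / 2 + η + r ≤ s.re → s.re ≤ 2 →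
        ‖riemannZeta s‖ ≤ |t| ^ ε ∧ 1 ≤ |t| ^ ε * ‖riemannZeta s‖ := by
  obtain ⟨C, hC1, hpoly⟩ := exists_poly_bound
  obtain ⟨M, hM1, hM⟩ := exists_zeta_bounds_ge (σ := 3 / 2) (by norm_num)
  set R := 5 / 2 - η with hR
  set R' := R - r / 2 with hR'
  set ρ := R - r with hρ
  have hρ1 : 1 < ρ := by rw [hρ, hR]; linarith
  have hρR : ρ < R' := by rw [hρ, hR']; linarith
  have hRR : R' < R := by rw [hR']; linarith
  have hR32 : 3 / 2 ≤ R := by rw [hR]; linarith
  have hR0 : 0 < R := by linarith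
  set τ := Real.log ρ / Real.log R' with hτ
  have hlogR' : 0 < Real.log R' := Real.log_pos (by linarith)
  have hτ0 : 0 ≤ τ := div_nonneg (Real.log_nonneg hρ1.le) hlogR'.le
  have hτ1 : τ < 1 := by
    rw [hτ, div_lt_one hlogR']
    exact Real.log_lt_log (by linarith) hρR
  set B₀ := Real.log (M * M) + 1 with hB₀
  have hB₀1 : 1 ≤ B₀ := by
    have : 0 ≤ Real.log (M * M) := Real.log_nonneg (by nlinarith)
    linarith
  set C3 := 4 * C + M with hC3
  have hC31 : 1 ≤ C3 := by rw [hC3]; linarith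
  -- B as a function of x = log |t|
  set b1 := Real.log (C3 * M) + 1 with hb1
  have hb10 : 0 ≤ Real.log (C3 * M) := Real.log_nonneg (by nlinarith)
  have hb11 : 1 ≤ b1 := by linarith
  have hq0 : 0 < R / (R - R') := by
    have : 0 < R - R' := by linarith
    positivity
  set c := max (2 * b1 * (R / (R - R')) + 1) (Real.log M) with hc
  obtain ⟨X, hX1, hX⟩ := exists_threshold (τ := τ) (a := 4 * B₀) (b := 4 * (R / (R - R')))
    hτ0 hτ1 (by positivity) (by positivity) hε c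
  refine ⟨max 8 (Real.exp X), le_max_left _ _, fun t ht hzf s hsi hs1 hs2 => ?_⟩
  have ht8 : 8 ≤ |t| := (le_max_left _ _).trans ht
  have ht0 : 0 < |t| := by linarith
  have hlogt : X ≤ Real.log |t| := by
    have := Real.log_le_log (Real.exp_pos _) ((le_max_right _ _).trans ht)
    rwa [Real.log_exp] at this
  have hlog0 : 0 ≤ Real.log |t| := by linarith
  set c0 : ℂ := 3 + t * I with hc0
  have hc0re : c0.re = 3 := by simp [hc0]
  have hc0im : c0.im = t := by simp [hc0]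
  have hball : ∀ z : ℂ, z ∈ ball (0:ℂ) R → 1 / 2 + η < (c0 + z).re ∧ |(c0 + z).im - t| ≤ 5 / 2 := by
    intro z hz
    rw [mem_ball_zero_iff] at hz
    have h1 := Complex.abs_re_le_norm z
    have h2 := Complex.abs_im_le_norm z
    have h3 := abs_le.1 h1
    rw [add_re, add_im, hc0re, hc0im, add_sub_cancel_left]
    constructor
    · rw [hR] at hz; linarith
    · rw [hR] at hz; linarith
  have hne1 : ∀ z : ℂ, z ∈ ball (0:ℂ) R → 1 ≤ |(c0 + z).im| ∧ |(c0 + z).im| ≤ |t| + 5 / 2 := by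
    intro z hz
    have h1 := (hball z hz).2
    have h2 := abs_sub_abs_le_abs_sub t (c0 + z).im
    have h3 := abs_sub_abs_le_abs_sub (c0 + z).im t
    rw [abs_sub_comm] at h2
    constructor <;> linarith
  have hne : ∀ z : ℂ, z ∈ ball (0:ℂ) R → c0 + z ≠ 1 := by
    intro z hz h
    have h1 := (hne1 z hz).1
    rw [h] at h1
    simp at h1
    linarith
  set g : ℂ → ℂ := fun z => riemannZeta (c0 + z) with hg
  have hgd : DifferentiableOn ℂ g (ball 0 R) := by
    intro z hz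
    have h1 : DifferentiableAt ℂ riemannZeta (c0 + z) := differentiableAt_riemannZeta (hne z hz)
    have h2 : DifferentiableAt ℂ (fun z : ℂ => c0 + z) z := by fun_prop
    exact (DifferentiableAt.comp (g := riemannZeta) z h1 h2).differentiableWithinAt
  have hg0 : ∀ z ∈ ball (0:ℂ) R, g z ≠ 0 := by
    intro z hz
    have h1 := hball z hz
    exact hzf _ h1.1 (h1.2.trans (by norm_num))
  have hgc : ‖g 0‖ ≤ M ∧ 1 ≤ M * ‖g 0‖ := by
    simp only [hg, add_zero]
    exact hM c0 (by rw [hc0re]; norm_num)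
  have hgc0 : 0 < ‖g 0‖ := norm_pos_iff.2 (hg0 0 (mem_ball_self hR0))
  have hM0 : 0 < M := by linarith
  -- growth
  have hgB : ∀ z ∈ ball (0:ℂ) R, ‖g z‖ ≤ Real.exp (2 * Real.log |t| + b1) * ‖g 0‖ := by
    intro z hz
    have h1 := hball z hz
    have h2 := hne1 z hz
    have h3 : ‖g z‖ ≤ C3 * |t| ^ 2 := by
      simp only [hg]
      rcases le_or_gt (3 / 2) (c0 + z).re with h4 | h4
      · have h5 := (hM _ h4).1
        have h6 : (1:ℝ) ≤ |t| ^ 2 := by nlinarith
        calc ‖riemannZeta (c0 + z)‖ ≤ M * 1 := by linarith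
          _ ≤ C3 * |t| ^ 2 := by
            rw [hC3]; gcongr; linarith
      · have h5 := hpoly (c0 + z) (by linarith) h4.le
        rw [riemannZeta₁_eq (hne z hz), norm_mul] at h5
        have h6 : 1 ≤ ‖c0 + z - 1‖ := by
          have := Complex.abs_im_le_norm (c0 + z - 1)
          simp only [sub_im, one_im, sub_zero] at this
          linarith [h2.1]
        have h7 : (1 + |(c0 + z).im|) ^ (2:ℝ) ≤ 4 * |t| ^ 2 := by
          rw [show (2:ℝ) = ((2:ℕ):ℝ) by norm_num, Real.rpow_natCast]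
          have : 1 + |(c0 + z).im| ≤ 2 * |t| := by linarith [h2.2]
          calc (1 + |(c0 + z).im|) ^ 2 ≤ (2 * |t|) ^ 2 := by gcongr
            _ = ((2:ℕ):ℝ) ^ 2 * |t| ^ 2 := by push_cast; ring
            _ ≤ _ := by norm_num
        calc ‖riemannZeta (c0 + z)‖ ≤ ‖c0 + z - 1‖ * ‖riemannZeta (c0 + z)‖ :=
              le_mul_of_one_le_left (norm_nonneg _) h6
          _ ≤ C * (1 + |(c0 + z).im|) ^ (2:ℝ) := h5
          _ ≤ C * (4 * |t| ^ 2) := by gcongr
          _ ≤ C3 * |t| ^ 2 := by rw [hC3]; nlinarith [sq_nonneg |t|]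
    have h4 : C3 * |t| ^ 2 ≤ Real.exp (2 * Real.log |t| + b1) * ‖g 0‖ := by
      have e1 : Real.exp (2 * Real.log |t| + b1) = |t| ^ 2 * (C3 * M * Real.exp 1) := by
        rw [hb1, Real.exp_add, Real.exp_add, Real.exp_log (by positivity),
          show (2:ℝ) * Real.log |t| = ((2:ℕ):ℝ) * Real.log |t| by norm_num, Real.exp_nat_mul,
          Real.exp_log ht0]
      rw [e1]
      have e2 : 1 ≤ Real.exp 1 := Real.one_le_exp (by norm_num)
      calc C3 * |t| ^ 2 = |t| ^ 2 * C3 * 1 * 1 := by ring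
        _ ≤ |t| ^ 2 * C3 * (M * ‖g 0‖) * Real.exp 1 := by
            gcongr
            exact hgc.2
        _ = _ := by ring
    exact h3.trans h4
  have hgB₀ : ∀ z ∈ ball (0:ℂ) (3 / 2), ‖g z‖ ≤ Real.exp B₀ * ‖g 0‖ := by
    intro z hz
    rw [mem_ball_zero_iff] at hz
    have h1 := abs_le.1 (Complex.abs_re_le_norm z)
    have h2 : 3 / 2 ≤ (c0 + z).re := by rw [add_re, hc0re]; linarith
    have h3 := (hM _ h2).1
    have e1 : Real.exp B₀ = M * M * Real.exp 1 := by
      rw [hB₀, Real.exp_add, Real.exp_log (by positivity)]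
    have e2 : 1 ≤ Real.exp 1 := Real.one_le_exp (by norm_num)
    rw [e1]
    calc ‖g z‖ ≤ M * 1 * 1 := by rw [mul_one, mul_one]; exact h3
      _ ≤ M * (M * ‖g 0‖) * Real.exp 1 := by
          gcongr
          exact hgc.2
      _ = _ := by ring
  -- the point
  have hs : s = c0 + ((s.re - 3 : ℝ) : ℂ) := by
    apply Complex.ext
    · rw [add_re, hc0re, ofReal_re]; ring
    · rw [add_im, hc0im, ofReal_im, add_zero]; exact hsi
  set z : ℂ := ((s.re - 3 : ℝ) : ℂ) with hz
  have hzn : ‖z‖ = 3 - s.re := by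
    rw [hz, Complex.norm_real, Real.norm_of_nonpos (by linarith)]; ring
  obtain ⟨w, hw1, hw2⟩ := log_small (z := z) hρ1 hρR hRR hR32 hgd hg0 (by linarith) hB₀1 hgB hgB₀
    (by rw [hzn]; linarith) (by rw [hzn, hρ, hR]; linarith)
  have hgz : ‖riemannZeta s‖ = ‖g 0‖ * Real.exp w := by
    rw [← hw1]; simp only [hg]; rw [← hs]
  have hXt := hX (Real.log |t|) hlogt
  have hwle : |w| + Real.log M ≤ ε * Real.log |t| := by
    have h1 : 2 * (2 * Real.log |t| + b1) * R / (R - R') + 1 ≤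
        4 * (R / (R - R')) * Real.log |t| + c := by
      have h2 : 2 * b1 * (R / (R - R')) + 1 ≤ c := le_max_left _ _
      have h3 : 2 * (2 * Real.log |t| + b1) * R / (R - R') + 1 =
          4 * (R / (R - R')) * Real.log |t| + (2 * b1 * (R / (R - R')) + 1) := by ring
      linarith
    have h4 : (2 * (2 * Real.log |t| + b1) * R / (R - R') + 1) ^ τ ≤
        (4 * (R / (R - R')) * Real.log |t| + c) ^ τ := by
      apply Real.rpow_le_rpow _ h1 hτ0
      have h5 : 0 < R - R' := by linarith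
      positivity
    have h6 : 4 * B₀ * (2 * (2 * Real.log |t| + b1) * R / (R - R') + 1) ^ τ ≤
        4 * B₀ * (4 * (R / (R - R')) * Real.log |t| + c) ^ τ := by gcongr
    have h7 : Real.log M ≤ c := le_max_right _ _
    linarith
  have hpow : |t| ^ ε = Real.exp (ε * Real.log |t|) := by
    rw [Real.rpow_def_of_pos ht0]; ring_nf
  have hMexp : M = Real.exp (Real.log M) := (Real.exp_log hM0).symm
  constructor
  · rw [hgz, hpow]
    calc ‖g 0‖ * Real.exp w ≤ M * Real.exp |w| := by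
          gcongr
          · exact hgc.1
          · exact le_abs_self w
      _ = Real.exp (Real.log M + |w|) := by rw [Real.exp_add, ← hMexp]
      _ ≤ Real.exp (ε * Real.log |t|) := Real.exp_le_exp.2 (by linarith)
  · rw [hgz, hpow]
    have h1 : Real.exp (-w) * M ≤ Real.exp (ε * Real.log |t|) := by
      calc Real.exp (-w) * M ≤ Real.exp |w| * Real.exp (Real.log M) := by
            rw [← hMexp]
            gcongr
            exact neg_le_abs w
        _ = Real.exp (|w| + Real.log M) := by rw [Real.exp_add]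
        _ ≤ _ := Real.exp_le_exp.2 hwle
    have h2 : Real.exp (-w) * Real.exp w = 1 := by rw [← Real.exp_add]; simp
    calc (1:ℝ) ≤ M * ‖g 0‖ := hgc.2
      _ = (Real.exp (-w) * M) * (‖g 0‖ * Real.exp w) := by
          calc M * ‖g 0‖ = M * ‖g 0‖ * (Real.exp (-w) * Real.exp w) := by rw [h2, mul_one]
            _ = _ := by ring
      _ ≤ Real.exp (ε * Real.log |t|) * (‖g 0‖ * Real.exp w) := by gcongr

end Pool.Agent.Lib.MP_6bc78b_nt
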