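import Mathlib
import Pool.Agent.Lib.MP_6bc78b_nt.LocalZeta

set_option autoImplicit false

open Complex Set Filter Topology

namespace Pool.Agent.Lib.MP_6bc78b_nt

lemma norm_cos_le_two_mul_norm_sin {w : ℂ} (hw : 3 / 2 ≤ |w.im|) :
    ‖Complex.cos w‖ ≤ 2 * ‖Complex.sin w‖ := by
  have h1 := norm_cos_sq w
  have h2 := norm_sin_sq w
  have h3 : 2 ≤ Real.cosh (2 * w.im) := by
    rw [← Real.cosh_abs, abs_mul, abs_two]
    have h4 : 1 + 2 * |w.im| ≤ Real.exp (2 * |w.im|) := by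
      linarith [Real.add_one_le_exp (2 * |w.im|)]
    rw [Real.cosh_eq]
    have := Real.exp_pos (-(2 * |w.im|))
    linarith
  have h5 := Real.neg_one_le_cos (2 * w.re)
  have h6 := Real.cos_le_one (2 * w.re)
  refine le_of_sq_le_sq ?_ (by positivity)
  rw [mul_pow, h1, h2]
  linarith

/-- The gamma factor for `1/2 ≤ Re w ≤ 2` away from the real axis. -/
lemma exists_norm_Gamma_cos_le' :
    ∃ C : ℝ, 0 < C ∧ ∀ w : ℂ, 1 / 2 ≤ w.re → w.re ≤ 2 → 1 ≤ |w.im| →
      ‖Complex.Gamma w * Complex.cos (Real.pi * w / 2)‖ ≤ C * (1 + |w.im|) ^ (w.re - 1 / 2) := by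
  obtain ⟨C, hC, hΓ⟩ := exists_norm_Gamma_cos_le
  refine ⟨4 * C, by positivity, fun w h1 h2 h3 => ?_⟩
  have hY : 0 < 1 + |w.im| := by positivity
  rcases le_or_gt 1 w.re with h4 | h4
  · refine (hΓ w h4 h2).trans ?_
    have : 0 ≤ (1 + |w.im|) ^ (w.re - 1 / 2) := by positivity
    nlinarith
  · have hw0 : w ≠ 0 := by
      rintro rfl
      simp at h3
      linarith
    have hwn : 0 < ‖w‖ := norm_pos_iff.2 hw0
    have e1 := hΓ (w + 1) (by simp; linarith) (by simp; linarith)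
    have e2 : Complex.Gamma (w + 1) = w * Complex.Gamma w := Complex.Gamma_add_one _ hw0
    have e3 : Complex.cos (Real.pi * (w + 1) / 2) = -Complex.sin (Real.pi * w / 2) := by
      have : (Real.pi : ℂ) * (w + 1) / 2 = Real.pi * w / 2 + Real.pi / 2 := by ring
      rw [this, Complex.cos_add_pi_div_two]
    have e4 : (w + 1).im = w.im := by simp
    have e5 : (w + 1).re = w.re + 1 := by simp
    rw [e2, e3, e4, e5, norm_mul, norm_mul, norm_neg] at e1
    have him : (Real.pi * w / 2 : ℂ).im = Real.pi / 2 * w.im := by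
      rw [mul_div_assoc, Complex.im_ofReal_mul]; simp; ring
    have h5 : ‖Complex.cos (Real.pi * w / 2)‖ ≤ 2 * ‖Complex.sin (Real.pi * w / 2)‖ := by
      apply norm_cos_le_two_mul_norm_sin
      rw [him, abs_mul, abs_of_pos (by positivity)]
      have := Real.pi_gt_three
      nlinarith
    have h6 : (1 + |w.im|) / 2 ≤ ‖w‖ := by
      have := Complex.abs_im_le_norm w
      linarith
    have h7 : (1 + |w.im|) ^ (w.re + 1 - 1 / 2) = (1 + |w.im|) ^ (w.re - 1 / 2) * (1 + |w.im|) := by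
      nth_rewrite 3 [← Real.rpow_one (1 + |w.im|)]
      rw [← Real.rpow_add hY]
      congr 1
      ring
    rw [h7] at e1
    rw [norm_mul]
    have h8 : ‖w‖ * (‖Complex.Gamma w‖ * ‖Complex.cos (Real.pi * w / 2)‖) ≤
        ‖w‖ * (4 * C * (1 + |w.im|) ^ (w.re - 1 / 2)) := by
      have h9 : 0 ≤ (1 + |w.im|) ^ (w.re - 1 / 2) := by positivity
      calc ‖w‖ * (‖Complex.Gamma w‖ * ‖Complex.cos (Real.pi * w / 2)‖)
          ≤ ‖w‖ * (‖Complex.Gamma w‖ * (2 * ‖Complex.sin (Real.pi * w / 2)‖)) := by gcongr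
        _ = 2 * (‖w‖ * ‖Complex.Gamma w‖ * ‖Complex.sin (Real.pi * w / 2)‖) := by ring
        _ ≤ 2 * (C * ((1 + |w.im|) ^ (w.re - 1 / 2) * (1 + |w.im|))) := by gcongr
        _ = 4 * C * (1 + |w.im|) ^ (w.re - 1 / 2) * ((1 + |w.im|) / 2) := by ring
        _ ≤ 4 * C * (1 + |w.im|) ^ (w.re - 1 / 2) * ‖w‖ := by gcongr
        _ = _ := by ring
    exact le_of_mul_le_mul_left h8 hwn

/-- The functional equation in the form of an upper bound. -/
lemma exists_reflect_bound :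
    ∃ C : ℝ, 1 ≤ C ∧ ∀ s : ℂ, -(1 : ℝ) ≤ s.re → s.re ≤ 1 / 2 → 1 ≤ |s.im| →
      ‖riemannZeta s‖ ≤ C * (1 + |s.im|) ^ (1 / 2 - s.re) *
        ‖riemannZeta (1 - (starRingEnd ℂ) s)‖ := by
  obtain ⟨C, hC, hΓ⟩ := exists_norm_Gamma_cos_le'
  refine ⟨max 1 (2 * C), le_max_left _ _, fun s h1 h2 h3 => ?_⟩
  set w := 1 - s with hw
  have hwre : w.re = 1 - s.re := by rw [hw]; simp
  have hwim : |w.im| = |s.im| := by rw [hw]; simp
  have hwim0 : w.im ≠ 0 := by
    intro h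
    rw [h] at hwim
    simp at hwim
    rw [← hwim] at h3
    norm_num at h3
  have hsw : s = 1 - w := by rw [hw]; ring
  have hne : ∀ n : ℕ, w ≠ -n := by
    intro n hn
    have := congrArg Complex.im hn
    simp at this
    exact hwim0 this
  have hne1 : w ≠ 1 := by
    intro h
    rw [h] at hwim0
    simp at hwim0
  have e : riemannZeta s = 2 * (2 * Real.pi) ^ (-w) *
      (Complex.Gamma w * Complex.cos (Real.pi * w / 2)) * riemannZeta w := by
    rw [hsw, riemannZeta_one_sub hne hne1]; ring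
  have b1 : ‖(2 * (2 * Real.pi) ^ (-w) : ℂ)‖ ≤ 2 := by
    rw [norm_mul]
    have h2 : ((2 : ℂ) * Real.pi) = ((2 * Real.pi : ℝ) : ℂ) := by push_cast; ring
    rw [h2, Complex.norm_cpow_eq_rpow_re_of_pos (by positivity)]
    have h3 : (2 * Real.pi) ^ ((-w).re) ≤ 1 := by
      apply Real.rpow_le_one_of_one_le_of_nonpos
      · linarith [Real.pi_gt_three]
      · simp [hwre]; linarith
    simp only [Complex.norm_ofNat]
    linarith
  have b2 := hΓ w (by rw [hwre]; linarith) (by rw [hwre]; linarith) (by rw [hwim]; exact h3)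
  have b3 : ‖riemannZeta w‖ = ‖riemannZeta (1 - (starRingEnd ℂ) s)‖ := by
    have : (1 - (starRingEnd ℂ) s : ℂ) = (starRingEnd ℂ) w := by rw [hw]; simp
    rw [this, riemannZeta_conj, Complex.norm_conj]
  rw [hwim, hwre] at b2
  have e1 : (1 - s.re - 1 / 2 : ℝ) = 1 / 2 - s.re := by ring
  rw [e1] at b2
  rw [e, norm_mul, norm_mul, b3]
  have hp : 0 ≤ (1 + |s.im|) ^ (1 / 2 - s.re) := by positivity
  calc ‖(2 * (2 * Real.pi) ^ (-w) : ℂ)‖ * ‖Complex.Gamma w * Complex.cos (Real.pi * w / 2)‖ *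
        ‖riemannZeta (1 - (starRingEnd ℂ) s)‖
      ≤ 2 * (C * (1 + |s.im|) ^ (1 / 2 - s.re)) * ‖riemannZeta (1 - (starRingEnd ℂ) s)‖ := by
        gcongr
    _ = (2 * C) * (1 + |s.im|) ^ (1 / 2 - s.re) * ‖riemannZeta (1 - (starRingEnd ℂ) s)‖ := by ring
    _ ≤ _ := by
        gcongr
        exact le_max_right _ _

/-- The shifted zeta function with a strong Gaussian damping. -/
noncomputable def FN (t N : ℝ) (z : ℂ) : ℂ :=
  riemannZeta₁ ((1 / 2 + t * I) + z) * Complex.exp (N * z ^ 2)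

lemma differentiable_FN (t N : ℝ) : Differentiable ℂ (FN t N) := by
  have h1 : Differentiable ℂ (fun z : ℂ => riemannZeta₁ ((1 / 2 + t * I) + z)) :=
    differentiable_riemannZeta₁.comp (by fun_prop)
  exact h1.mul (by fun_prop)

lemma norm_FN (t N : ℝ) (z : ℂ) : ‖FN t N z‖ =
    ‖riemannZeta₁ ((1 / 2 + t * I) + z)‖ * Real.exp (N * (z.re ^ 2 - z.im ^ 2)) := by
  rw [FN, norm_mul, Complex.norm_exp]
  congr 2
  rw [re_ofReal_mul, sq, mul_re]
  ring

lemma FN_decay (t : ℝ) {N : ℝ} (hN : 1 ≤ N) :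
    ∃ K : ℝ, ∀ z : ℂ, |z.re| ≤ 1 → ‖FN t N z‖ ≤ K * Real.exp (-|z.im|) := by
  obtain ⟨C0, hC0, hcrude⟩ := exists_norm_riemannZeta₁_le
  refine ⟨C0 * Real.exp (3 * |t|) * (Real.exp 4 * Real.exp N), fun z hz => ?_⟩
  have hz' := abs_le.1 hz
  have h1 := hcrude ((1 / 2 + t * I) + z) (by rw [sre]; linarith) (by rw [sre]; linarith)
  rw [sim] at h1
  rw [norm_FN]
  have h2 : Real.exp (3 * |t + z.im|) ≤ Real.exp (3 * |t|) * Real.exp (3 * |z.im|) := by
    rw [← Real.exp_add]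
    apply Real.exp_le_exp.2
    have := abs_add_le t z.im
    linarith
  have h3 : Real.exp (3 * |z.im|) * Real.exp (N * (z.re ^ 2 - z.im ^ 2)) ≤
      (Real.exp 4 * Real.exp N) * Real.exp (-|z.im|) := by
    rw [← Real.exp_add, ← Real.exp_add, ← Real.exp_add]
    apply Real.exp_le_exp.2
    have h4 : z.re ^ 2 ≤ 1 := by nlinarith
    have h5 := sq_nonneg (|z.im| - 2)
    have h6 : |z.im| ^ 2 = z.im ^ 2 := sq_abs _
    have h7 : N * z.re ^ 2 ≤ N * 1 := by gcongr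
    have h8 : 1 * z.im ^ 2 ≤ N * z.im ^ 2 := by gcongr
    nlinarith
  calc ‖riemannZeta₁ (1 / 2 + t * I + z)‖ * Real.exp (N * (z.re ^ 2 - z.im ^ 2))
      ≤ (C0 * (Real.exp (3 * |t|) * Real.exp (3 * |z.im|))) *
        Real.exp (N * (z.re ^ 2 - z.im ^ 2)) := by
        apply mul_le_mul_of_nonneg_right _ (by positivity)
        exact h1.trans (mul_le_mul_of_nonneg_left h2 hC0.le)
    _ = C0 * Real.exp (3 * |t|) *
        (Real.exp (3 * |z.im|) * Real.exp (N * (z.re ^ 2 - z.im ^ 2))) := by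
        ring
    _ ≤ C0 * Real.exp (3 * |t|) * ((Real.exp 4 * Real.exp N) * Real.exp (-|z.im|)) :=
        mul_le_mul_of_nonneg_left h3 (by positivity)
    _ = _ := by ring

lemma FN_order (t N : ℝ) : analyticOrderAt (FN t N) (((0 : ℝ) : ℂ) * I) =
    analyticOrderAt riemannZeta₁ (1 / 2 + t * I) := by
  have h3 : FN t N = (fun z : ℂ => riemannZeta₁ ((1 / 2 + t * I) + z)) *
      (fun z : ℂ => Complex.exp (N * z ^ 2)) := rfl
  have h4 : AnalyticAt ℂ (fun z : ℂ => riemannZeta₁ ((1 / 2 + t * I) + z))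
      (((0 : ℝ) : ℂ) * I) :=
    (differentiable_riemannZeta₁.comp (by fun_prop :
      Differentiable ℂ fun z : ℂ => (1 / 2 + t * I) + z)).analyticAt _
  have h5 : AnalyticAt ℂ (fun z : ℂ => Complex.exp (N * z ^ 2)) (((0 : ℝ) : ℂ) * I) :=
    (by fun_prop : Differentiable ℂ fun z : ℂ => Complex.exp (N * z ^ 2)).analyticAt _
  rw [h3, analyticOrderAt_mul h4 h5]
  have h6 : analyticOrderAt (fun z : ℂ => Complex.exp (N * z ^ 2)) (((0 : ℝ) : ℂ) * I) = 0 := by
    rw [h5.analyticOrderAt_eq_zero]; exact Complex.exp_ne_zero _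
  rw [h6, add_zero]
  have h7 : (fun z : ℂ => riemannZeta₁ ((1 / 2 + t * I) + z)) =
      riemannZeta₁ ∘ (fun z : ℂ => (1 / 2 + t * I) + z) := rfl
  rw [h7, analyticOrderAt_comp_of_deriv_ne_zero]
  · congr 1
    simp
  · exact (by fun_prop : Differentiable ℂ fun z : ℂ => (1 / 2 + t * I) + z).analyticAt _
  · rw [deriv_const_add]; simp

end Pool.Agent.Lib.MP_6bc78b_nt
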